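import Pool.Agent.P.MP_54dcdd_nt.Gen

/-! A global bound for the inverse of eta. -/

open Complex MeasureTheory
open scoped Real

noncomputable section

namespace Pool.Agent.PPow

open UpperHalfPlane MatrixGroups in
theorem EtaB_mod (g : SL(2, ℤ)) (τ : ℍ) :
    ModularForm.eta ((g • τ : ℍ) : ℂ) ^ 24 = denom g τ ^ 12 * ModularForm.eta τ ^ 24 := by
  have hg : (g : GL (Fin 2) ℝ) ∈ 𝒮ℒ := ⟨g, rfl⟩
  have h := SlashInvariantForm.slash_action_eqn'' CuspForm.discriminant hg τ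
  rw [CuspForm.coe_discriminant] at h
  exact_mod_cast h

theorem EtaB_high : ∃ C : ℝ, 0 ≤ C ∧ ∀ z : ℂ, 1 / 2 ≤ z.im →
    ‖(ModularForm.eta z)⁻¹‖ ≤ C * Real.exp (π / 12 * z.im) := by
  obtain ⟨C, hC, h⟩ := eul_inv_bound
  refine ⟨1 + C, by positivity, fun z hz => ?_⟩
  have hq : ‖cexp (2 * π * I * z)‖ ≤ 1 / 2 := by
    rw [norm_exp]
    have h1 : (2 * π * I * z : ℂ).re = -(2 * π * z.im) := by simp
    have h2 : 1 ≤ 2 * π * z.im := by nlinarith [Real.pi_gt_three]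
    have h3 := Real.add_one_le_exp (2 * π * z.im)
    rw [h1, Real.exp_neg, one_div]
    exact inv_anti₀ two_pos (by linarith)
  have h1 : ‖(eul (cexp (2 * π * I * z)))⁻¹‖ ≤ 1 + C := by
    have h2 := h _ hq
    have h3 := norm_add_le ((eul (cexp (2 * π * I * z)))⁻¹ - 1) 1
    rw [sub_add_cancel, norm_one] at h3
    nlinarith [norm_nonneg (cexp (2 * π * I * z))]
  rw [eta_eq, mul_inv, Complex.norm_mul, ← Complex.exp_neg, norm_exp, mul_comm]
  have h2 : (-(π * I * z / 12) : ℂ).re = π / 12 * z.im := by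
    simp
    ring
  rw [h2]
  gcongr

theorem eta_bound : ∃ C : ℝ, 0 ≤ C ∧ ∀ x y : ℝ, 0 < y → y ≤ 1 → ∃ c d : ℤ, (c ≠ 0 ∨ d ≠ 0) ∧
    ‖(ModularForm.eta (x + y * I))⁻¹‖ ≤
      C * Real.exp (π / 12 * (y / ‖(c : ℂ) * (x + y * I) + d‖ ^ 2)) := by
  obtain ⟨C, hC, h⟩ := EtaB_high
  refine ⟨C, hC, fun x y hy _ => ?_⟩
  let τ : UpperHalfPlane := ⟨x + y * I, by simpa using hy⟩
  have hτ : (τ : ℂ) = x + y * I := rfl
  have hτi : τ.im = y := by
    rw [← UpperHalfPlane.coe_im, hτ]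
    simp
  obtain ⟨g, h1, h2⟩ := ModularGroup.exists_one_half_le_im_smul_and_norm_denom_le τ
  refine ⟨g 1 0, g 1 1, ?_, ?_⟩
  · by_contra h3
    push Not at h3
    have h4 := ModularGroup.bottom_row_coprime g
    rw [h3.1, h3.2] at h4
    exact not_isCoprime_zero_zero h4
  have h3 := h ((g • τ : UpperHalfPlane) : ℂ) h1
  have h4 : ((g • τ : UpperHalfPlane) : ℂ).im =
      y / ‖((g 1 0 : ℤ) : ℂ) * (x + y * I) + (g 1 1 : ℤ)‖ ^ 2 := by
    rw [UpperHalfPlane.coe_im, ModularGroup.im_smul_eq_div_normSq, hτi, normSq_eq_norm_sq,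
      ModularGroup.denom_apply, hτ]
  rw [h4] at h3
  refine le_trans ?_ h3
  rw [norm_inv, norm_inv, ← hτ]
  refine inv_anti₀ (norm_pos_iff.2 (ModularForm.eta_ne_zero (g • τ).2)) ?_
  refine le_of_pow_le_pow_left₀ (n := 24) (by norm_num) (norm_nonneg _) ?_
  rw [← norm_pow, EtaB_mod, Complex.norm_mul, norm_pow, norm_pow]
  exact mul_le_of_le_one_left (by positivity) (pow_le_one₀ (norm_nonneg _) h2)

end Pool.Agent.PPow
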