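import Pool.Agent.P.MP_54dcdd_nt.EtaS
import Pool.Agent.P.MP_54dcdd_nt.EtaB

/-! The inverse of eta on a horizontal segment. -/

open Complex MeasureTheory
open scoped Real

noncomputable section

namespace Pool.Agent.PPow

theorem EtaA_re (c y a : ℝ) : ((c : ℂ) / (y - a * I)).re = c * (y / (y ^ 2 + a ^ 2)) := by
  rw [Complex.div_re, Complex.normSq_apply]
  simp
  ring

theorem EtaA_fz (c : ℝ) {y a : ℝ} (hy : |y| ≤ 1) (ha : |a| ≤ 1) :
    ‖fz c (y - a * I)‖ ≤ 2 * Real.exp (c * (y / (y ^ 2 + a ^ 2))) := by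
  have h1 : ‖((y : ℂ) - a * I).sqrt‖ ^ 2 ≤ 2 ^ 2 := by
    rw [← norm_pow, Complex.sqrt, Complex.cpow_ofNat_inv_pow]
    refine (norm_sub_le _ _).trans ?_
    rw [norm_mul, Complex.norm_I, Complex.norm_real, Complex.norm_real, Real.norm_eq_abs,
      Real.norm_eq_abs]
    linarith
  rw [fz, norm_mul, Complex.norm_exp, EtaA_re]
  exact mul_le_mul_of_nonneg_right (le_of_sq_le_sq h1 zero_le_two) (Real.exp_pos _).le

theorem EtaA_far {c y a : ℝ} (hc : 0 ≤ c) (hc' : c ≤ 1) (hy : |y| ≤ 1) (ha : |a| ≤ 1)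
    (hu : y / (y ^ 2 + a ^ 2) ≤ 1) : ‖fz c (y - a * I)‖ ≤ 2 * Real.exp 1 := by
  refine (EtaA_fz c hy ha).trans ?_
  gcongr
  nlinarith

theorem EtaA_near {C : ℝ} (hC : 0 ≤ C) (h : ∀ q : ℂ, ‖q‖ ≤ 1 / 2 → ‖(eul q)⁻¹ - 1‖ ≤ C * ‖q‖)
    {c k y a : ℝ} (hk : 1 ≤ k) (hc : c ≤ k) (hy : |y| ≤ 1) (ha : |a| ≤ 1)
    (hu : 1 ≤ y / (y ^ 2 + a ^ 2)) {q : ℂ} (hq : ‖q‖ = Real.exp (-(k * (y / (y ^ 2 + a ^ 2))))) :
    ‖fz c (y - a * I) * (eul q)⁻¹ - fz c (y - a * I)‖ ≤ 2 * C := by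
  have h1 := EtaA_fz c hy ha
  generalize y / (y ^ 2 + a ^ 2) = u at *
  have h2 : ‖q‖ ≤ 1 / 2 := by
    have h3 := Real.add_one_le_exp (k * u)
    rw [hq, Real.exp_neg, one_div]
    exact inv_anti₀ two_pos (by nlinarith)
  have h4 : Real.exp (c * u) * Real.exp (-(k * u)) ≤ 1 := by
    rw [← Real.exp_add, Real.exp_le_one_iff]
    nlinarith
  rw [← mul_sub_one, norm_mul]
  calc _ ≤ 2 * Real.exp (c * u) * (C * ‖q‖) :=
        mul_le_mul h1 (h q h2) (norm_nonneg _) (by positivity)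
    _ = 2 * C * (Real.exp (c * u) * Real.exp (-(k * u))) := by rw [hq]; ring
    _ ≤ 2 * C := mul_le_of_le_one_right (by positivity) h4

theorem EtaA_int {c d : ℤ} (hc : 0 ≤ c) (h : c ≠ 0 ∨ d ≠ 0) {x y : ℝ}
    (hy : y ≤ 1 / 100) (h₁ : -(1 / 4) ≤ x) (h₂ : x ≤ 3 / 4) (u₁ : y ≤ y ^ 2 + x ^ 2)
    (u₂ : y ≤ y ^ 2 + (x - 1 / 2) ^ 2) :
    y ≤ (c * x + d) ^ 2 + (c * y) ^ 2 ∨ 9 * y ^ 2 ≤ (c * x + d) ^ 2 + (c * y) ^ 2 := by
  have key : ∀ t s : ℝ, t ≤ -(1 / 4) ∨ 1 / 4 ≤ t → y ≤ t ^ 2 + s ^ 2 := by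
    rintro t s (h | h) <;> nlinarith [sq_nonneg s]
  have hd : (d : ℝ) ≤ -2 ∨ d = -1 ∨ d = 0 ∨ (1 : ℝ) ≤ d := by
    have : d ≤ -2 ∨ d = -1 ∨ d = 0 ∨ 1 ≤ d := by omega
    exact_mod_cast this
  obtain rfl | rfl | rfl | h3 : c = 0 ∨ c = 1 ∨ c = 2 ∨ 3 ≤ c := by omega
  · refine Or.inl (key _ _ ?_)
    rcases hd with h4 | rfl | rfl | h4
    · left; push_cast; linarith
    · left; push_cast; linarith
    · simp at h
    · right; push_cast; linarith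
  · left
    rcases hd with h4 | rfl | rfl | h4
    · exact key _ _ (by left; push_cast; linarith)
    · exact key _ _ (by left; push_cast; linarith)
    · push_cast; linarith
    · exact key _ _ (by right; push_cast; linarith)
  · left
    rcases hd with h4 | rfl | rfl | h4
    · exact key _ _ (by left; push_cast; linarith)
    · push_cast; nlinarith [sq_nonneg y, sq_nonneg (x - 1 / 2)]
    · push_cast; nlinarith [sq_nonneg y, sq_nonneg x]
    · exact key _ _ (by right; push_cast; linarith)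
  · have h4 : (3 : ℝ) ≤ c := by exact_mod_cast h3
    have h5 : (9 : ℝ) ≤ (c : ℝ) ^ 2 := by nlinarith
    right
    nlinarith [sq_nonneg (c * x + d), mul_le_mul_of_nonneg_right h5 (sq_nonneg y)]

theorem EtaA_mid {c d : ℤ} (h : c ≠ 0 ∨ d ≠ 0) {x y : ℝ} (h₀ : 0 < y)
    (hy : y ≤ 1 / 100) (h₁ : -(1 / 4) ≤ x) (h₂ : x ≤ 3 / 4) (u₁ : y ≤ y ^ 2 + x ^ 2)
    (u₂ : y ≤ y ^ 2 + (x - 1 / 2) ^ 2) :
    π / 12 * (y / ‖(c : ℂ) * (x + y * I) + d‖ ^ 2) ≤ 1 + π / (108 * y) := by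
  have e : ‖(c : ℂ) * (x + y * I) + d‖ ^ 2 = (c * x + d) ^ 2 + (c * y) ^ 2 := by
    rw [Complex.sq_norm, Complex.normSq_apply]
    simp
    ring
  have h3 : y ≤ (c * x + d) ^ 2 + (c * y) ^ 2 ∨ 9 * y ^ 2 ≤ (c * x + d) ^ 2 + (c * y) ^ 2 := by
    rcases le_total 0 c with hc | hc
    · exact EtaA_int hc h hy h₁ h₂ u₁ u₂
    · have h4 := EtaA_int (c := -c) (d := -d) (by omega) (by omega) hy h₁ h₂ u₁ u₂
      have e1 : (((-c : ℤ) : ℝ) * x + (-d : ℤ)) ^ 2 + ((-c : ℤ) * y) ^ 2 =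
          (c * x + d) ^ 2 + (c * y) ^ 2 := by
        push_cast
        ring
      rwa [e1] at h4
  have h5 := Real.pi_pos
  have h6 := Real.pi_le_four
  have h7 : 0 < π / (108 * y) := by positivity
  rw [e]
  rcases h3 with h3 | h3
  · have h8 := (div_le_one (h₀.trans_le h3)).2 h3
    nlinarith
  · calc _ ≤ π / 12 * (y / (9 * y ^ 2)) := by gcongr
      _ = π / (108 * y) := by field_simp; norm_num
      _ ≤ _ := by linarith

theorem eta_approx : ∃ C : ℝ, ∀ x y : ℝ, 0 < y → y ≤ 1 / 100 → -(1 / 4) ≤ x → x ≤ 3 / 4 →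
    ‖(ModularForm.eta (x + y * I))⁻¹ - fz (π / 12) (y - x * I) -
        cexp (-(π * I / 24)) * (√2 : ℝ) * fz (π / 48) (y - (x - 1 / 2 : ℝ) * I)‖ ≤
      C * Real.exp (π / (108 * y)) := by
  obtain ⟨C₀, hC₀, h₀⟩ := eul_inv_bound
  obtain ⟨C₁, hC₁, h₁⟩ := eta_bound
  refine ⟨4 * C₀ + 6 * Real.exp 1 + C₁ * Real.exp 1, fun x y hy hy' hx hx' => ?_⟩
  have p1 := Real.pi_pos
  have p2 := Real.pi_le_four
  have p3 := Real.two_le_pi
  have e1 := Real.exp_pos 1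
  have e2 : 1 ≤ Real.exp (π / (108 * y)) := Real.one_le_exp (by positivity)
  have e3 := mul_nonneg hC₁ e1.le
  have ay : |y| ≤ 1 := abs_le.2 ⟨by linarith, by linarith⟩
  have ax : |x| ≤ 1 := abs_le.2 ⟨by linarith, by linarith⟩
  have ax' : |x - 1 / 2| ≤ 1 := abs_le.2 ⟨by linarith, by linarith⟩
  have d1 : 0 < y ^ 2 + x ^ 2 := by positivity
  have d2 : 0 < y ^ 2 + (x - 1 / 2) ^ 2 := by positivity
  have f1 := EtaA_far (c := π / 12) (by positivity) (by linarith) ay ax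
  have f2 := EtaA_far (c := π / 48) (by positivity) (by linarith) ay ax'
  have hw : ∀ z : ℂ, ‖cexp (-(π * I / 24)) * (√2 : ℝ) * z‖ ≤ 2 * ‖z‖ := fun z => by
    have h2 : (-(π * I / 24) : ℂ).re = 0 := by simp
    rw [norm_mul, norm_mul, Complex.norm_exp, h2, Real.exp_zero, one_mul, Complex.norm_real,
      Real.norm_of_nonneg (Real.sqrt_nonneg _)]
    exact mul_le_mul_of_nonneg_right (Real.sqrt_le_iff.2 (by norm_num)) (norm_nonneg _)
  have fin : ∀ t, t ≤ 4 * C₀ + 6 * Real.exp 1 →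
      t ≤ (4 * C₀ + 6 * Real.exp 1 + C₁ * Real.exp 1) * Real.exp (π / (108 * y)) := fun t ht =>
    (ht.trans (le_add_of_nonneg_right e3)).trans (le_mul_of_one_le_right (by positivity) e2)
  by_cases u1 : 1 ≤ y / (y ^ 2 + x ^ 2)
  · have h2 : (x + y * I : ℂ) = I * (y - x * I) := by
      linear_combination (x : ℂ) * I_sq
    have h3 := EtaA_near hC₀ h₀ (c := π / 12) (k := 2 * π) (by linarith) (by linarith) ay ax u1
      (q := cexp (-(2 * π / (y - x * I)))) (by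
        rw [Complex.norm_exp, neg_re, ← EtaA_re]
        push_cast
        rfl)
    have h4 := f2 ((div_le_one d2).2 (by
      have := (one_le_div d1).1 u1
      have h5 : x ≤ 1 / 10 := by nlinarith [sq_nonneg y]
      nlinarith [sq_nonneg y]))
    rw [h2, inv_eta_zero (by simpa using hy)]
    refine fin _ ((norm_sub_le _ _).trans ?_)
    have h6 := hw (fz (π / 48) (y - (x - 1 / 2 : ℝ) * I))
    linarith
  have h4 := f1 (not_le.1 u1).le
  by_cases u2 : 1 ≤ y / (y ^ 2 + (x - 1 / 2) ^ 2)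
  · have h2 : (x + y * I : ℂ) = 1 / 2 + I * (y - (x - 1 / 2 : ℝ) * I) := by
      push_cast
      linear_combination ((x : ℂ) - 1 / 2) * I_sq
    have h3 := EtaA_near hC₀ h₀ (c := π / 48) (k := π / 2) (by linarith) (by linarith) ay ax' u2
      (q := -cexp (-(π / (2 * (y - (x - 1 / 2 : ℝ) * I))))) (by
        rw [norm_neg, Complex.norm_exp, neg_re, ← EtaA_re, ← div_div, Complex.ofReal_div π 2]
        rfl)
    rw [h2, inv_eta_half (by simpa using hy), sub_right_comm, mul_assoc _ (fz _ _), ← mul_sub]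
    refine fin _ ((norm_sub_le _ _).trans ?_)
    have h6 := hw (fz (π / 48) (y - (x - 1 / 2 : ℝ) * I) *
      (eul (-cexp (-(π / (2 * (y - (x - 1 / 2 : ℝ) * I))))))⁻¹ -
        fz (π / 48) (y - (x - 1 / 2 : ℝ) * I))
    linarith
  have h5 := f2 (not_le.1 u2).le
  obtain ⟨c, d, hcd, h6⟩ := h₁ x y hy (by linarith)
  have h7 := Real.exp_le_exp.2 (EtaA_mid hcd hy hy' hx hx'
    ((div_le_one d1).1 (not_le.1 u1).le) ((div_le_one d2).1 (not_le.1 u2).le))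
  rw [Real.exp_add] at h7
  have h8 := h6.trans (mul_le_mul_of_nonneg_left h7 hC₁)
  have h9 := hw (fz (π / 48) (y - (x - 1 / 2 : ℝ) * I))
  have h10 := le_mul_of_one_le_right (by positivity : 0 ≤ 4 * C₀ + 6 * Real.exp 1) e2
  refine (norm_sub_le _ _).trans ((add_le_add_left (norm_sub_le _ _) _).trans ?_)
  linarith

end Pool.Agent.PPow
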