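import Pool.Agent.P.MP_54dcdd_nt.LapF

/-! Laplace inversion on a vertical line. -/

open Complex MeasureTheory
open scoped Real

noncomputable section

namespace Pool.Agent.PPow

theorem LapI_re (y x : ℝ) : y ≤ ‖(y - x * I : ℂ)‖ := by
  simpa using re_le_norm (y - x * I : ℂ)

theorem LapI_im (y x : ℝ) : |x| ≤ ‖(y - x * I : ℂ)‖ := by
  simpa using abs_im_le_norm (y - x * I : ℂ)

theorem LapI_ne {y : ℝ} (hy : 0 < y) (x : ℝ) : (y - x * I : ℂ) ≠ 0 :=
  norm_pos_iff.1 (hy.trans_le (LapI_re y x))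

theorem LapI_bd {c r x : ℝ} (hc : 0 < c) (hr : 0 < r) {z : ℂ} (h1 : r ≤ ‖z‖) (h2 : |x| ≤ ‖z‖) :
    ‖ft c z‖ ≤ c ^ 2 * (r / (1 + r)) ^ (-(3 / 2) : ℝ) * Real.exp (c / r) *
      (1 + ‖x‖) ^ (-(3 / 2) : ℝ) := by
  have hz : 0 < ‖z‖ := hr.trans_le h1
  refine (ft_bound hc.le (norm_pos_iff.1 hz)).trans ?_
  have h3 : r / (1 + r) * (1 + ‖x‖) ≤ ‖z‖ := by
    rw [div_mul_eq_mul_div, div_le_iff₀ (by positivity), Real.norm_eq_abs]
    nlinarith
  have h4 : ‖z‖ ^ (-(3 / 2) : ℝ) ≤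
      (r / (1 + r)) ^ (-(3 / 2) : ℝ) * (1 + ‖x‖) ^ (-(3 / 2) : ℝ) := by
    rw [← Real.mul_rpow (by positivity) (by positivity)]
    exact Real.rpow_le_rpow_of_nonpos (by positivity) h3 (by norm_num)
  have h5 : Real.exp (c / ‖z‖) ≤ Real.exp (c / r) :=
    Real.exp_le_exp.2 (div_le_div_of_nonneg_left hc.le hr h1)
  calc c ^ 2 * ‖z‖ ^ (-(3 / 2) : ℝ) * Real.exp (c / ‖z‖)
      ≤ c ^ 2 * ((r / (1 + r)) ^ (-(3 / 2) : ℝ) * (1 + ‖x‖) ^ (-(3 / 2) : ℝ)) *
        Real.exp (c / r) := by gcongr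
    _ = _ := by ring

theorem LapI_int : Integrable fun x : ℝ => (1 + ‖x‖) ^ (-(3 / 2) : ℝ) :=
  integrable_one_add_norm (by simp; norm_num)

theorem LapI_sqrt {y : ℝ} (hy : 0 < y) : Continuous fun x : ℝ => (y - x * I : ℂ).sqrt := by
  refine continuous_iff_continuousAt.2 fun x => ?_
  refine ContinuousAt.comp (g := Complex.sqrt) (f := fun x : ℝ => (y - x * I : ℂ))
    (hasDerivAt_sqrt (Or.inl ?_)).continuousAt (by fun_prop)
  simpa using hy

theorem LapI_div {c y : ℝ} (hy : 0 < y) : Continuous fun x : ℝ => (c : ℂ) / (y - x * I : ℂ) :=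
  continuous_const.div (by fun_prop) (LapI_ne hy)

theorem LapI_cont {c y : ℝ} (hy : 0 < y) : Continuous fun x : ℝ => ft c (y - x * I) :=
  (LapI_sqrt hy).mul (((LapI_div hy).cexp.sub continuous_const).sub (LapI_div hy))

theorem LapI_nexp (s y x : ℝ) : ‖cexp (s * (y - x * I))‖ = Real.exp (s * y) := by
  rw [norm_exp]
  simp

theorem LapI_nsqrt (z : ℂ) : ‖z.sqrt‖ = √‖z‖ := by
  rw [Complex.sqrt, Real.sqrt_eq_rpow, ← norm_cpow_real]
  norm_num

theorem integrable_ft {c y : ℝ} (hc : 0 < c) (hy : 0 < y) :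
    Integrable fun x : ℝ => ft c (y - x * I) := by
  refine (LapI_int.const_mul _).mono' (LapI_cont hy).aestronglyMeasurable
    (Filter.Eventually.of_forall fun x => LapI_bd hc hy (LapI_re y x) (LapI_im y x))

theorem LapI_al {c s : ℝ} (hc : 0 < c) (hs : 0 < s) : ContinuousAt (al c) s := by
  have h1 : √(π * s) ≠ 0 := by positivity
  have h2 : 2 * √(c * s) ≠ 0 := by positivity
  have h3 : (2 * √(c * s)) ^ 2 ≠ 0 := by positivity
  unfold al
  fun_prop (disch := assumption)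

theorem lap_inv {c s y : ℝ} (hc : 0 < c) (hs : 0 < s) (hy : 0 < y) :
    ∫ x : ℝ, ft c (y - x * I) * cexp (s * (y - x * I)) = 2 * π * al c s := by
  let h : ℝ → ℂ := (Set.Ioi (0 : ℝ)).indicator fun s => ((al c s * Real.exp (-(s * y)) : ℝ) : ℂ)
  have hi : Integrable h :=
    (integrable_indicator_iff measurableSet_Ioi).2 (Integrable.ofReal (integrableOn_al hc hy))
  have hF : FourierTransform.fourier h = fun ξ : ℝ => ft c (y - ((-2 * π * ξ : ℝ) : ℂ) * I) := by
    funext ξ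
    rw [Real.fourier_real_eq_integral_exp_smul, ← laplace_al hc (by simpa using hy),
      ← integral_indicator measurableSet_Ioi]
    congr 1
    funext v
    by_cases hv : v ∈ Set.Ioi (0 : ℝ)
    · simp only [h, Set.indicator_of_mem hv, smul_eq_mul]
      push_cast
      rw [mul_left_comm, ← Complex.exp_add]
      congr 2
      ring
    · simp [h, Set.indicator_of_notMem hv]
  have hne : (-2 * π : ℝ) ≠ 0 := mul_ne_zero (by norm_num) Real.pi_ne_zero
  have hi' : Integrable (FourierTransform.fourier h) := by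
    rw [hF]
    exact (integrable_ft hc hy).comp_mul_left' hne
  have hcs : ContinuousAt h s := by
    have h1 : ContinuousAt (fun s : ℝ => ((al c s * Real.exp (-(s * y)) : ℝ) : ℂ)) s :=
      continuous_ofReal.continuousAt.comp ((LapI_al hc hs).mul (by fun_prop))
    refine h1.congr ?_
    filter_upwards [Ioi_mem_nhds hs] with t ht
    simp only [h, Set.indicator_of_mem ht]
  have h1 := hi.fourierInv_fourier_eq hi' hcs
  rw [Real.fourierInv_eq_fourier_neg, Real.fourier_real_eq_integral_exp_smul, hF] at h1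
  have h2 := Measure.integral_comp_mul_left
    (fun x : ℝ => ft c (y - x * I) * cexp (s * (y - x * I))) (-2 * π)
  have h3 : (∫ ξ : ℝ, ft c (y - ((-2 * π * ξ : ℝ) : ℂ) * I) *
      cexp (s * (y - ((-2 * π * ξ : ℝ) : ℂ) * I))) = al c s := by
    have h4 : ∀ ξ : ℝ, ft c (y - ((-2 * π * ξ : ℝ) : ℂ) * I) *
        cexp (s * (y - ((-2 * π * ξ : ℝ) : ℂ) * I)) = cexp (s * y) *
        (cexp (((-2 * π * ξ * -s : ℝ) : ℂ) * I) • ft c (y - ((-2 * π * ξ : ℝ) : ℂ) * I)) := by
      intro ξ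
      rw [smul_eq_mul, ← mul_assoc, ← Complex.exp_add, mul_comm]
      congr 2
      push_cast
      ring
    simp_rw [h4]
    rw [integral_const_mul, h1]
    simp only [h, Set.indicator_of_mem (show s ∈ Set.Ioi (0 : ℝ) from hs)]
    push_cast
    rw [mul_left_comm, ← Complex.exp_add]
    simp
  rw [h3, abs_inv, neg_mul, abs_neg, abs_of_pos (by positivity), real_smul] at h2
  have hp : (2 * π : ℂ) ≠ 0 := mul_ne_zero two_ne_zero (ofReal_ne_zero.2 Real.pi_ne_zero)
  rw [h2, ofReal_inv, ofReal_mul, ofReal_ofNat, mul_inv_cancel_left₀ hp]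

theorem seg_lap {c : ℝ} (hc : 0 < c) : ∃ C : ℝ, ∀ s y a b : ℝ, 0 < s → 0 < y → y ≤ 1 →
    -1 ≤ a → a ≤ -(1 / 4) → 1 / 4 ≤ b → b ≤ 1 →
    ‖(∫ x in a..b, fz c (y - x * I) * cexp (s * (y - x * I))) - 2 * π * al c s‖ ≤
      C * (Real.exp (s * y) / √y) := by
  obtain ⟨K, hK⟩ : ∃ K : ℝ, K = c ^ 2 * ((1 / 4 : ℝ) / (1 + 1 / 4)) ^ (-(3 / 2) : ℝ) *
    Real.exp (c / (1 / 4)) := ⟨_, rfl⟩
  obtain ⟨J, hJ⟩ : ∃ J : ℝ, J = ∫ x : ℝ, (1 + ‖x‖) ^ (-(3 / 2) : ℝ) := ⟨_, rfl⟩
  have hK0 : 0 ≤ K := by rw [hK]; positivity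
  have hJ0 : 0 ≤ J := by
    rw [hJ]
    exact integral_nonneg fun x => by positivity
  refine ⟨(2 + c) * 2 + K * J, fun s y a b hs hy hy1 ha ha' hb hb' => ?_⟩
  have hab : a ≤ b := by linarith
  have hsy : 0 < √y := Real.sqrt_pos.2 hy
  have hsy1 : √y ≤ 1 := Real.sqrt_le_one.2 hy1
  have hE : Real.exp (s * y) ≤ Real.exp (s * y) / √y :=
    le_div_self (Real.exp_pos _).le hsy hsy1
  have he : Continuous fun x : ℝ => cexp (s * (y - x * I)) := by fun_prop
  have hi : Integrable fun x : ℝ => ft c (y - x * I) * cexp (s * (y - x * I)) :=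
    (integrable_ft hc hy).mul_bdd he.aestronglyMeasurable
      (Filter.Eventually.of_forall fun x => (LapI_nexp s y x).le)
  have hg : Continuous fun x : ℝ =>
      (y - x * I : ℂ).sqrt * (1 + c / (y - x * I)) * cexp (s * (y - x * I)) :=
    ((LapI_sqrt hy).mul (continuous_const.add (LapI_div hy))).mul he
  have h1 : (∫ x in a..b, fz c (y - x * I) * cexp (s * (y - x * I))) =
      (∫ x in a..b, ft c (y - x * I) * cexp (s * (y - x * I))) +
      ∫ x in a..b, (y - x * I : ℂ).sqrt * (1 + c / (y - x * I)) * cexp (s * (y - x * I)) := by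
    rw [← intervalIntegral.integral_add hi.intervalIntegrable (hg.intervalIntegrable _ _)]
    congr 1
    funext x
    simp only [fz, ft]
    ring
  have h2 : ‖∫ x in a..b, (y - x * I : ℂ).sqrt * (1 + c / (y - x * I)) * cexp (s * (y - x * I))‖ ≤
      (2 + c) * (Real.exp (s * y) / √y) * |b - a| := by
    refine intervalIntegral.norm_integral_le_of_norm_le_const fun x hx => ?_
    rw [Set.uIoc_of_le hab] at hx
    have hx1 : |x| ≤ 1 := abs_le.2 ⟨by linarith [hx.1], by linarith [hx.2]⟩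
    have hz : ‖(y - x * I : ℂ)‖ ≤ 4 := by
      refine (norm_sub_le _ _).trans ?_
      simp only [norm_real, Real.norm_eq_abs, Complex.norm_mul, norm_I, mul_one]
      rw [abs_of_pos hy]
      linarith
    have hz0 : 0 < ‖(y - x * I : ℂ)‖ := hy.trans_le (LapI_re y x)
    have h3 : √‖(y - x * I : ℂ)‖ ≤ 2 := Real.sqrt_le_iff.2 ⟨by norm_num, by linarith⟩
    have h4 : √y ≤ √‖(y - x * I : ℂ)‖ := Real.sqrt_le_sqrt (LapI_re y x)
    have h5 : ‖(y - x * I : ℂ).sqrt * (1 + c / (y - x * I))‖ ≤ (2 + c) / √y := by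
      rw [mul_add, mul_one]
      refine (norm_add_le _ _).trans ?_
      rw [Complex.norm_mul, norm_div, LapI_nsqrt, norm_real, Real.norm_of_nonneg hc.le, add_div,
        ← mul_div_assoc, mul_comm _ c, mul_div_assoc, Real.sqrt_div_self', mul_one_div]
      refine add_le_add (h3.trans (le_div_self (by norm_num) hsy hsy1)) ?_
      exact div_le_div_of_nonneg_left hc.le hsy h4
    rw [Complex.norm_mul, LapI_nexp]
    calc _ ≤ (2 + c) / √y * Real.exp (s * y) := by gcongr
      _ = _ := by ring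
  have h3 : ‖∫ x in (Set.Ioc a b)ᶜ, ft c (y - x * I) * cexp (s * (y - x * I))‖ ≤
      K * J * Real.exp (s * y) := by
    have hb0 := LapI_int.const_mul (K * Real.exp (s * y))
    refine (norm_integral_le_of_norm_le hb0.integrableOn ?_).trans ?_
    · refine (ae_restrict_iff' measurableSet_Ioc.compl).2 (Filter.Eventually.of_forall fun x hx => ?_)
      have hx4 : 1 / 4 ≤ |x| := by
        by_contra h4
        have h5 := abs_lt.1 (not_le.1 h4)
        exact hx ⟨by linarith [h5.1], by linarith [h5.2]⟩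
      have h5 := LapI_bd hc (by norm_num : (0 : ℝ) < 1 / 4) (hx4.trans (LapI_im y x)) (LapI_im y x)
      rw [← hK] at h5
      rw [Complex.norm_mul, LapI_nexp]
      calc _ ≤ K * (1 + ‖x‖) ^ (-(3 / 2) : ℝ) * Real.exp (s * y) := by gcongr
        _ = _ := by ring
    · refine (setIntegral_le_integral hb0
        (Filter.Eventually.of_forall fun x => by positivity)).trans ?_
      rw [integral_const_mul, ← hJ]
      exact le_of_eq (by ring)
  rw [h1, ← lap_inv hc hs hy, ← integral_add_compl (measurableSet_Ioc (a := a) (b := b)) hi,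
    intervalIntegral.integral_of_le hab, add_sub_add_left_eq_sub]
  refine (norm_sub_le _ _).trans ?_
  have h4 : |b - a| ≤ 2 := abs_le.2 ⟨by linarith, by linarith⟩
  have h5 : (2 + c) * (Real.exp (s * y) / √y) * |b - a| ≤ (2 + c) * (Real.exp (s * y) / √y) * 2 := by
    gcongr
  have h6 : K * J * Real.exp (s * y) ≤ K * J * (Real.exp (s * y) / √y) := by gcongr
  linarith

end Pool.Agent.PPow
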