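import Pool.Agent.P.MP_54dcdd_nt.Coef
import Pool.Agent.P.MP_54dcdd_nt.EtaA
import Pool.Agent.P.MP_54dcdd_nt.LapI

/-! The two-term Hardy-Ramanujan formula. -/

open Complex MeasureTheory
open scoped Real

noncomputable section

namespace Pool.Agent.PPow

theorem Asym_sq {x : ℝ} (hx : 1 ≤ x) : mu x ^ 2 = 2 * π ^ 2 * (x - 1 / 24) / 3 := by
  rw [mu, mul_pow, Real.sq_sqrt (by linarith)]
  ring

theorem Asym_nonneg (x : ℝ) : 0 ≤ mu x := by
  unfold mu
  positivity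

theorem Asym_ge {x b : ℝ} (hx : 1 ≤ x) (hb : b ^ 2 ≤ x) : b ≤ mu x := by
  refine le_trans (le_abs_self b) (abs_le_of_sq_le_sq' ?_ (Asym_nonneg x) |> fun h => abs_le.2 h)
  rw [Asym_sq hx]
  have h1 : 9 ≤ π ^ 2 := by nlinarith [Real.pi_gt_three]
  nlinarith

theorem Asym_sqrt {a b : ℝ} (hb : 0 ≤ b) (h : a = b ^ 2) : √a = b := by
  rw [h, Real.sqrt_sq hb]

theorem Asym_al₁ {x : ℝ} (hx : 1 ≤ x) : 2 * π * al (π / 12) (2 * π * (x - 1 / 24)) =
    π ^ 2 / (6 * √3) / mu x * (2 * Real.sinh (mu x) / mu x -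
      2 * (Real.cosh (mu x) - 1) / mu x ^ 2 - 1) := by
  have h0 := Asym_nonneg x
  have h1 : √(π / 12 * (2 * π * (x - 1 / 24))) = mu x / 2 :=
    Asym_sqrt (by positivity) (by rw [div_pow, Asym_sq hx]; ring)
  have h2 : √(π * (2 * π * (x - 1 / 24))) = √3 * mu x :=
    Asym_sqrt (by positivity) (by rw [mul_pow, Asym_sq hx, Real.sq_sqrt (by norm_num)]; ring)
  rw [al, h1, h2, show 2 * (mu x / 2) = mu x by ring]
  ring

theorem Asym_al₂ {x : ℝ} (hx : 1 ≤ x) : 2 * π * al (π / 48) (2 * π * (x - 1 / 24)) =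
    π ^ 2 / (6 * √3) / (4 * mu x) * (2 * Real.sinh (mu x / 2) / (mu x / 2) -
      2 * (Real.cosh (mu x / 2) - 1) / (mu x / 2) ^ 2 - 1) := by
  have h0 := Asym_nonneg x
  have h1 : √(π / 48 * (2 * π * (x - 1 / 24))) = mu x / 4 :=
    Asym_sqrt (by positivity) (by rw [div_pow, Asym_sq hx]; ring)
  have h2 : √(π * (2 * π * (x - 1 / 24))) = √3 * mu x :=
    Asym_sqrt (by positivity) (by rw [mul_pow, Asym_sq hx, Real.sq_sqrt (by norm_num)]; ring)
  rw [al, h1, h2, show 2 * (mu x / 4) = mu x / 2 by ring]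
  ring

theorem Asym_diff (s : ℝ) {m : ℝ} (hm : 0 < m) :
    π ^ 2 / (6 * √3) / m * (2 * Real.sinh m / m - 2 * (Real.cosh m - 1) / m ^ 2 - 1) +
      s * √2 * (π ^ 2 / (6 * √3) / (4 * m) * (2 * Real.sinh (m / 2) / (m / 2) -
        2 * (Real.cosh (m / 2) - 1) / (m / 2) ^ 2 - 1)) - Gm s m =
    π ^ 2 / (6 * √3) * (m⁻¹ * (-(Real.exp (-(m / 2)) ^ 2 * m⁻¹) -
        Real.exp (-(m / 2)) ^ 2 * m⁻¹ ^ 2 + 2 * m⁻¹ ^ 2 - 1) +
      s * √2 * (m⁻¹ * (-(2 * Real.exp (-(m / 2)) * m⁻¹) - 4 * Real.exp (-(m / 2)) * m⁻¹ ^ 2 +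
        8 * m⁻¹ ^ 2 - 1) / 4)) := by
  have h1 : Real.exp m = Real.exp (m / 2) ^ 2 := by
    rw [← Real.exp_nat_mul]; congr 1; push_cast; ring
  have h2 : Real.exp (-m) = (Real.exp (m / 2))⁻¹ ^ 2 := by rw [Real.exp_neg, h1, inv_pow]
  have h3 : (√2 : ℝ)⁻¹ = √2 / 2 := by
    have : (√2 : ℝ) * √2 = 2 := Real.mul_self_sqrt (by norm_num)
    have h : (√2 : ℝ) ≠ 0 := by positivity
    field_simp
    nlinarith
  have h4 := Real.exp_pos (m / 2)
  rw [Gm, Real.sinh_eq, Real.cosh_eq, Real.sinh_eq, Real.cosh_eq, h2, h1, Real.exp_neg,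
    div_eq_mul_inv _ (√2 : ℝ), h3]
  generalize Real.exp (m / 2) = E at h4
  generalize π ^ 2 = P
  have h5 : (√3 : ℝ) ≠ 0 := by positivity
  generalize (√3 : ℝ) = r at h5
  generalize (√2 : ℝ) = t
  field_simp
  ring

theorem Asym_bd {u E s t : ℝ} (hu : 0 ≤ u) (hu1 : u ≤ 1) (hE : 0 ≤ E) (hE1 : E ≤ 1)
    (hs : |s| ≤ 1) (ht : 0 ≤ t) (ht2 : t ≤ 2) :
    |u * (-(E ^ 2 * u) - E ^ 2 * u ^ 2 + 2 * u ^ 2 - 1) +
      s * t * (u * (-(2 * E * u) - 4 * E * u ^ 2 + 8 * u ^ 2 - 1) / 4)| ≤ 13 := by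
  have hE2 : E ^ 2 ≤ 1 := pow_le_one₀ hE hE1
  have hu2 : u ^ 2 ≤ 1 := pow_le_one₀ hu hu1
  have a1 : 0 ≤ E ^ 2 * u := by positivity
  have a2 : E ^ 2 * u ≤ 1 := mul_le_one₀ hE2 hu hu1
  have a3 : 0 ≤ E ^ 2 * u ^ 2 := by positivity
  have a4 : E ^ 2 * u ^ 2 ≤ 1 := mul_le_one₀ hE2 (by positivity) hu2
  have a5 : 0 ≤ E * u := by positivity
  have a6 : E * u ≤ 1 := mul_le_one₀ hE1 hu hu1
  have a7 : 0 ≤ E * u ^ 2 := by positivity
  have a8 : E * u ^ 2 ≤ 1 := mul_le_one₀ hE1 (by positivity) hu2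
  have a9 : 0 ≤ u ^ 2 := by positivity
  have b1 : |(-(E ^ 2 * u) - E ^ 2 * u ^ 2 + 2 * u ^ 2 - 1)| ≤ 5 :=
    abs_le.2 ⟨by linarith, by linarith⟩
  have b2 : |(-(2 * E * u) - 4 * E * u ^ 2 + 8 * u ^ 2 - 1)| ≤ 16 :=
    abs_le.2 ⟨by linarith, by linarith⟩
  generalize -(E ^ 2 * u) - E ^ 2 * u ^ 2 + 2 * u ^ 2 - 1 = A at b1 ⊢
  generalize -(2 * E * u) - 4 * E * u ^ 2 + 8 * u ^ 2 - 1 = B at b2 ⊢
  have c1 : |u * A| ≤ 5 := by
    rw [abs_mul, abs_of_nonneg hu]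
    nlinarith [abs_nonneg A]
  have c2 : |u * B / 4| ≤ 4 := by
    rw [abs_div, abs_mul, abs_of_nonneg hu, abs_of_pos (by norm_num : (0 : ℝ) < 4)]
    nlinarith [abs_nonneg B]
  have c3 : |s * t| ≤ 2 := by
    rw [abs_mul, abs_of_nonneg ht]
    nlinarith [abs_nonneg s]
  have c4 : |s * t * (u * B / 4)| ≤ 8 := by
    rw [abs_mul]
    nlinarith [abs_nonneg (s * t), abs_nonneg (u * B / 4)]
  linarith [abs_add_le (u * A) (s * t * (u * B / 4))]

theorem Asym_sqrt_two : (√2 : ℝ) ≤ 2 := Real.sqrt_le_iff.2 ⟨by norm_num, by norm_num⟩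

theorem al_main : ∃ C : ℝ, ∀ (s : ℝ) (n : ℕ), |s| ≤ 1 → 1 ≤ n →
    |2 * π * al (π / 12) (2 * π * (n - 1 / 24)) +
        s * √2 * (2 * π * al (π / 48) (2 * π * (n - 1 / 24))) - Gm s (mu n)| ≤ C := by
  refine ⟨π ^ 2 / (6 * √3) * 13, fun s n hs hn => ?_⟩
  have hx : (1 : ℝ) ≤ n := by exact_mod_cast hn
  have hm : 1 ≤ mu n := Asym_ge hx (by simpa using hx)
  have hm0 : 0 < mu n := by linarith
  have hc : 0 ≤ π ^ 2 / (6 * √3) := by positivity
  rw [Asym_al₁ hx, Asym_al₂ hx, Asym_diff s hm0, abs_mul, abs_of_nonneg hc]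
  refine mul_le_mul_of_nonneg_left ?_ hc
  exact Asym_bd (inv_nonneg.2 hm0.le) (inv_le_one_of_one_le₀ hm) (Real.exp_pos _).le
    (Real.exp_le_one_iff.2 (by linarith)) hs (Real.sqrt_nonneg _) Asym_sqrt_two

theorem Asym_cont (c : ℝ) {y : ℝ} (hy : 0 < y) : Continuous fun x : ℝ => fz c (y - x * I) := by
  have h1 : Continuous fun x : ℝ => (y - x * I : ℂ).sqrt := by
    refine continuous_iff_continuousAt.2 fun x => ?_
    refine ContinuousAt.comp (g := Complex.sqrt) (f := fun x : ℝ => (y - x * I : ℂ))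
      (continuousAt_sqrt (Or.inl ?_)) (by fun_prop)
    simpa using hy.le
  have h2 : Continuous fun x : ℝ => (c : ℂ) / (y - x * I) := by
    refine continuous_const.div (by fun_prop) fun x h => ?_
    have := congrArg Complex.re h
    simp at this
    exact hy.ne' this
  exact h1.mul h2.cexp

theorem Asym_phase (n : ℕ) (x y : ℝ) :
    cexp (-(π * I / 24)) * cexp ((2 * π * (n - 1 / 24) : ℝ) * (y - x * I)) =
      (-1) ^ n * cexp ((2 * π * (n - 1 / 24) : ℝ) * (y - (x - 1 / 2 : ℝ) * I)) := by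
  rw [← exp_neg_pi_mul_I, ← Complex.exp_nat_mul, ← Complex.exp_add, ← Complex.exp_add]
  congr 1
  push_cast
  ring

theorem Asym_int {f g h e : ℝ → ℂ} (hf : Continuous f) (hg : Continuous g) (hh : Continuous h)
    (he : Continuous e) {a b : ℝ} :
    ∫ x in a..b, f x * e x = (∫ x in a..b, (f x - g x - h x) * e x) + (∫ x in a..b, g x * e x) +
      ∫ x in a..b, h x * e x := by
  have i1 : IntervalIntegrable (fun x => (f x - g x - h x) * e x) volume a b :=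
    Continuous.intervalIntegrable (by fun_prop) _ _
  have i2 : IntervalIntegrable (fun x => g x * e x) volume a b :=
    Continuous.intervalIntegrable (by fun_prop) _ _
  have i3 : IntervalIntegrable (fun x => h x * e x) volume a b :=
    Continuous.intervalIntegrable (by fun_prop) _ _
  rw [← intervalIntegral.integral_add i1 i2, ← intervalIntegral.integral_add (i1.add i2) i3]
  refine intervalIntegral.integral_congr fun x _ => ?_
  ring

/-- the splitting of the integral for the partition number -/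
theorem Asym_split (n : ℕ) {y : ℝ} (hy : 0 < y) :
    (pn n : ℂ) = (∫ x in (-(1 / 4) : ℝ)..(3 / 4 : ℝ),
        ((ModularForm.eta (x + y * I))⁻¹ - fz (π / 12) (y - x * I) -
          cexp (-(π * I / 24)) * (√2 : ℝ) * fz (π / 48) (y - (x - 1 / 2 : ℝ) * I)) *
          cexp ((2 * π * (n - 1 / 24) : ℝ) * (y - x * I))) +
      (∫ x in (-(1 / 4) : ℝ)..(3 / 4 : ℝ),
        fz (π / 12) (y - x * I) * cexp ((2 * π * (n - 1 / 24) : ℝ) * (y - x * I))) +
      (-1) ^ n * (√2 : ℝ) * ∫ x in (-(3 / 4) : ℝ)..(1 / 4 : ℝ),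
        fz (π / 48) (y - x * I) * cexp ((2 * π * (n - 1 / 24) : ℝ) * (y - x * I)) := by
  have he : Continuous fun x : ℝ => cexp ((2 * π * (n - 1 / 24) : ℝ) * (y - x * I)) := by
    fun_prop
  have h0 := continuous_inv_eta hy
  have h1 := Asym_cont (π / 12) hy
  have h2 : Continuous fun x : ℝ => fz (π / 48) (y - (x - 1 / 2 : ℝ) * I) :=
    (Asym_cont (π / 48) hy).comp (continuous_id.sub continuous_const)
  have h3 : Continuous fun x : ℝ =>
      cexp (-(π * I / 24)) * (√2 : ℝ) * fz (π / 48) (y - (x - 1 / 2 : ℝ) * I) :=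
    continuous_const.mul h2
  have e1 : (-1) ^ n * (√2 : ℝ) * (∫ x in (-(3 / 4) : ℝ)..(1 / 4 : ℝ),
        fz (π / 48) (y - x * I) * cexp ((2 * π * (n - 1 / 24) : ℝ) * (y - x * I))) =
      ∫ x in (-(1 / 4) : ℝ)..(3 / 4 : ℝ),
        cexp (-(π * I / 24)) * (√2 : ℝ) * fz (π / 48) (y - (x - 1 / 2 : ℝ) * I) *
          cexp ((2 * π * (n - 1 / 24) : ℝ) * (y - x * I)) := by
    have := intervalIntegral.integral_comp_sub_right (a := -(1 / 4)) (b := 3 / 4)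
      (fun x : ℝ => fz (π / 48) (y - x * I) * cexp ((2 * π * (n - 1 / 24) : ℝ) * (y - x * I)))
      (1 / 2)
    rw [show (-(1 / 4) - 1 / 2 : ℝ) = -(3 / 4) by norm_num,
      show (3 / 4 - 1 / 2 : ℝ) = 1 / 4 by norm_num] at this
    rw [← this, ← intervalIntegral.integral_const_mul]
    refine intervalIntegral.integral_congr fun x _ => ?_
    have h := Asym_phase n x y
    linear_combination (-((√2 : ℝ) : ℂ) * fz (π / 48) (y - (x - 1 / 2 : ℝ) * I)) * h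
  rw [e1, ← Asym_int h0 h1 h3 he, pn_eq_integral n hy (-(1 / 4)),
    show (-(1 / 4) + 1 : ℝ) = 3 / 4 by norm_num]
  refine intervalIntegral.integral_congr fun x _ => ?_
  have h : (2 * π * (n - 1 / 24) : ℂ) = (2 * π * (n - 1 / 24) : ℝ) := by push_cast; ring
  simp only [h]

theorem pn_asymp : ∃ (C : ℝ) (n₀ : ℕ), ∀ n : ℕ, n₀ ≤ n →
    |(pn n : ℝ) - Gm ((-1) ^ n) (mu n)| ≤ C * Real.exp (mu n / 3) := by
  obtain ⟨C₀, hC₀⟩ := eta_approx
  obtain ⟨C₁, hC₁⟩ := seg_lap (c := π / 12) (by positivity)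
  obtain ⟨C₂, hC₂⟩ := seg_lap (c := π / 48) (by positivity)
  obtain ⟨C₃, hC₃⟩ := al_main
  refine ⟨|C₀| + |C₁| * 36 + 2 * (|C₂| * 36) + |C₃|, 400, fun n hn => ?_⟩
  have hx : (400 : ℝ) ≤ n := by exact_mod_cast hn
  have hx1 : (1 : ℝ) ≤ n := by linarith
  have hm : 20 ≤ mu n := Asym_ge hx1 (by linarith)
  have hsq := Asym_sq hx1
  have hpi := Real.pi_gt_three
  have hpi' := Real.pi_lt_d2
  have hs1 : |((-1 : ℝ)) ^ n| ≤ 1 := by rw [abs_pow, abs_neg, abs_one, one_pow]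
  have h3 := hC₃ ((-1) ^ n) n hs1 (by omega)
  have hsp := Asym_split n (y := π / (18 * mu n)) (by positivity)
  generalize mu n = m at hm hsq h3 hsp ⊢
  have hm0 : 0 < m := by linarith
  have hS : 0 < 2 * π * ((n : ℝ) - 1 / 24) := mul_pos (by positivity) (by linarith)
  have hy0 : 0 < π / (18 * m) := by positivity
  have hy1 : π / (18 * m) ≤ 1 / 100 := by
    rw [div_le_div_iff₀ (by positivity) (by norm_num)]
    linarith
  have hSy : 2 * π * ((n : ℝ) - 1 / 24) * (π / (18 * m)) = m / 6 := by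
    field_simp
    linarith
  have hpy : π / (108 * (π / (18 * m))) = m / 6 := by
    field_simp
    norm_num
  have hinv : (π / (18 * m))⁻¹ ≤ 6 * m := by
    rw [inv_div, div_le_iff₀ (by positivity)]
    nlinarith
  generalize 2 * π * ((n : ℝ) - 1 / 24) = S at hS hSy h3 hsp
  generalize π / (18 * m) = y at hy0 hy1 hSy hpy hinv hsp
  have hE : Real.exp (m / 3) = Real.exp (m / 6) * Real.exp (m / 6) := by
    rw [← Real.exp_add]; congr 1; ring
  have hE0 := Real.exp_pos (m / 6)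
  have hE1 : 1 ≤ Real.exp (m / 3) := Real.one_le_exp (by positivity)
  have hq : Real.exp (S * y) / √y ≤ 36 * Real.exp (m / 3) := by
    have a1 : y ≤ √y := by
      rw [Real.le_sqrt hy0.le hy0.le]
      nlinarith
    have a2 : m / 6 + 1 ≤ Real.exp (m / 6) := Real.add_one_le_exp _
    have a3 : (√y)⁻¹ ≤ 36 * Real.exp (m / 6) := by
      have := inv_anti₀ hy0 a1
      linarith
    rw [hSy, hE, div_eq_mul_inv]
    nlinarith
  have hq0 : 0 ≤ Real.exp (S * y) / √y := by positivity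
  have k1 := hC₁ S y (-(1 / 4)) (3 / 4) hS hy0 (by linarith) (by norm_num) le_rfl (by norm_num)
    (by norm_num)
  have k2 := hC₂ S y (-(3 / 4)) (1 / 4) hS hy0 (by linarith) (by norm_num) (by norm_num) le_rfl
    (by norm_num)
  have k1' : C₁ * (Real.exp (S * y) / √y) ≤ |C₁| * (36 * Real.exp (m / 3)) :=
    mul_le_mul (le_abs_self _) hq hq0 (abs_nonneg _)
  have k2' : C₂ * (Real.exp (S * y) / √y) ≤ |C₂| * (36 * Real.exp (m / 3)) :=
    mul_le_mul (le_abs_self _) hq hq0 (abs_nonneg _)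
  have k0 : ‖∫ x in (-(1 / 4) : ℝ)..(3 / 4 : ℝ),
        ((ModularForm.eta (x + y * I))⁻¹ - fz (π / 12) (y - x * I) -
          cexp (-(π * I / 24)) * (√2 : ℝ) * fz (π / 48) (y - (x - 1 / 2 : ℝ) * I)) *
          cexp (S * (y - x * I))‖ ≤ |C₀| * Real.exp (m / 3) * |(3 / 4 : ℝ) - -(1 / 4)| := by
    refine intervalIntegral.norm_integral_le_of_norm_le_const fun x hx => ?_
    rw [Set.uIoc_of_le (by norm_num)] at hx
    have b1 := hC₀ x y hy0 hy1 hx.1.le hx.2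
    have b2 : ‖cexp (S * (y - x * I))‖ = Real.exp (m / 6) := by
      rw [Complex.norm_exp, ← hSy]
      simp
    rw [hpy] at b1
    rw [norm_mul, b2, hE, ← mul_assoc]
    exact mul_le_mul_of_nonneg_right
      (b1.trans (mul_le_mul_of_nonneg_right (le_abs_self _) hE0.le)) hE0.le
  rw [show |(3 / 4 : ℝ) - -(1 / 4)| = 1 by norm_num, mul_one] at k0
  generalize (∫ x in (-(1 / 4) : ℝ)..(3 / 4 : ℝ),
    ((ModularForm.eta (x + y * I))⁻¹ - fz (π / 12) (y - x * I) -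
      cexp (-(π * I / 24)) * (√2 : ℝ) * fz (π / 48) (y - (x - 1 / 2 : ℝ) * I)) *
      cexp (S * (y - x * I))) = I₀ at k0 hsp
  generalize (∫ x in (-(1 / 4) : ℝ)..(3 / 4 : ℝ),
    fz (π / 12) (y - x * I) * cexp (S * (y - x * I))) = I₁ at k1 hsp
  generalize (∫ x in (-(3 / 4) : ℝ)..(1 / 4 : ℝ),
    fz (π / 48) (y - x * I) * cexp (S * (y - x * I))) = I₂ at k2 hsp
  have e : (((pn n : ℝ) - (2 * π * al (π / 12) S +
      (-1) ^ n * √2 * (2 * π * al (π / 48) S)) : ℝ) : ℂ) =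
      I₀ + (I₁ - 2 * π * al (π / 12) S) +
        (-1) ^ n * (√2 : ℝ) * (I₂ - 2 * π * al (π / 48) S) := by
    push_cast
    rw [hsp]
    ring
  have k3 : ‖(-1 : ℂ) ^ n * (√2 : ℝ) * (I₂ - 2 * π * al (π / 48) S)‖ ≤
      2 * (|C₂| * (36 * Real.exp (m / 3))) := by
    rw [norm_mul, norm_mul, norm_pow, norm_neg, norm_one, one_pow, one_mul, Complex.norm_real,
      Real.norm_of_nonneg (Real.sqrt_nonneg _)]
    exact mul_le_mul Asym_sqrt_two (k2.trans k2') (norm_nonneg _) (by norm_num)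
  have k4 : |(pn n : ℝ) - (2 * π * al (π / 12) S + (-1) ^ n * √2 * (2 * π * al (π / 48) S))| ≤
      |C₀| * Real.exp (m / 3) + |C₁| * (36 * Real.exp (m / 3)) +
        2 * (|C₂| * (36 * Real.exp (m / 3))) := by
    rw [← Real.norm_eq_abs, ← Complex.norm_real, e]
    exact norm_add₃_le.trans (add_le_add (add_le_add k0 (k1.trans k1')) k3)
  have k5 : C₃ ≤ |C₃| * Real.exp (m / 3) :=
    (le_abs_self _).trans (le_mul_of_one_le_right (abs_nonneg _) hE1)
  have k6 := abs_sub_le (pn n : ℝ)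
    (2 * π * al (π / 12) S + (-1) ^ n * √2 * (2 * π * al (π / 48) S)) (Gm ((-1) ^ n) m)
  linarith

end Pool.Agent.PPow
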