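import Pool.Agent.P.MP_54dcdd_nt.Zero

/-! A quantitative zero estimate for sums `∑ P j * exp (j ℓ)`, analytic part. -/

open Finset PowerSeries Metric Filter Topology
open scoped Nat

noncomputable section

namespace Pool.Agent.PPow

/-- the Taylor series at the origin -/
def Tay (f : ℂ → ℂ) : ℂ⟦X⟧ := PowerSeries.mk fun n => iteratedDeriv n f 0 / n !

variable {f g : ℂ → ℂ}

theorem Tay_congr (h : f =ᶠ[𝓝 0] g) : Tay f = Tay g := by
  ext n
  simp only [Tay, coeff_mk, h.iteratedDeriv_eq n]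

theorem Tay_mul (hf : AnalyticAt ℂ f 0) (hg : AnalyticAt ℂ g 0) :
    Tay (fun z => f z * g z) = Tay f * Tay g := by
  ext n
  simp only [Tay, coeff_mk, coeff_mul]
  rw [iteratedDeriv_fun_mul hf.contDiffAt hg.contDiffAt,
    Finset.Nat.sum_antidiagonal_eq_sum_range_succ
      (fun i j => iteratedDeriv i f 0 / i ! * (iteratedDeriv j g 0 / j !)), sum_div]
  refine sum_congr rfl fun i hi => ?_
  rw [Nat.cast_choose ℂ (Nat.lt_succ_iff.1 (mem_range.1 hi))]
  have : (n ! : ℂ) ≠ 0 := by exact_mod_cast n.factorial_ne_zero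
  have : (i ! : ℂ) ≠ 0 := by exact_mod_cast i.factorial_ne_zero
  have : ((n - i)! : ℂ) ≠ 0 := by exact_mod_cast (n - i).factorial_ne_zero
  field_simp

theorem Tay_sum {ι : Type} (s : Finset ι) {F : ι → ℂ → ℂ} (hF : ∀ i, AnalyticAt ℂ (F i) 0) :
    Tay (fun z => ∑ i ∈ s, F i z) = ∑ i ∈ s, Tay (F i) := by
  ext n
  simp only [Tay, coeff_mk, map_sum]
  rw [iteratedDeriv_fun_sum fun i _ => (hF i).contDiffAt, sum_div]

theorem Tay_add (hf : AnalyticAt ℂ f 0) (hg : AnalyticAt ℂ g 0) :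
    Tay (fun z => f z + g z) = Tay f + Tay g := by
  ext n
  simp only [Tay, coeff_mk, map_add]
  rw [iteratedDeriv_fun_add hf.contDiffAt hg.contDiffAt, add_div]

theorem Tay_deriv : Tay (deriv f) = d⁄dX ℂ (Tay f) := by
  ext n
  simp only [Tay, coeff_mk, coeff_derivative, iteratedDeriv_succ', Nat.factorial_succ]
  have : (n ! : ℂ) ≠ 0 := by exact_mod_cast n.factorial_ne_zero
  have : (n : ℂ) + 1 ≠ 0 := by exact_mod_cast n.succ_ne_zero
  push_cast
  field_simp

theorem Tay_const (c : ℂ) : Tay (fun _ => c) = C c := by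
  ext n
  simp only [Tay, coeff_mk, iteratedDeriv_const, coeff_C]
  split_ifs with h <;> simp [h]

theorem Tay_poly (P : Polynomial ℂ) : Tay (fun z => P.eval z) = P := by
  ext n
  induction n generalizing P with
  | zero => simp [Tay, Polynomial.coeff_zero_eq_eval_zero]
  | succ n ih =>
    have h := congrArg (coeff n) (Tay_deriv (f := fun z => P.eval z))
    have e : (deriv fun z => P.eval z) = fun z => P.derivative.eval z := funext fun z => P.deriv
    rw [e, ih, coeff_derivative, Polynomial.coeff_coe, Polynomial.coeff_derivative] at h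
    rw [Polynomial.coeff_coe]
    exact (mul_right_cancel₀ (by exact_mod_cast n.succ_ne_zero) h).symm

theorem Tay_bound {ρ R K : ℝ} (hρ : 0 < ρ) (hR : ρ < R) (hf : DifferentiableOn ℂ f (ball 0 R))
    (hK : ∀ z ∈ sphere (0 : ℂ) ρ, ‖f z‖ ≤ K) (n : ℕ) : ‖coeff n (Tay f)‖ ≤ K / ρ ^ n := by
  have := Complex.norm_iteratedDeriv_le_of_forall_mem_sphere_norm_le n hρ
    (hf.diffContOnCl_ball (closedBall_subset_ball hR)) hK
  rw [Tay, coeff_mk, norm_div, Complex.norm_natCast, div_le_iff₀ (by positivity)]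
  refine this.trans_eq (by ring)

theorem nrm_Tay_half {r M R K : ℝ} (hr : 0 < r) (hM : 1 ≤ M) (hR : 2 * r * M < R)
    (hf : DifferentiableOn ℂ f (ball 0 R)) (hK : ∀ z ∈ sphere (0 : ℂ) (2 * r * M), ‖f z‖ ≤ K)
    (hK₀ : 0 ≤ K) (n : ℕ) : nrm r M 0 n (Tay f) ≤ 2 * K := by
  calc _ ≤ ∑ i ∈ range (n + 1), (1 / 2) ^ i * K := sum_le_sum fun i _ => by
        refine (mul_le_mul_of_nonneg_left (Tay_bound (by positivity) hR hf hK i)
          (by positivity)).trans_eq ?_
        rw [tsub_zero, mul_pow, mul_pow, one_div, inv_pow]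
        field_simp
    _ ≤ _ := by
        rw [← sum_mul]
        exact mul_le_mul_of_nonneg_right (sum_geometric_two_le _) hK₀

theorem nrm_Tay {r ρ R K : ℝ} (hρ : 0 < ρ) (hr : ρ ≤ r) (hR : ρ < R)
    (hf : DifferentiableOn ℂ f (ball 0 R)) (hK : ∀ z ∈ sphere (0 : ℂ) ρ, ‖f z‖ ≤ K)
    (hK₀ : 0 ≤ K) (n : ℕ) : nrm r 1 0 n (Tay f) ≤ (n + 1) * ((r / ρ) ^ n * K) := by
  have h0 : 0 < r := hρ.trans_le hr
  refine (sum_le_card_nsmul _ _ ((r / ρ) ^ n * K) fun i hi => ?_).trans (by simp)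
  refine (mul_le_mul_of_nonneg_left (Tay_bound hρ hR hf hK i) (by positivity)).trans ?_
  calc _ = (r / ρ) ^ i * K := by rw [div_pow]; field_simp; simp
    _ ≤ _ := mul_le_mul_of_nonneg_right (pow_le_pow_right₀ ((one_le_div hρ).2 hr)
        (Nat.lt_succ_iff.1 (mem_range.1 hi))) hK₀

theorem norm_eval_le {P : Polynomial ℂ} {T : ℕ} (hP : P.natDegree ≤ T) {r : ℝ} {z : ℂ}
    (hz : ‖z‖ ≤ r) : ‖P.eval z‖ ≤ nrm r 1 0 T P := by
  rw [Polynomial.eval_eq_sum_range' (Nat.lt_succ_of_le hP)]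
  refine (norm_sum_le _ _).trans (sum_le_sum fun i _ => ?_)
  rw [norm_mul, norm_pow, one_pow, mul_one, mul_comm, Polynomial.coeff_coe]
  gcongr

theorem eq_zero_of_nrm {P : Polynomial ℂ} {T : ℕ} (hP : P.natDegree ≤ T) {r : ℝ}
    (hr : 0 < r) (h : nrm r 1 0 T P ≤ 0) : P = 0 :=
  P.eq_zero_of_infinite_isRoot <| (infinite_of_mem_nhds (0 : ℂ) (ball_mem_nhds 0 hr)).mono
    fun _ hz => norm_le_zero_iff.1 ((norm_eval_le hP (mem_ball_zero_iff.1 hz).le).trans h)

/-- an analytic logarithm whose derivative is close to the constant `a` -/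
structure LG (ℓ : ℂ → ℂ) (a R : ℝ) : Prop where
  ha : 0 < a
  diff : DifferentiableOn ℂ ℓ (ball 0 R)
  zero : ℓ 0 = 0
  der : ∀ z ∈ ball (0 : ℂ) R, ‖deriv ℓ z - a‖ ≤ a / 8

variable {ℓ : ℂ → ℂ} {a R : ℝ}

theorem LG.norm_le (h : LG ℓ a R) {z : ℂ} (hz : z ∈ ball (0 : ℂ) R) : ‖ℓ z‖ ≤ 2 * a * ‖z‖ := by
  have := (convex_ball (0 : ℂ) R).norm_image_sub_le_of_norm_deriv_le (f := ℓ) (C := 2 * a)
    (fun w hw => h.diff.differentiableAt (isOpen_ball.mem_nhds hw))
    (fun w hw => by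
      have h₁ := norm_add_le (deriv ℓ w - a) a
      rw [sub_add_cancel, Complex.norm_real, Real.norm_of_nonneg h.ha.le] at h₁
      linarith [h.der w hw, h.ha])
    (mem_ball_self (pos_of_mem_ball hz)) hz
  simpa [h.zero] using this

theorem LG.norm_exp_le (h : LG ℓ a R) {z c : ℂ} (hz : z ∈ ball (0 : ℂ) R) {D ρ : ℝ}
    (hc : ‖c‖ ≤ D) (hρ : ‖z‖ ≤ ρ) : ‖Complex.exp (c * ℓ z)‖ ≤ Real.exp (D * (2 * a * ρ)) := by
  refine (Complex.norm_exp_le_exp_norm _).trans (Real.exp_le_exp.2 ?_)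
  rw [norm_mul]
  have := h.ha
  exact mul_le_mul hc ((h.norm_le hz).trans (by gcongr)) (norm_nonneg _) ((norm_nonneg _).trans hc)

theorem LG.diff_sum (h : LG ℓ a R) {D : ℕ} (P : Fin (D + 1) → Polynomial ℂ) :
    DifferentiableOn ℂ (fun z => ∑ j, (P j).eval z * Complex.exp (((j : ℕ) : ℤ) * ℓ z))
      (ball 0 R) :=
  DifferentiableOn.fun_sum fun j _ =>
    (P j).differentiableOn.mul (h.diff.const_mul _).cexp

/-- the constant of the zero estimate -/
def Qz (D : ℕ) : ℝ := 64 * D ^ 2 * Real.exp (16 * D)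

/-- The zero estimate. -/
theorem LG.zero_est (h : LG ℓ a R) {D N x : ℕ} (hD : 1 ≤ D) {T : Fin (D + 1) → ℕ}
    (hN : ∑ j, (x + T j) + 1 ≤ N) {M : ℝ} (hM : 1 ≤ M) (hR : 4 * (4 * N / a) * M ≤ R)
    (hx : Qz D ^ N ≤ M ^ x) {P : Fin (D + 1) → Polynomial ℂ} (hP : ∀ j, (P j).natDegree ≤ T j)
    {W ε : ℝ} (hW : 0 < W) (hWr : W ≤ 4 * N / a) (hε₀ : 0 ≤ ε)
    (hε : ∀ z ∈ sphere (0 : ℂ) W, ‖∑ j, (P j).eval z * Complex.exp (((j : ℕ) : ℤ) * ℓ z)‖ ≤ ε)
    (j : Fin (D + 1)) : nrm (4 * N / a) 1 0 (T j) (P j) ≤ (Qz D * (4 * N / a / W)) ^ N * ε := by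
  set r := 4 * N / a with hr_def
  have ha := h.ha
  have hN₁ : 1 ≤ N := by omega
  have hN₀ : (0 : ℝ) < N := by exact_mod_cast hN₁
  have hD' : (1 : ℝ) ≤ D := by exact_mod_cast hD
  have hr : 0 < r := by positivity
  have hrM : r ≤ r * M := le_mul_of_one_le_right hr.le hM
  have hR₀ : 0 < R := by linarith
  have h0 : ball (0 : ℂ) R ∈ 𝓝 (0 : ℂ) := ball_mem_nhds _ hR₀
  have ha' : (a : ℂ) ≠ 0 := by exact_mod_cast ha.ne'
  have hd' : DifferentiableOn ℂ (deriv ℓ) (ball 0 R) := h.diff.deriv isOpen_ball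
  have hψ : DifferentiableOn ℂ (fun z => (deriv ℓ z - a) / a) (ball 0 R) :=
    (hd'.sub_const _).div_const _
  have hΓ : ∀ c : ℤ, DifferentiableOn ℂ (fun z => Complex.exp (c * ℓ z)) (ball 0 R) :=
    fun c => (h.diff.const_mul _).cexp
  have hZ : ZH r M a D N (Tay (deriv ℓ)) (Tay fun z => (deriv ℓ z - a) / a) := by
    refine ⟨hr, hM, ha, hD, le_of_eq (by rw [hr_def]; field_simp), ?_, fun n => ?_⟩
    · rw [← Tay_const, ← map_one C, ← Tay_const, ← Tay_add analyticAt_const (hψ.analyticAt h0),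
        ← Tay_mul analyticAt_const (analyticAt_const.fun_add (hψ.analyticAt h0))]
      congr 1
      funext z
      field_simp
      ring
    · refine (nrm_Tay_half (K := 1 / 8) hr hM (by nlinarith) hψ (fun z hz => ?_) (by norm_num)
        n).trans (by norm_num)
      rw [norm_div, Complex.norm_real, Real.norm_of_nonneg ha.le, div_le_iff₀ ha]
      refine (h.der z (sphere_subset_closedBall.trans (closedBall_subset_ball (by nlinarith))
        hz)).trans_eq (by ring)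
  have h8 : (8 * D : ℝ) ≤ (8 * D) ^ N := le_self_pow₀ (by linarith) (by omega)
  have hQ : Qz D ^ N = (8 * D) ^ N * Real.exp (16 * D * N) * (8 * D) ^ N := by
    rw [mul_comm (16 * D : ℝ), Real.exp_nat_mul, ← mul_pow, ← mul_pow, Qz]
    congr 1
    ring
  have he : 1 ≤ Real.exp (16 * D * N) := Real.one_le_exp (by positivity)
  have key := hZ.zero hN (Γ := fun c => Tay fun z => Complex.exp (c * ℓ z))
    (by simpa using Tay_const 1)
    (fun c c' => by
      rw [← Tay_mul ((hΓ c).analyticAt h0) ((hΓ c').analyticAt h0)]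
      congr 1
      funext z
      rw [← Complex.exp_add]
      push_cast
      ring_nf)
    (fun c => by
      rw [← Tay_deriv, ← Tay_const, ← Tay_mul analyticAt_const (hd'.analyticAt h0),
        ← Tay_mul (analyticAt_const.fun_mul (hd'.analyticAt h0)) ((hΓ c).analyticAt h0)]
      refine Tay_congr ?_
      filter_upwards [h0] with z hz
      rw [((h.diff.differentiableAt (isOpen_ball.mem_nhds hz)).hasDerivAt.const_mul
        (c : ℂ)).cexp.deriv, mul_comm])
    (b := 2 * Real.exp (16 * D * N)) (by linarith)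
    (fun c hc n => nrm_Tay_half hr le_rfl (by linarith) (hΓ c) (fun z hz => by
      refine (h.norm_exp_le (D := D) (sphere_subset_closedBall.trans
        (closedBall_subset_ball (by linarith)) hz) ?_ (mem_sphere_zero_iff_norm.1 hz).le).trans_eq ?_
      · rw [Complex.norm_intCast]; exact_mod_cast hc
      · congr 1
        rw [hr_def]
        field_simp
        ring) (by positivity) n)
    (le_trans (by
      rw [hQ]
      gcongr ?_ * _
      nlinarith) hx)
    (A := fun j => P j) (fun j i hi => by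
      rw [Polynomial.coeff_coe, Polynomial.coeff_eq_zero_of_natDegree_lt ((hP j).trans_lt hi)]) j
  refine key.trans ?_
  have e : (∑ j, (P j : ℂ⟦X⟧) * Tay fun z => Complex.exp (((j : ℕ) : ℤ) * ℓ z)) =
      Tay fun z => ∑ j, (P j).eval z * Complex.exp (((j : ℕ) : ℤ) * ℓ z) := by
    have hp : ∀ j, AnalyticAt ℂ (fun z => (P j).eval z) 0 := fun j =>
      (P j).differentiable.analyticAt 0
    rw [Tay_sum _ fun j => (hp j).fun_mul ((hΓ _).analyticAt h0)]
    exact sum_congr rfl fun j _ => by rw [Tay_mul (hp j) ((hΓ _).analyticAt h0), Tay_poly]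
  rw [e]
  refine (mul_le_mul_of_nonneg_left (nrm_Tay hW hWr (by linarith) (h.diff_sum P) hε hε₀ N)
    (by positivity)).trans ?_
  have h4 : 4 * ((N : ℝ) + 1) ≤ (8 * D) ^ N := by
    refine le_trans ?_ (pow_le_pow_left₀ (by norm_num) (show (8 : ℝ) ≤ 8 * D by linarith) N)
    obtain ⟨k, rfl⟩ := Nat.exists_eq_add_of_le' hN₁
    have := one_add_mul_le_pow (show (-2 : ℝ) ≤ 7 by norm_num) k
    rw [pow_succ]
    push_cast
    norm_num at this
    have : (0 : ℝ) ≤ k := k.cast_nonneg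
    linarith
  rw [mul_pow (Qz D), hQ]
  calc _ = (8 * D) ^ N * Real.exp (16 * D * N) * (4 * ((N : ℝ) + 1)) * (r / W) ^ N * ε := by ring
    _ ≤ _ := by gcongr

end Pool.Agent.PPow
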