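import Pool.Agent.P.MP_54dcdd_nt.Defs
import Pool.Agent.P.MP_54dcdd_nt.ZeroA

/-! The logarithm of the main term as an analytic function. -/

open Complex MeasureTheory
open scoped Real

noncomputable section

namespace Pool.Agent.PPow

/-- the bracket of the main term -/
def Gfun_H (s : ℝ) (m : ℂ) : ℂ := 1 - m⁻¹ + ((s / √2 : ℝ) : ℂ) * (cexp (-(m / 2)) * (1 - 2 * m⁻¹))

/-- its derivative -/
def Gfun_D (s : ℝ) (m : ℂ) : ℂ :=
  m⁻¹ ^ 2 + ((s / √2 : ℝ) : ℂ) * (cexp (-(m / 2)) * (2 * m⁻¹ ^ 2 - (1 - 2 * m⁻¹) / 2))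

/-- the bracket at real points -/
def Gfun_R (s m : ℝ) : ℝ := 1 - 1 / m + s * Real.exp (-(m / 2)) * (1 - 2 / m) / √2

theorem Gfun_ofReal (s m : ℝ) : Gfun_H s m = Gfun_R s m := by
  simp only [Gfun_H, Gfun_R]
  push_cast
  ring

theorem Gfun_deriv (s : ℝ) {m : ℂ} (hm : m ≠ 0) : HasDerivAt (Gfun_H s) (Gfun_D s m) m := by
  have h1 : HasDerivAt (fun z : ℂ => z⁻¹) (-(m ^ 2)⁻¹) m := hasDerivAt_inv hm
  have h2 : HasDerivAt (fun z : ℂ => cexp (-(z / 2))) (cexp (-(m / 2)) * -(1 / 2)) m :=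
    ((hasDerivAt_id m).div_const 2).neg.cexp
  have h3 := (h1.const_sub 1).add
    ((h2.mul ((h1.const_mul 2).const_sub 1)).const_mul ((s / √2 : ℝ) : ℂ))
  refine h3.congr_deriv ?_
  simp only [Gfun_D, inv_pow]
  ring

theorem Gfun_small {s : ℝ} (hs : |s| ≤ 1) {m : ℂ} (hm : 1000 ≤ m.re) :
    ‖Gfun_H s m - 1‖ ≤ 1 / 100 ∧ ‖Gfun_D s m‖ ≤ 1 / 200 := by
  have h1 : ‖m⁻¹‖ ≤ 1 / 1000 := by
    rw [norm_inv, one_div]
    exact inv_anti₀ (by norm_num) (hm.trans (Complex.re_le_norm m))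
  have h2 : ‖cexp (-(m / 2))‖ ≤ 1 / 500 := by
    rw [Complex.norm_exp, neg_re, Real.exp_neg, one_div]
    refine inv_anti₀ (by norm_num) ?_
    have h3 : (m / 2).re = m.re / 2 := by simp
    have := Real.add_one_le_exp (m / 2).re
    linarith
  have h3 : ‖((s / √2 : ℝ) : ℂ)‖ ≤ 1 := by
    rw [Complex.norm_real, Real.norm_eq_abs, abs_div, abs_of_nonneg (Real.sqrt_nonneg 2)]
    exact div_le_one_of_le₀ (hs.trans Real.one_lt_sqrt_two.le) (Real.sqrt_nonneg 2)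
  have h4 : ‖1 - 2 * m⁻¹‖ ≤ 2 := by
    refine (norm_sub_le _ _).trans ?_
    rw [norm_one, norm_mul, Complex.norm_ofNat]
    linarith
  have h5 : ‖m⁻¹ ^ 2‖ ≤ 1 / 1000 := by
    rw [norm_pow]
    nlinarith [norm_nonneg m⁻¹]
  have h6 : ‖2 * m⁻¹ ^ 2 - (1 - 2 * m⁻¹) / 2‖ ≤ 2 := by
    refine (norm_sub_le _ _).trans ?_
    rw [norm_mul, norm_div, Complex.norm_ofNat]
    linarith
  have h7 : ∀ x : ℂ, ‖x‖ ≤ 2 → ‖((s / √2 : ℝ) : ℂ) * (cexp (-(m / 2)) * x)‖ ≤ 1 / 250 := by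
    intro x hx
    rw [norm_mul, norm_mul]
    calc ‖((s / √2 : ℝ) : ℂ)‖ * (‖cexp (-(m / 2))‖ * ‖x‖) ≤ 1 * (1 / 500 * 2) := by gcongr
      _ = 1 / 250 := by norm_num
  constructor
  · have e : Gfun_H s m - 1 =
        ((s / √2 : ℝ) : ℂ) * (cexp (-(m / 2)) * (1 - 2 * m⁻¹)) - m⁻¹ := by
      simp only [Gfun_H]
      ring
    rw [e]
    refine (norm_sub_le _ _).trans ?_
    linarith [h7 _ h4]
  · refine (norm_add_le _ _).trans ?_
    linarith [h7 _ h6]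

theorem Gfun_R_bounds {s m : ℝ} (hs : |s| ≤ 1) (hm : 1000 ≤ m) :
    1 / 2 ≤ Gfun_R s m ∧ Gfun_R s m ≤ 2 := by
  have h := (Gfun_small hs (m := m) hm).1
  rw [Gfun_ofReal, ← Complex.ofReal_one, ← Complex.ofReal_sub, Complex.norm_real,
    Real.norm_eq_abs, abs_le] at h
  constructor <;> linarith [h.1, h.2]

theorem Gfun_c0 : 1 / 2 ≤ π ^ 2 / (6 * √3) ∧ π ^ 2 / (6 * √3) ≤ 1 := by
  have h1 : (17 / 10 : ℝ) ≤ √3 := Real.le_sqrt_of_sq_le (by norm_num)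
  have h2 : √3 ≤ (2 : ℝ) := Real.sqrt_le_iff.2 ⟨by norm_num, by norm_num⟩
  have h3 := Real.pi_gt_three
  have h4 := Real.pi_lt_d2
  constructor
  · rw [le_div_iff₀ (by positivity)]
    nlinarith
  · rw [div_le_one (by positivity)]
    nlinarith

theorem Gfun_mu_sq {x : ℝ} (hx : 1 / 24 ≤ x) : mu x ^ 2 = π ^ 2 * (2 * (x - 1 / 24) / 3) := by
  rw [mu, mul_pow, Real.sq_sqrt (by linarith)]

theorem Gfun_mu_nonneg (x : ℝ) : 0 ≤ mu x := mul_nonneg Real.pi_pos.le (Real.sqrt_nonneg _)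

/-- the logarithm in the scaled variable -/
def Gfun_F (s μ : ℝ) (w : ℂ) : ℂ :=
  μ * cexp (log (1 + w) / 2) - μ - log (1 + w) + log (Gfun_H s (μ * cexp (log (1 + w) / 2))) -
    log (Gfun_H s μ)

theorem Gfun_F_deriv {s μ : ℝ} (hs : |s| ≤ 1) (hμ : 2000 ≤ μ) {w : ℂ} (hw : ‖w‖ ≤ 1 / 40) :
    ∃ d : ℂ, HasDerivAt (Gfun_F s μ) d w ∧ ‖d - μ / 2‖ ≤ μ / 16 := by
  have hL : ‖log (1 + w) / 2‖ ≤ 3 / 160 := by
    have := Complex.norm_log_one_add_half_le_self (z := w) (by linarith)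
    rw [norm_div, Complex.norm_ofNat]
    linarith
  have hs1 : 1 + w ∈ slitPlane := mem_slitPlane_of_norm_lt_one (by linarith)
  have h0 : 1 + w ≠ 0 := slitPlane_ne_zero hs1
  have hv : ‖cexp (log (1 + w) / 2) - 1‖ ≤ 3 / 80 := by
    have := Complex.norm_exp_sub_one_le (x := log (1 + w) / 2) (by linarith)
    linarith
  have hv' : ‖cexp (-(log (1 + w) / 2)) - 1‖ ≤ 3 / 80 := by
    have := Complex.norm_exp_sub_one_le (x := -(log (1 + w) / 2)) (by rw [norm_neg]; linarith)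
    rw [norm_neg] at this
    linarith
  have hre : 1000 ≤ ((μ : ℂ) * cexp (log (1 + w) / 2)).re := by
    have h1 := (abs_le.1 ((Complex.abs_re_le_norm _).trans hv)).1
    rw [sub_re, one_re] at h1
    rw [re_ofReal_mul]
    nlinarith
  have hm0 : (μ : ℂ) * cexp (log (1 + w) / 2) ≠ 0 := fun h => by
    rw [h, zero_re] at hre
    norm_num at hre
  obtain ⟨hH, hD⟩ := Gfun_small hs hre
  have hH1 : Gfun_H s (μ * cexp (log (1 + w) / 2)) ∈ slitPlane := by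
    have := mem_slitPlane_of_norm_lt_one (hH.trans_lt (by norm_num))
    rwa [add_sub_cancel] at this
  have hH2 : 1 / 2 ≤ ‖Gfun_H s (μ * cexp (log (1 + w) / 2))‖ := by
    have := norm_sub_norm_le 1 (Gfun_H s (μ * cexp (log (1 + w) / 2)))
    rw [norm_sub_rev, norm_one] at this
    linarith
  have d1 : HasDerivAt (fun w : ℂ => log (1 + w)) (1 / (1 + w)) w :=
    ((hasDerivAt_id w).const_add 1).clog hs1
  have d2 : HasDerivAt (fun w : ℂ => (μ : ℂ) * cexp (log (1 + w) / 2))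
      (μ / 2 * cexp (-(log (1 + w) / 2))) w := by
    refine ((d1.div_const 2).cexp.const_mul (μ : ℂ)).congr_deriv ?_
    have e : cexp (log (1 + w) / 2) = cexp (-(log (1 + w) / 2)) * (1 + w) := by
      conv_rhs => rw [← Complex.exp_log h0, ← Complex.exp_add, Complex.exp_log h0]
      congr 1
      ring
    rw [e]
    field_simp
  have d3 := (HasDerivAt.comp (h₂ := Gfun_H s) w (Gfun_deriv s hm0) d2).clog hH1
  refine ⟨_, (((d2.sub_const (μ : ℂ)).sub d1).add d3).sub_const _, ?_⟩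
  simp only [Function.comp_apply]
  set v := cexp (-(log (1 + w) / 2))
  set H := Gfun_H s (μ * cexp (log (1 + w) / 2))
  set D := Gfun_D s (μ * cexp (log (1 + w) / 2))
  have e : μ / 2 * v - 1 / (1 + w) + D * (μ / 2 * v) / H - μ / 2 =
      ((μ / 2 : ℝ) : ℂ) * ((v - 1) + v * (D / H)) - 1 / (1 + w) := by
    push_cast
    ring
  have h1 : ‖1 / (1 + w)‖ ≤ 2 := by
    have := norm_sub_norm_le (1 : ℂ) (-w)
    rw [sub_neg_eq_add, norm_one, norm_neg] at this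
    rw [norm_div, norm_one, div_le_iff₀ (by linarith)]
    linarith
  have h2 : ‖D / H‖ ≤ 1 / 100 := by
    rw [norm_div, div_le_iff₀ (by linarith)]
    linarith
  have h3 : ‖v‖ ≤ 2 := by
    have := norm_sub_norm_le v 1
    rw [norm_one] at this
    linarith
  have h4 : ‖(v - 1) + v * (D / H)‖ ≤ 3 / 80 + 2 * (1 / 100) := by
    refine (norm_add_le _ _).trans (add_le_add hv' ?_)
    rw [norm_mul]
    gcongr
  rw [e]
  refine (norm_sub_le _ _).trans ?_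
  rw [norm_mul, Complex.norm_real, Real.norm_of_nonneg (by linarith)]
  nlinarith [mul_le_mul_of_nonneg_left h4 (show 0 ≤ μ / 2 by linarith)]

theorem Gfun_F_real {s μ w : ℝ} (hs : |s| ≤ 1) (hμ : 2000 ≤ μ) (hw : |w| ≤ 1 / 40) :
    ∃ r : ℝ, Gfun_F s μ w = r ∧ Gm s (μ * √(1 + w)) = Gm s μ * Real.exp r := by
  have hw' := abs_le.1 hw
  have h0 : 0 < 1 + w := by linarith [hw'.1]
  have h1 : 1 / 2 ≤ √(1 + w) := Real.le_sqrt_of_sq_le (by linarith [hw'.1])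
  have h2 := (Gfun_R_bounds hs (m := μ * √(1 + w)) (by nlinarith)).1
  have h3 := (Gfun_R_bounds hs (m := μ) (by linarith)).1
  have e1 : log (1 + (w : ℂ)) = (Real.log (1 + w) : ℝ) := by
    rw [Complex.ofReal_log h0.le]
    push_cast
    rfl
  have e2 : (μ : ℂ) * cexp ((Real.log (1 + w) : ℝ) / 2) = ((μ * √(1 + w) : ℝ) : ℂ) := by
    rw [Real.sqrt_eq_rpow, Real.rpow_def_of_pos h0]
    push_cast
    congr 2
    ring
  refine ⟨μ * √(1 + w) - μ - Real.log (1 + w) + Real.log (Gfun_R s (μ * √(1 + w))) -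
    Real.log (Gfun_R s μ), ?_, ?_⟩
  · rw [Gfun_F, e1, e2, Gfun_ofReal, Gfun_ofReal, ← Complex.ofReal_log (by linarith),
      ← Complex.ofReal_log (by linarith)]
    push_cast
    rfl
  · change π ^ 2 / (6 * √3) * Real.exp (μ * √(1 + w)) / (μ * √(1 + w)) ^ 2 *
      Gfun_R s (μ * √(1 + w)) = π ^ 2 / (6 * √3) * Real.exp μ / μ ^ 2 * Gfun_R s μ * _
    rw [Real.exp_sub, Real.exp_add, Real.exp_sub, Real.exp_sub, Real.exp_log h0,
      Real.exp_log (by linarith), Real.exp_log (by linarith), mul_pow, Real.sq_sqrt h0.le]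
    have h4 : Gfun_R s μ ≠ 0 := by linarith
    have h5 : μ ≠ 0 := by linarith
    field_simp

theorem Gm_bounds : ∃ m₀ : ℝ, ∀ m s : ℝ, m₀ ≤ m → |s| ≤ 1 →
    Real.exp m / m ^ 3 ≤ Gm s m ∧ Gm s m ≤ Real.exp m := by
  refine ⟨1000, fun m s hm hs => ?_⟩
  obtain ⟨h1, h2⟩ := Gfun_R_bounds hs hm
  obtain ⟨h3, h4⟩ := Gfun_c0
  have h5 := Real.exp_pos m
  have h6 : 0 < m := by linarith
  change _ ≤ π ^ 2 / (6 * √3) * Real.exp m / m ^ 2 * Gfun_R s m ∧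
    π ^ 2 / (6 * √3) * Real.exp m / m ^ 2 * Gfun_R s m ≤ _
  constructor
  · calc Real.exp m / m ^ 3 = 1 / m * Real.exp m / m ^ 2 * 1 := by field_simp
      _ ≤ 1 / 4 * Real.exp m / m ^ 2 * 1 := by gcongr; linarith
      _ = 1 / 2 * Real.exp m / m ^ 2 * (1 / 2) := by ring
      _ ≤ _ := by gcongr
  · calc _ ≤ 1 * Real.exp m / m ^ 2 * 2 := by gcongr
      _ ≤ 1 * Real.exp m / 2 * 2 := by gcongr; nlinarith
      _ = _ := by ring

theorem mu_bounds {x : ℝ} (hx : 1 ≤ x) : √x ≤ mu x ∧ mu x ≤ 3 * √x := by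
  have h1 := Gfun_mu_sq (x := x) (by linarith)
  have h2 := Real.pi_gt_three
  have h3 := Real.pi_lt_d2
  have h4 : 9 ≤ π ^ 2 := by nlinarith
  have h5 : π ^ 2 ≤ 10 := by nlinarith
  refine ⟨Real.sqrt_le_iff.2 ⟨Gfun_mu_nonneg x, by nlinarith⟩, ?_⟩
  refine (sq_le_sq₀ (Gfun_mu_nonneg x) (by positivity)).1 ?_
  rw [mul_pow, Real.sq_sqrt (by linarith)]
  nlinarith

theorem mu_mono : Monotone mu := by
  intro x y h
  unfold mu
  gcongr

theorem exists_LG : ∃ X₀ : ℝ, ∀ x₀ s k : ℝ, X₀ ≤ x₀ → |s| ≤ 1 → 0 < k →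
    ∃ ℓ : ℂ → ℂ, LG ℓ (mu x₀ / (2 * (x₀ - 1 / 24) * k)) ((x₀ - 1 / 24) / 40) ∧
      ∀ t : ℝ, |t| < (x₀ - 1 / 24) / 40 → (ℓ t).im = 0 ∧
        Gm s (mu (x₀ + t)) = Gm s (mu x₀) * Real.exp (k * (ℓ t).re) := by
  refine ⟨2000 ^ 2, fun x₀ s k hx hs hk => ?_⟩
  have hμ : 2000 ≤ mu x₀ :=
    (Real.le_sqrt_of_sq_le hx).trans (mu_bounds (x := x₀) (by linarith)).1
  set y := x₀ - 1 / 24 with hy
  have hy0 : 0 < y := by linarith
  have hk' : (k : ℂ) ≠ 0 := Complex.ofReal_ne_zero.2 hk.ne'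
  have hy' : (y : ℂ) ≠ 0 := Complex.ofReal_ne_zero.2 hy0.ne'
  have key : ∀ z ∈ Metric.ball (0 : ℂ) (y / 40), ∃ d : ℂ,
      HasDerivAt (fun z : ℂ => Gfun_F s (mu x₀) (z / y) / k) (d * (1 / y) / k) z ∧
        ‖d - mu x₀ / 2‖ ≤ mu x₀ / 16 := by
    intro z hz
    obtain ⟨d, h1, h2⟩ := Gfun_F_deriv hs hμ (w := z / y) (by
      rw [norm_div, Complex.norm_real, Real.norm_of_nonneg hy0.le, div_le_iff₀ hy0]
      linarith [mem_ball_zero_iff.1 hz])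
    exact ⟨d, (h1.comp z ((hasDerivAt_id z).div_const (y : ℂ))).div_const _, h2⟩
  refine ⟨fun z => Gfun_F s (mu x₀) (z / y) / k, ⟨by positivity, fun z hz => ?_, ?_, fun z hz => ?_⟩,
    fun t ht => ?_⟩
  · obtain ⟨d, h1, -⟩ := key z hz
    exact h1.differentiableAt.differentiableWithinAt
  · simp [Gfun_F]
  · obtain ⟨d, h1, h2⟩ := key z hz
    have e : d * (1 / y) / k - ((mu x₀ / (2 * y * k) : ℝ) : ℂ) =
        (d - mu x₀ / 2) / ((y * k : ℝ) : ℂ) := by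
      push_cast
      field_simp
    rw [h1.deriv, e, norm_div, Complex.norm_real, Real.norm_of_nonneg (by positivity)]
    calc ‖d - mu x₀ / 2‖ / (y * k) ≤ mu x₀ / 16 / (y * k) := by gcongr
      _ = mu x₀ / (2 * y * k) / 8 := by field_simp; norm_num
  · obtain ⟨r, h1, h2⟩ := Gfun_F_real hs hμ (w := t / y) (by
      rw [abs_div, abs_of_pos hy0, div_le_iff₀ hy0]
      linarith)
    have e1 : Gfun_F s (mu x₀) ((t : ℂ) / y) / k = ((r / k : ℝ) : ℂ) := by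
      rw [← Complex.ofReal_div, h1, Complex.ofReal_div]
    have e2 : mu (x₀ + t) = mu x₀ * √(1 + t / y) := by
      rw [mu, mu, mul_assoc, ← Real.sqrt_mul (by positivity)]
      congr 2
      rw [← hy, show x₀ + t - 1 / 24 = y + t by rw [hy]; ring]
      field_simp
    simp only [e1, ofReal_im, ofReal_re, true_and]
    rw [e2, h2, mul_div_cancel₀ _ hk.ne']

end Pool.Agent.PPow
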