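import Pool.Agent.P.MP_54dcdd_nt.Asym
import Pool.Agent.P.MP_54dcdd_nt.Gfun

/-! From the partition numbers to the main term. -/

open Complex MeasureTheory
open scoped Real

noncomputable section

namespace Pool.Agent.PPow

theorem Close_exp {b : ℝ} (hb : 0 < b) (A : ℝ) :
    ∃ M : ℝ, ∀ μ : ℝ, M ≤ μ → A * μ ^ 3 ≤ Real.exp (b * μ) := by
  refine ⟨24 * |A| / b ^ 4, fun μ h => ?_⟩
  have h0 : 0 ≤ μ := le_trans (by positivity) h
  have h1 := Real.pow_div_factorial_le_exp (b * μ) (by positivity) 4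
  rw [div_le_iff₀ (by positivity)] at h
  calc A * μ ^ 3 ≤ |A| * μ ^ 3 := by gcongr; exact le_abs_self A
    _ ≤ μ * b ^ 4 / 24 * μ ^ 3 := by gcongr; linarith
    _ = (b * μ) ^ 4 / (Nat.factorial 4 : ℕ) := by
      norm_num [Nat.factorial]
      ring
    _ ≤ _ := h1

theorem near_of_close {θ κ : ℝ} (hθ : κ < 1 - θ) (hκ : κ < 2 / 3) (hκ₀ : 0 ≤ κ) (d : ℝ) :
    ∃ X₀ : ℕ, ∀ x₀ t k : ℕ, ∀ m : ℤ, X₀ ≤ x₀ →
      |(pn (x₀ + t) : ℝ) - (m : ℝ) ^ k| ≤ d + (pn (x₀ + t) : ℝ) ^ θ →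
      Near ((-1) ^ (x₀ + t)) κ x₀ k t := by
  obtain ⟨C, n₀, hC⟩ := pn_asymp
  obtain ⟨m₀, hG⟩ := Gm_bounds
  have hb : 0 < 1 - κ - max θ (1 / 3) := by
    rcases max_cases θ (1 / 3) with h | h <;> linarith [h.1]
  obtain ⟨M, hM⟩ := Close_exp hb (|d| + 1 + 2 * |C|)
  refine ⟨max n₀ (⌈(max (max M m₀) 1) ^ 2⌉₊), fun x₀ t k m hx h => ⟨m.natAbs, ?_⟩⟩
  have hx₁ : (max (max M m₀) 1) ^ 2 ≤ (x₀ : ℝ) := Nat.ceil_le.1 ((le_max_right _ _).trans hx)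
  have hx₂ : (1 : ℝ) ≤ x₀ := (one_le_pow₀ (le_max_right _ _)).trans hx₁
  have hμ₀ : mu x₀ ≤ mu ((x₀ : ℝ) + t) := mu_mono (le_add_of_nonneg_right t.cast_nonneg)
  have hμ₁ : max (max M m₀) 1 ≤ mu ((x₀ : ℝ) + t) :=
    ((Real.le_sqrt_of_sq_le hx₁).trans (mu_bounds hx₂).1).trans hμ₀
  have hC' := hC (x₀ + t) (((le_max_left _ _).trans hx).trans (Nat.le_add_right _ _))
  rw [Nat.cast_add] at hC'
  have hs : |(-1 : ℝ) ^ (x₀ + t)| ≤ 1 := by simp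
  have hp : (1 : ℝ) ≤ pn (x₀ + t) := Nat.one_le_cast.2 Fintype.card_pos
  set μ := mu ((x₀ : ℝ) + t)
  set p : ℝ := ((pn (x₀ + t) : ℕ) : ℝ)
  have hμ : 1 ≤ μ := (le_max_right _ _).trans hμ₁
  obtain ⟨g₁, g₂⟩ := hG μ _ (((le_max_right _ _).trans (le_max_left _ _)).trans hμ₁) hs
  have hM' := hM μ (((le_max_left _ _).trans (le_max_left _ _)).trans hμ₁)
  set G := Gm ((-1) ^ (x₀ + t)) μ
  set a := max θ (1 / 3)
  have ha : 1 / 3 ≤ a := le_max_right _ _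
  have hC₀ := abs_nonneg C
  have e₁ : Real.exp (μ / 3) ≤ Real.exp (a * μ) := Real.exp_le_exp.2 (by nlinarith)
  have e₂ : Real.exp (μ / 3) ≤ Real.exp μ := Real.exp_le_exp.2 (by linarith)
  have e₃ : 1 ≤ Real.exp (a * μ) := Real.one_le_exp (by positivity)
  have h₁ : |p - G| ≤ |C| * Real.exp (μ / 3) :=
    hC'.trans (mul_le_mul_of_nonneg_right (le_abs_self C) (Real.exp_pos _).le)
  have h₂ : p ≤ (1 + |C|) * Real.exp μ := by
    nlinarith [(abs_le.1 h₁).2, mul_le_mul_of_nonneg_left e₂ hC₀]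
  have h₃ : p ^ θ ≤ (1 + |C|) * Real.exp (a * μ) :=
    calc p ^ θ ≤ p ^ a := Real.rpow_le_rpow_of_exponent_le hp (le_max_left _ _)
      _ ≤ ((1 + |C|) * Real.exp μ) ^ a := Real.rpow_le_rpow (by linarith) h₂ (by linarith)
      _ = (1 + |C|) ^ a * Real.exp (a * μ) := by
        rw [Real.mul_rpow (by positivity) (Real.exp_pos _).le, ← Real.exp_mul, mul_comm μ a]
      _ ≤ _ := by
        gcongr
        exact Real.rpow_le_self_of_one_le (by linarith) (by linarith)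
  have h₄ : |((m.natAbs : ℕ) : ℝ) ^ k - p| ≤ |p - (m : ℝ) ^ k| := by
    have := abs_abs_sub_abs_le_abs_sub ((m : ℝ) ^ k) p
    rwa [abs_pow, abs_of_nonneg (by linarith : 0 ≤ p), abs_sub_comm ((m : ℝ) ^ k),
      ← Int.cast_abs, ← Nat.cast_natAbs] at this
  have h₅ : |((m.natAbs : ℕ) : ℝ) ^ k - G| ≤ (|d| + 1 + 2 * |C|) * Real.exp (a * μ) := by
    have := abs_sub_le (((m.natAbs : ℕ) : ℝ) ^ k) p G
    nlinarith [le_abs_self d, mul_le_mul_of_nonneg_left e₁ hC₀,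
      mul_le_mul_of_nonneg_left e₃ (abs_nonneg d)]
  refine h₅.trans ?_
  calc (|d| + 1 + 2 * |C|) * Real.exp (a * μ)
      = (|d| + 1 + 2 * |C|) * μ ^ 3 * Real.exp (a * μ) / μ ^ 3 := by field_simp
    _ ≤ Real.exp ((1 - κ - a) * μ) * Real.exp (a * μ) / μ ^ 3 := by gcongr
    _ = Real.exp (-(κ * μ)) * (Real.exp μ / μ ^ 3) := by
      rw [← mul_div_assoc, ← Real.exp_add, ← Real.exp_add]
      congr 2
      ring
    _ ≤ _ := by gcongr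

end Pool.Agent.PPow
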