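import Pool.Agent.P.MP_54dcdd_nt.Gen

/-! The partition numbers as Fourier coefficients of the inverse of eta. -/

open Complex MeasureTheory
open scoped Real

noncomputable section

namespace Pool.Agent.PPow

theorem continuous_inv_eta {y : ℝ} (hy : 0 < y) :
    Continuous fun x : ℝ => (ModularForm.eta (x + y * I))⁻¹ := by
  have hm : ∀ x : ℝ, (x + y * I : ℂ) ∈ UpperHalfPlane.upperHalfPlaneSet := fun x => by
    show 0 < (x + y * I : ℂ).im
    simpa using hy
  refine Continuous.inv₀ (continuous_iff_continuousAt.2 fun x => ?_)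
    fun x => ModularForm.eta_ne_zero (hm x)
  exact ContinuousAt.comp (g := ModularForm.eta) (f := fun x : ℝ => (x + y * I : ℂ))
    (ModularForm.differentiableAt_eta_of_mem_upperHalfPlaneSet (hm x)).continuousAt (by fun_prop)

theorem Coef_q {y : ℝ} (hy : 0 < y) (x : ℝ) : ‖cexp (2 * π * I * (x + y * I))‖ < 1 := by
  rw [norm_exp, Real.exp_lt_one_iff]
  have : 0 < π * y := mul_pos Real.pi_pos hy
  simp
  linarith

theorem pn_eq_integral (n : ℕ) {y : ℝ} (hy : 0 < y) (x₀ : ℝ) :
    (pn n : ℂ) = ∫ x in x₀..x₀ + 1,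
      (ModularForm.eta (x + y * I))⁻¹ * cexp (2 * π * (n - 1 / 24) * (y - x * I)) := by
  let A : ℕ → ℂ := fun m => pn m * cexp (-(2 * π * (m - n) * y))
  have hA : Summable fun m => ‖A m‖ := by
    rw [summable_norm_iff]
    refine ((hasSum_pn (Coef_q hy 0)).summable.mul_right (cexp (2 * π * n * y))).congr fun m => ?_
    simp only [A]
    rw [← Complex.exp_nat_mul, mul_assoc, ← Complex.exp_add]
    congr 2
    push_cast
    linear_combination (2 * π * m * y : ℂ) * I_mul_I
  have h1 := intervalIntegral.hasSum_integral_of_dominated_convergence (μ := volume) (a := x₀)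
    (b := x₀ + 1) (F := fun (m : ℕ) (x : ℝ) => A m * cexp (2 * π * I * (m - n) * x))
    (f := fun x : ℝ =>
      (ModularForm.eta (x + y * I))⁻¹ * cexp (2 * π * (n - 1 / 24) * (y - x * I)))
    (fun m _ => ‖A m‖) (fun m => Continuous.aestronglyMeasurable (by fun_prop))
    (fun m => Filter.Eventually.of_forall fun x _ => by
      rw [Complex.norm_mul, norm_exp]
      simp)
    (Filter.Eventually.of_forall fun _ _ => hA) intervalIntegrable_const
    (Filter.Eventually.of_forall fun x _ => by
      have h2 := (hasSum_pn (Coef_q hy x)).mul_right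
        (cexp (-(π * I * (x + y * I) / 12)) * cexp (2 * π * (n - 1 / 24) * (y - x * I)))
      convert h2 using 1
      · rfl
      · funext m
        simp only [A]
        rw [← Complex.exp_nat_mul, mul_assoc, mul_assoc (pn m : ℂ), ← Complex.exp_add,
          ← Complex.exp_add, ← Complex.exp_add]
        congr 2
        linear_combination (π * y / 12 - 2 * π * m * y : ℂ) * I_mul_I
      · rw [eta_eq, mul_inv, ← Complex.exp_neg]
        ring)
  have h2 : HasSum (fun m : ℕ => ∫ x in x₀..x₀ + 1, A m * cexp (2 * π * I * (m - n) * x))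
      (∫ x in x₀..x₀ + 1, A n * cexp (2 * π * I * (n - n) * x)) := by
    refine hasSum_single n fun m hm => ?_
    have hc : (2 * π * I * (m - n) : ℂ) ≠ 0 :=
      mul_ne_zero two_pi_I_ne_zero (sub_ne_zero.2 (Nat.cast_injective.ne hm))
    have h3 : cexp (2 * π * I * (m - n) * ((x₀ + 1 : ℝ) : ℂ)) = cexp (2 * π * I * (m - n) * x₀) := by
      rw [Complex.exp_eq_exp_iff_exists_int]
      exact ⟨m - n, by push_cast; ring⟩
    rw [intervalIntegral.integral_const_mul, integral_exp_mul_complex hc, h3]
    simp
  rw [← h2.unique h1]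
  simp [A]

end Pool.Agent.PPow
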