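import Mathlib

/-! From short windows to initial segments. -/



noncomputable section

namespace Pool.Agent.PPow

open Classical in
/-- the number of elements of `E` in `[a, b)` -/
def Cover_g (E : Set ℕ) (a b : ℕ) : ℕ := ((Finset.Ico a b).filter (· ∈ E)).card

theorem Cover_win {E : Set ℕ} {β : ℝ} (hβ : 0 ≤ β) {x x₀ : ℕ} (hx : x ≤ x₀) :
    Cover_g E x₀ (x₀ + (⌊(x : ℝ) ^ β⌋₊ + 1)) ≤
      {t : ℕ | (t : ℝ) ≤ (x₀ : ℝ) ^ β ∧ x₀ + t ∈ E}.ncard := by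
  classical
  have hfin : {t : ℕ | (t : ℝ) ≤ (x₀ : ℝ) ^ β ∧ x₀ + t ∈ E}.Finite := by
    refine (Set.finite_Iic ⌊(x₀ : ℝ) ^ β⌋₊).subset ?_
    intro t ht
    exact Nat.le_floor ht.1
  unfold Cover_g
  rw [← Set.ncard_coe_finset]
  refine Set.ncard_le_ncard_of_injOn (fun n => n - x₀) ?_ ?_ hfin
  · intro n hn
    simp only [Finset.coe_filter, Finset.mem_Ico, Set.mem_ofPred_eq] at hn
    obtain ⟨⟨h1, h2⟩, h3⟩ := hn
    refine ⟨?_, ?_⟩
    · have h4 : n - x₀ ≤ ⌊(x : ℝ) ^ β⌋₊ := by omega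
      have h5 : ((n - x₀ : ℕ) : ℝ) ≤ (x : ℝ) ^ β :=
        (Nat.cast_le.mpr h4).trans (Nat.floor_le (by positivity))
      exact h5.trans (Real.rpow_le_rpow (by positivity) (Nat.cast_le.mpr hx) hβ)
    · have : x₀ + (n - x₀) = n := by omega
      rw [this]; exact h3
  · intro a ha b hb hab
    simp only [Finset.coe_filter, Finset.mem_Ico, Set.mem_ofPred_eq] at ha hb
    have h1 := ha.1.1
    have h2 := hb.1.1
    simp only at hab
    omega

theorem Cover_split (E : Set ℕ) {a b c : ℕ} :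
    Cover_g E a c ≤ Cover_g E a b + Cover_g E b c := by
  classical
  unfold Cover_g
  refine le_trans (Finset.card_le_card ?_) (Finset.card_union_le _ _)
  intro n hn
  simp only [Finset.mem_filter, Finset.mem_Ico, Finset.mem_union] at hn ⊢
  obtain ⟨⟨h1, h2⟩, h3⟩ := hn
  by_cases h : n < b
  · exact Or.inl ⟨⟨h1, h⟩, h3⟩
  · exact Or.inr ⟨⟨by omega, h2⟩, h3⟩

theorem Cover_mono (E : Set ℕ) {a b c : ℕ} (h : b ≤ c) : Cover_g E a b ≤ Cover_g E a c := by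
  classical
  unfold Cover_g
  refine Finset.card_le_card ?_
  intro n hn
  simp only [Finset.mem_filter, Finset.mem_Ico] at hn ⊢
  exact ⟨⟨hn.1.1, by omega⟩, hn.2⟩

theorem Cover_le (E : Set ℕ) (b : ℕ) : Cover_g E 0 b ≤ b := by
  classical
  unfold Cover_g
  refine (Finset.card_filter_le _ _).trans ?_
  simp

theorem Cover_dyadic {E : Set ℕ} {β γ A : ℝ} (hβ : 0 ≤ β) (hβ' : β < 1) (hγ : 0 ≤ γ) {X₀ : ℕ}
    (h : ∀ x₀ : ℕ, X₀ ≤ x₀ →
      ({t : ℕ | (t : ℝ) ≤ (x₀ : ℝ) ^ β ∧ x₀ + t ∈ E}.ncard : ℝ) ≤ A * (x₀ : ℝ) ^ γ)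
    {x : ℕ} (hx : X₀ ≤ x) (hx1 : 1 ≤ x) :
    (Cover_g E x (2 * x) : ℝ) ≤ 2 * |A| * 2 ^ γ * (x : ℝ) ^ (1 - β + γ) := by
  set w : ℕ := ⌊(x : ℝ) ^ β⌋₊ + 1 with hw
  have hw0 : 0 < w := by omega
  have hxpos : (0 : ℝ) < x := by exact_mod_cast hx1
  have hx1' : (1 : ℝ) ≤ x := by exact_mod_cast hx1
  have key : ∀ i : ℕ, i ≤ x / w + 1 →
      (Cover_g E x (x + i * w) : ℝ) ≤ i * (|A| * (2 * (x : ℝ)) ^ γ) := by
    intro i
    induction i with
    | zero => intro _; simp [Cover_g]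
    | succ i ih =>
      intro hi
      have hi' : i ≤ x / w := by omega
      have hiw : i * w ≤ x := le_trans (Nat.mul_le_mul_right w hi') (Nat.div_mul_le_self x w)
      have h1 := ih (by omega)
      have h2 : Cover_g E x (x + (i + 1) * w) ≤
          Cover_g E x (x + i * w) + Cover_g E (x + i * w) (x + (i + 1) * w) := Cover_split E
      have h3 : Cover_g E (x + i * w) (x + (i + 1) * w) ≤
          {t : ℕ | (t : ℝ) ≤ ((x + i * w : ℕ) : ℝ) ^ β ∧ (x + i * w) + t ∈ E}.ncard := by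
        have := Cover_win (E := E) hβ (x := x) (x₀ := x + i * w) (by omega)
        rw [← hw] at this
        have e : x + (i + 1) * w = x + i * w + w := by ring
        rw [e]; exact this
      have h4 := h (x + i * w) (by omega)
      have h5 : A * ((x + i * w : ℕ) : ℝ) ^ γ ≤ |A| * (2 * (x : ℝ)) ^ γ := by
        have h6 : ((x + i * w : ℕ) : ℝ) ≤ 2 * (x : ℝ) := by
          have : x + i * w ≤ 2 * x := by omega
          exact_mod_cast this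
        exact mul_le_mul (le_abs_self A) (Real.rpow_le_rpow (by positivity) h6 hγ)
          (by positivity) (abs_nonneg A)
      have h2' : (Cover_g E x (x + (i + 1) * w) : ℝ) ≤
          (Cover_g E x (x + i * w) : ℝ) + (Cover_g E (x + i * w) (x + (i + 1) * w) : ℝ) := by
        exact_mod_cast h2
      have h3' : (Cover_g E (x + i * w) (x + (i + 1) * w) : ℝ) ≤
          ({t : ℕ | (t : ℝ) ≤ ((x + i * w : ℕ) : ℝ) ^ β ∧ (x + i * w) + t ∈ E}.ncard : ℝ) := by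
        exact_mod_cast h3
      push_cast
      linarith
  have h1 := key (x / w + 1) le_rfl
  have h2 : 2 * x ≤ x + (x / w + 1) * w := by
    have := Nat.lt_div_mul_add (a := x) hw0
    have e : (x / w + 1) * w = x / w * w + w := by ring
    omega
  have h3 : (Cover_g E x (2 * x) : ℝ) ≤ Cover_g E x (x + (x / w + 1) * w) := by
    exact_mod_cast Cover_mono E h2
  have h4 : ((x / w + 1 : ℕ) : ℝ) ≤ 2 * (x : ℝ) ^ (1 - β) := by
    have h5 : (1 : ℝ) ≤ (x : ℝ) ^ (1 - β) := Real.one_le_rpow hx1' (by linarith)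
    have h6 : ((x / w : ℕ) : ℝ) ≤ (x : ℝ) ^ (1 - β) := by
      refine (Nat.cast_div_le).trans ?_
      rw [Real.rpow_sub hxpos, Real.rpow_one]
      refine div_le_div_of_nonneg_left hxpos.le (by positivity) ?_
      rw [hw]; push_cast
      exact (Nat.lt_floor_add_one _).le
    push_cast
    linarith
  calc (Cover_g E x (2 * x) : ℝ) ≤ ((x / w + 1 : ℕ) : ℝ) * (|A| * (2 * (x : ℝ)) ^ γ) :=
        h3.trans h1
    _ ≤ (2 * (x : ℝ) ^ (1 - β)) * (|A| * (2 * (x : ℝ)) ^ γ) :=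
        mul_le_mul_of_nonneg_right h4 (by positivity)
    _ = 2 * |A| * 2 ^ γ * (x : ℝ) ^ (1 - β + γ) := by
        rw [Real.mul_rpow (by norm_num) hxpos.le, Real.rpow_add hxpos]; ring

theorem Cover_nat {E : Set ℕ} {δ B : ℝ} (hδ : 0 < δ) (hB : 0 ≤ B) {X₀ : ℕ}
    (h : ∀ x : ℕ, X₀ ≤ x → 1 ≤ x → (Cover_g E x (2 * x) : ℝ) ≤ B * (x : ℝ) ^ δ) :
    ∃ C : ℝ, 0 ≤ C ∧ ∀ N : ℕ, 1 ≤ N → (Cover_g E 0 N : ℝ) ≤ C * (N : ℝ) ^ δ := by
  set r : ℝ := (2 / 3 : ℝ) ^ δ with hr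
  have hr0 : 0 ≤ r := by positivity
  have hr1 : r < 1 := Real.rpow_lt_one (by norm_num) (by norm_num) hδ
  set C : ℝ := max (2 * (X₀ : ℝ) + 2) (B / (1 - r)) with hC
  have hC1 : 2 * (X₀ : ℝ) + 2 ≤ C := le_max_left _ _
  have hC2 : B ≤ C * (1 - r) := by
    have : B / (1 - r) ≤ C := le_max_right _ _
    rwa [div_le_iff₀ (by linarith)] at this
  have hC0 : 0 ≤ C := le_trans (by positivity) hC1
  refine ⟨C, hC0, ?_⟩
  intro N
  induction N using Nat.strong_induction_on with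
  | _ N ih =>
    intro hN
    have hN1 : (1 : ℝ) ≤ N := by exact_mod_cast hN
    have hNδ : (1 : ℝ) ≤ (N : ℝ) ^ δ := Real.one_le_rpow hN1 hδ.le
    by_cases hsm : N ≤ 2 * X₀ + 2
    · have h1 : (Cover_g E 0 N : ℝ) ≤ N := by exact_mod_cast Cover_le E N
      have h2 : (N : ℝ) ≤ 2 * (X₀ : ℝ) + 2 := by exact_mod_cast hsm
      nlinarith
    · set x : ℕ := (N + 1) / 2 with hx
      have hx0 : X₀ ≤ x := by omega
      have hx1 : 1 ≤ x := by omega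
      have hxN : x < N := by omega
      have h1 := ih x hxN hx1
      have h2 := h x hx0 hx1
      have h3 : Cover_g E 0 N ≤ Cover_g E 0 x + Cover_g E x (2 * x) :=
        (Cover_split E (b := x)).trans
          (Nat.add_le_add_left (Cover_mono E (by omega)) _)
      have h3' : (Cover_g E 0 N : ℝ) ≤ Cover_g E 0 x + Cover_g E x (2 * x) := by
        exact_mod_cast h3
      have h4 : (x : ℝ) ≤ 2 / 3 * (N : ℝ) := by
        have : 3 * x ≤ 2 * N := by omega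
        have h5 : (3 : ℝ) * x ≤ 2 * N := by exact_mod_cast this
        linarith
      have h5 : (x : ℝ) ^ δ ≤ r * (N : ℝ) ^ δ := by
        rw [hr, ← Real.mul_rpow (by norm_num) (by positivity)]
        exact Real.rpow_le_rpow (by positivity) h4 hδ.le
      have h6 : (C + B) * r ≤ C := by nlinarith
      calc (Cover_g E 0 N : ℝ) ≤ (C + B) * (x : ℝ) ^ δ := by linarith
        _ ≤ (C + B) * (r * (N : ℝ) ^ δ) := mul_le_mul_of_nonneg_left h5 (by positivity)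
        _ = ((C + B) * r) * (N : ℝ) ^ δ := by ring
        _ ≤ C * (N : ℝ) ^ δ := mul_le_mul_of_nonneg_right h6 (by positivity)

theorem cover {E : Set ℕ} {β γ A : ℝ} (hβ : 0 ≤ β) (hβ' : β < 1) (hγ : 0 ≤ γ) {X₀ : ℕ}
    (h : ∀ x₀ : ℕ, X₀ ≤ x₀ →
      ({t : ℕ | (t : ℝ) ≤ (x₀ : ℝ) ^ β ∧ x₀ + t ∈ E}.ncard : ℝ) ≤ A * (x₀ : ℝ) ^ γ) :
    ∃ C : ℝ, ∀ X : ℝ, 1 ≤ X →
      ({n : ℕ | (n : ℝ) ≤ X ∧ n ∈ E}.ncard : ℝ) ≤ C * X ^ (1 - β + γ) := by
  classical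
  have hδ : 0 < 1 - β + γ := by linarith
  obtain ⟨C, hC0, hC⟩ := Cover_nat (E := E) (B := 2 * |A| * 2 ^ γ) hδ (by positivity)
    (X₀ := X₀) (fun x hx hx1 => Cover_dyadic hβ hβ' hγ h hx hx1)
  refine ⟨C * 2 ^ (1 - β + γ), ?_⟩
  intro X hX
  have hX0 : 0 ≤ X := by linarith
  have e : {n : ℕ | (n : ℝ) ≤ X ∧ n ∈ E} =
      ((Finset.Ico 0 (⌊X⌋₊ + 1)).filter (· ∈ E) : Finset ℕ) := by
    ext n
    simp only [Set.mem_ofPred_eq, Finset.coe_filter, Finset.mem_Ico, zero_le, true_and,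
      Nat.lt_succ_iff, Nat.le_floor_iff hX0]
  have h1 : ({n : ℕ | (n : ℝ) ≤ X ∧ n ∈ E}.ncard : ℝ) = Cover_g E 0 (⌊X⌋₊ + 1) := by
    rw [e, Set.ncard_coe_finset]
    unfold Cover_g
    congr
  have h2 := hC (⌊X⌋₊ + 1) (by omega)
  have h3 : ((⌊X⌋₊ + 1 : ℕ) : ℝ) ≤ 2 * X := by
    push_cast
    have := Nat.floor_le hX0
    linarith
  have h4 : ((⌊X⌋₊ + 1 : ℕ) : ℝ) ^ (1 - β + γ) ≤ 2 ^ (1 - β + γ) * X ^ (1 - β + γ) := by
    rw [← Real.mul_rpow (by norm_num) hX0]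
    exact Real.rpow_le_rpow (by positivity) h3 hδ.le
  rw [h1]
  calc (Cover_g E 0 (⌊X⌋₊ + 1) : ℝ) ≤ C * ((⌊X⌋₊ + 1 : ℕ) : ℝ) ^ (1 - β + γ) := h2
    _ ≤ C * (2 ^ (1 - β + γ) * X ^ (1 - β + γ)) := mul_le_mul_of_nonneg_left h4 hC0
    _ = C * 2 ^ (1 - β + γ) * X ^ (1 - β + γ) := by ring

end Pool.Agent.PPow
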