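import Mathlib

/-! Divided differences, interpolation determinants and interpolation bounds. -/

open Finset Lagrange Complex Metric

noncomputable section

namespace Pool.Agent.PPow

theorem sum_weight_inv {ι : Type} [DecidableEq ι] {s : Finset ι} {v : ι → ℂ}
    (hv : Set.InjOn v s) (hs : s.Nonempty) {x : ℂ} (hx : ∀ i ∈ s, x ≠ v i) :
    ∑ i ∈ s, nodalWeight s v i * (x - v i)⁻¹ = (∏ i ∈ s, (x - v i))⁻¹ := by
  have h := eval_interpolate_not_at_node (s := s) (v := v) (r := 1) hx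
  rw [interpolate_one hv hs, Polynomial.eval_one, eval_nodal] at h
  simp only [Pi.one_apply, mul_one] at h
  exact eq_inv_of_mul_eq_one_right h.symm

/-- Cauchy bound for divided differences. -/
theorem dd_bound {ι : Type} [DecidableEq ι] {s : Finset ι} {v : ι → ℂ} (hv : Set.InjOn v s)
    (hs : s.Nonempty) {f : ℂ → ℂ} {ρ W M : ℝ} (hW : W < ρ) (hvW : ∀ i ∈ s, ‖v i‖ ≤ W)
    (hf : DifferentiableOn ℂ f (closedBall 0 ρ)) (hM : ∀ z ∈ sphere (0 : ℂ) ρ, ‖f z‖ ≤ M) :
    ‖∑ i ∈ s, nodalWeight s v i * f (v i)‖ ≤ ρ * (M / (ρ - W) ^ s.card) := by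
  have hρ : 0 ≤ ρ := by
    obtain ⟨i, hi⟩ := hs
    exact ((norm_nonneg _).trans (hvW i hi)).trans hW.le
  have hne : ∀ z ∈ sphere (0 : ℂ) ρ, ∀ i ∈ s, ρ - W ≤ ‖z - v i‖ := fun z hz i hi => by
    have h1 := norm_sub_norm_le z (v i)
    rw [mem_sphere_zero_iff_norm.1 hz] at h1
    linarith [hvW i hi]
  have hne' : ∀ z ∈ sphere (0 : ℂ) ρ, ∀ i ∈ s, z ≠ v i := fun z hz i hi h => by
    have := hne z hz i hi
    rw [h, sub_self, norm_zero] at this
    linarith
  have h1 : ∑ i ∈ s, nodalWeight s v i * f (v i) =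
      (2 * Real.pi * I : ℂ)⁻¹ • ∮ z in C(0, ρ), (∏ i ∈ s, (z - v i))⁻¹ * f z := by
    have h2 : (∮ z in C(0, ρ), (∏ i ∈ s, (z - v i))⁻¹ * f z) =
        ∮ z in C(0, ρ), ∑ i ∈ s, nodalWeight s v i * ((z - v i)⁻¹ • f z) := by
      refine circleIntegral.integral_congr hρ fun z hz => ?_
      simp only [← sum_weight_inv hv hs (hne' z hz), sum_mul, smul_eq_mul, mul_assoc]
    rw [h2, circleIntegral.integral_fun_sum, smul_sum]
    · refine sum_congr rfl fun i hi => ?_
      rw [circleIntegral.integral_const_mul, hf.circleIntegral_sub_inv_smul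
        (mem_ball_zero_iff.2 ((hvW i hi).trans_lt hW)), smul_eq_mul, smul_eq_mul]
      have : (2 * Real.pi * I : ℂ) ≠ 0 := two_pi_I_ne_zero
      field_simp
    · intro i hi
      refine ContinuousOn.circleIntegrable hρ (continuousOn_const.mul (ContinuousOn.smul
        ((continuousOn_id.sub continuousOn_const).inv₀ fun z hz => sub_ne_zero.2 (hne' z hz i hi))
        (hf.continuousOn.mono sphere_subset_closedBall)))
  rw [h1]
  refine circleIntegral.norm_two_pi_i_inv_smul_integral_le_of_norm_le_const hρ fun z hz => ?_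
  rw [norm_mul, norm_inv, norm_prod, div_eq_inv_mul]
  have h3 : (ρ - W) ^ s.card ≤ ∏ i ∈ s, ‖z - v i‖ := by
    rw [← prod_const]
    exact prod_le_prod (fun _ _ => by linarith) (hne z hz)
  exact mul_le_mul (inv_anti₀ (pow_pos (by linarith) _) h3) (hM z hz) (norm_nonneg _)
    (inv_nonneg.2 (pow_nonneg (by linarith) _))

theorem factorial_le_prod {ι : Type} [DecidableEq ι] (g : ι → ℤ) (s : Finset ι) :
    Set.InjOn g s → (∀ i ∈ s, g i ≠ 0) → s.card.factorial ≤ 2 ^ s.card * ∏ i ∈ s, (g i).natAbs := by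
  induction s using Finset.induction_on_max_value (fun i => (g i).natAbs) with
  | empty => simp
  | insert a s ha hm ih =>
    intro h1 h2
    have h3 := ih (h1.mono (by simp)) fun i hi => h2 i (mem_insert_of_mem hi)
    have h4 : (insert a s).card ≤ 2 * (g a).natAbs := by
      have h5 : (insert a s).card ≤
          ((Icc (-((g a).natAbs : ℤ)) (g a).natAbs).erase 0).card := by
        refine card_le_card_of_injOn g (fun i hi => ?_) h1
        have h6 := h2 i hi
        have h7 : (g i).natAbs ≤ (g a).natAbs := by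
          rcases mem_insert.1 hi with rfl | hi
          · exact le_rfl
          · exact hm i hi
        simp only [coe_erase, coe_Icc, Set.mem_sdiff, Set.mem_Icc, Set.mem_singleton_iff]
        omega
      rw [card_erase_of_mem (by simp), Int.card_Icc] at h5
      omega
    rw [card_insert_of_notMem ha] at h4 ⊢
    rw [prod_insert ha, Nat.factorial_succ, pow_succ]
    calc (s.card + 1) * s.card.factorial ≤
        (2 * (g a).natAbs) * (2 ^ s.card * ∏ i ∈ s, (g i).natAbs) := Nat.mul_le_mul h4 h3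
      _ = _ := by ring

/-- Weights of equally spaced possible nodes. -/
theorem weight_bound {ι : Type} [DecidableEq ι] {s : Finset ι} {t : ι → ℤ} (ht : Set.InjOn t s)
    {lam : ℝ} (hl : 0 < lam) {i : ι} (hi : i ∈ s) :
    ‖nodalWeight s (fun j => (lam : ℂ) * t j) i‖ ≤
      (2 / lam) ^ (s.card - 1) / (s.card - 1).factorial := by
  have h := factorial_le_prod (fun j => t i - t j) (s.erase i)
    (fun a ha b hb h => ht (mem_of_mem_erase ha) (mem_of_mem_erase hb) (by simpa using h))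
    fun j hj h => (mem_erase.1 hj).1 (ht (mem_of_mem_erase hj) hi (by omega))
  rw [card_erase_of_mem hi] at h
  have h1 : ‖nodalWeight s (fun j => (lam : ℂ) * t j) i‖ =
      (lam ^ (s.card - 1) * ((∏ j ∈ s.erase i, (t i - t j).natAbs : ℕ) : ℝ))⁻¹ := by
    rw [nodalWeight, prod_inv_distrib, norm_inv, norm_prod, ← card_erase_of_mem hi, ← prod_const,
      Nat.cast_prod, ← prod_mul_distrib]
    congr 1
    refine prod_congr rfl fun j _ => ?_
    rw [← mul_sub, norm_mul, Complex.norm_real, Real.norm_of_nonneg hl.le, ← Int.cast_sub,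
      Complex.norm_intCast, Nat.cast_natAbs, Int.cast_abs]
  have h2 : (((s.card - 1).factorial : ℕ) : ℝ) ≤
      2 ^ (s.card - 1) * ((∏ j ∈ s.erase i, (t i - t j).natAbs : ℕ) : ℝ) := by exact_mod_cast h
  have h3 : (0 : ℝ) < (s.card - 1).factorial := by positivity
  have h4 : (0 : ℝ) < ((∏ j ∈ s.erase i, (t i - t j).natAbs : ℕ) : ℝ) := by
    by_contra h5
    have : (2 : ℝ) ^ (s.card - 1) * ((∏ j ∈ s.erase i, (t i - t j).natAbs : ℕ) : ℝ) ≤ 0 :=
      mul_nonpos_of_nonneg_of_nonpos (by positivity) (not_lt.1 h5)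
    linarith
  rw [h1, div_pow, div_div, inv_eq_one_div, div_le_div_iff₀ (by positivity) (by positivity)]
  have h5 : 0 < lam ^ (s.card - 1) := by positivity
  nlinarith

/-- Bound for an interpolation determinant. -/
theorem det_bound {R : ℕ} {v : Fin R → ℂ} (hv : Function.Injective v) {W : ℝ}
    (hW : ∀ i j, ‖v i - v j‖ ≤ W) (A : Matrix (Fin R) (Fin R) ℂ) {b M : Fin R → ℝ}
    (h : ∀ i a, ‖∑ j ∈ Iic i, nodalWeight (Iic i) v j * A j a‖ ≤ b i * M a) :
    ‖A.det‖ ≤ R.factorial * ((∏ i : Fin R, W ^ (i : ℕ) * b i) * ∏ a, M a) := by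
  let Lw : Matrix (Fin R) (Fin R) ℂ := Matrix.of fun i j =>
    if j ≤ i then nodalWeight (Iic i) v j else 0
  have h1 : Lw.det = ∏ i, nodalWeight (Iic i) v i := by
    rw [Matrix.det_of_isLowerTriangular Lw]
    · simp [Lw]
    · intro i j hij
      have : ¬ j ≤ i := not_le.2 hij
      simp [Lw, this]
  have h2 : ∀ i a, (Lw * A) i a = ∑ j ∈ Iic i, nodalWeight (Iic i) v j * A j a := by
    intro i a
    simp only [Matrix.mul_apply, Lw, Matrix.of_apply, ite_mul, zero_mul]
    rw [← sum_filter]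
    congr 1
    ext j
    simp
  have h3 : ‖(Lw * A).det‖ ≤ R.factorial * ((∏ i, b i) * ∏ a, M a) := by
    rw [Matrix.det_apply']
    refine (norm_sum_le _ _).trans ?_
    have h4 : ∀ σ : Equiv.Perm (Fin R),
        ‖((Equiv.Perm.sign σ : ℤ) : ℂ) * ∏ a, (Lw * A) (σ a) a‖ ≤ (∏ i, b i) * ∏ a, M a := by
      intro σ
      have h5 : ‖((Equiv.Perm.sign σ : ℤ) : ℂ)‖ = 1 := by
        rcases Int.units_eq_one_or (Equiv.Perm.sign σ) with h | h <;> simp [h]
      rw [norm_mul, h5, one_mul, norm_prod, ← Equiv.prod_comp σ b, ← prod_mul_distrib]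
      exact prod_le_prod (fun _ _ => norm_nonneg _) fun a _ => by rw [h2]; exact h _ _
    refine (sum_le_sum fun σ _ => h4 σ).trans ?_
    rw [sum_const, card_univ, Fintype.card_perm, Fintype.card_fin, nsmul_eq_mul]
  have h6 : ∀ i : Fin R, 1 ≤ W ^ (i : ℕ) * ‖nodalWeight (Iic i) v i‖ := by
    intro i
    have h7 : ∏ j ∈ (Iic i).erase i, ‖v i - v j‖ ≤ W ^ (i : ℕ) := by
      have : ((Iic i).erase i).card = i := by simp
      rw [← this, ← prod_const]
      exact prod_le_prod (fun _ _ => norm_nonneg _) fun j _ => hW _ _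
    have h8 : 0 < ∏ j ∈ (Iic i).erase i, ‖v i - v j‖ :=
      prod_pos fun j hj => norm_pos_iff.2 (sub_ne_zero.2 fun h => (mem_erase.1 hj).1 (hv h).symm)
    rw [nodalWeight, prod_inv_distrib, norm_inv, norm_prod, ← div_eq_mul_inv]
    exact (one_le_div h8).2 h7
  have h9 : 1 ≤ (∏ i : Fin R, W ^ (i : ℕ)) * ‖Lw.det‖ := by
    rw [h1, norm_prod, ← prod_mul_distrib]
    exact one_le_prod fun i _ => h6 i
  have h10 : 0 ≤ ∏ i : Fin R, W ^ (i : ℕ) :=
    prod_nonneg fun i _ => pow_nonneg ((norm_nonneg _).trans (hW i i)) _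
  rw [Matrix.det_mul, norm_mul] at h3
  calc ‖A.det‖ ≤ ((∏ i : Fin R, W ^ (i : ℕ)) * ‖Lw.det‖) * ‖A.det‖ :=
        le_mul_of_one_le_left (norm_nonneg _) h9
    _ = (∏ i : Fin R, W ^ (i : ℕ)) * (‖Lw.det‖ * ‖A.det‖) := by ring
    _ ≤ (∏ i : Fin R, W ^ (i : ℕ)) * (R.factorial * ((∏ i, b i) * ∏ a, M a)) :=
        mul_le_mul_of_nonneg_left h3 h10
    _ = _ := by rw [prod_mul_distrib]; ring

/-- If all maximal minors vanish there is a common relation. -/
theorem exists_kernel {ι : Type} {R : ℕ} (r : ι → Fin R → ℂ)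
    (h : ∀ e : Fin R → ι, Function.Injective e → (Matrix.of fun i a => r (e i) a).det = 0) :
    ∃ c : Fin R → ℂ, c ≠ 0 ∧ ∀ i, ∑ a, c a * r i a = 0 := by
  by_cases hs : Submodule.span ℂ (Set.range r) = ⊤
  · obtain ⟨κ, a, ha, hsp, hli⟩ := exists_linearIndependent' ℂ r
    rw [hs] at hsp
    let B := Module.Basis.mk hli hsp.ge
    let e : Fin R ≃ κ := (Pi.basisFun ℂ (Fin R)).indexEquiv B
    have h1 := h (a ∘ e) (ha.comp e.injective)
    have h2 : LinearIndependent ℂ (Matrix.of fun i b => r ((a ∘ e) i) b).row :=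
      hli.comp e e.injective
    rw [Matrix.linearIndependent_rows_iff_isUnit, Matrix.isUnit_iff_isUnit_det, h1] at h2
    exact absurd h2 not_isUnit_zero
  · obtain ⟨f, h0, hf⟩ := Submodule.exists_le_ker_of_lt_top _ (lt_top_iff_ne_top.2 hs)
    have e : ∀ x : Fin R → ℂ, f x = ∑ a, f (Pi.single a 1) * x a := fun x => by
      conv_lhs => rw [pi_eq_sum_univ' x]
      simp only [map_sum, map_smul, smul_eq_mul, mul_comm]
    refine ⟨fun a => f (Pi.single a 1), fun hc => h0 ?_, fun i => ?_⟩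
    · refine LinearMap.ext fun x => ?_
      rw [e]
      exact sum_eq_zero fun a _ => by rw [congrFun hc a, Pi.zero_apply, zero_mul]
    · rw [← e]
      exact hf (Submodule.subset_span ⟨i, rfl⟩)

/-- A function that is small at many points is small on a circle around them. -/
theorem interp_bound {ι : Type} [DecidableEq ι] {s : Finset ι} {v : ι → ℂ} (hv : Set.InjOn v s)
    (hs : s.Nonempty) {f : ℂ → ℂ} {ρ W M ω ε : ℝ} (h0 : 0 < W) (hW : 4 * W ≤ ρ)
    (hvW : ∀ i ∈ s, ‖v i‖ ≤ W) (hf : DifferentiableOn ℂ f (closedBall 0 ρ))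
    (hM : ∀ z ∈ closedBall (0 : ℂ) ρ, ‖f z‖ ≤ M) (hω : ∀ i ∈ s, ‖nodalWeight s v i‖ ≤ ω)
    (hε : ∀ i ∈ s, ‖f (v i)‖ ≤ ε) {x : ℂ} (hx : ‖x‖ = 2 * W) :
    ‖f x‖ ≤ (3 * W) ^ s.card * (4 * M * (2 / ρ) ^ s.card + s.card * (ω * ε / W)) := by
  have hρ : 0 < ρ := by linarith
  have hM0 : 0 ≤ M := (norm_nonneg _).trans (hM 0 (mem_closedBall_self hρ.le))
  have hx1 : ∀ i ∈ s, W ≤ ‖x - v i‖ := fun i hi => by
    linarith [norm_sub_norm_le x (v i), hvW i hi]
  have hx2 : ∀ i ∈ s, x ≠ v i := fun i hi h => by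
    have := hx1 i hi
    rw [h, sub_self, norm_zero] at this
    linarith
  have hxb : closedBall (0 : ℂ) ρ ∈ nhds x :=
    closedBall_mem_nhds_of_mem (mem_ball_zero_iff.2 (by linarith))
  have h1 := dd_bound hv hs (f := dslope f x) (ρ := ρ) (W := W) (M := 2 * M / (ρ / 2))
    (by linarith) hvW ((differentiableOn_dslope hxb).2 hf) fun z hz => by
      have h2 : ρ / 2 ≤ ‖z - x‖ := by
        linarith [norm_sub_norm_le z x, mem_sphere_zero_iff_norm.1 hz]
      have h3 : z ≠ x := fun h => by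
        rw [h, sub_self, norm_zero] at h2
        linarith
      rw [dslope_of_ne _ h3, slope_def_field, norm_div]
      refine div_le_div₀ (by positivity) ((norm_sub_le _ _).trans ?_) (by positivity) h2
      linarith [hM z (sphere_subset_closedBall hz), hM x (mem_of_mem_nhds hxb)]
  have hP : (∏ i ∈ s, (x - v i)) ≠ 0 := prod_ne_zero_iff.2 fun i hi => sub_ne_zero.2 (hx2 i hi)
  have h4 : f x = (∏ i ∈ s, (x - v i)) * (∑ i ∈ s, nodalWeight s v i * dslope f x (v i) +
      ∑ i ∈ s, nodalWeight s v i * f (v i) / (x - v i)) := by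
    have h5 : ∑ i ∈ s, nodalWeight s v i * dslope f x (v i) +
        ∑ i ∈ s, nodalWeight s v i * f (v i) / (x - v i) = (∏ i ∈ s, (x - v i))⁻¹ * f x := by
      rw [← sum_weight_inv hv hs hx2, sum_mul, ← sum_add_distrib]
      refine sum_congr rfl fun i hi => ?_
      have h6 := sub_ne_zero.2 (hx2 i hi)
      have h7 := sub_ne_zero.2 (hx2 i hi).symm
      rw [dslope_of_ne _ (hx2 i hi).symm, slope_def_field]
      field_simp
      ring
    rw [h5, mul_inv_cancel_left₀ hP]
  rw [h4, norm_mul, norm_prod]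
  refine mul_le_mul ?_ ((norm_add_le _ _).trans (add_le_add (h1.trans ?_) ?_)) (norm_nonneg _)
    (by positivity)
  · rw [← prod_const]
    exact prod_le_prod (fun _ _ => norm_nonneg _) fun i hi => by
      linarith [norm_sub_le x (v i), hvW i hi]
  · have h8 : (ρ / 2) ^ s.card ≤ (ρ - W) ^ s.card :=
      pow_le_pow_left₀ (by positivity) (by linarith) _
    calc ρ * (2 * M / (ρ / 2) / (ρ - W) ^ s.card) = 4 * M / (ρ - W) ^ s.card := by
          field_simp
          ring
      _ ≤ 4 * M / (ρ / 2) ^ s.card := div_le_div_of_nonneg_left (by positivity) (by positivity) h8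
      _ = _ := by rw [div_eq_mul_inv, ← inv_pow, inv_div]
  · refine (norm_sum_le _ _).trans ?_
    rw [← nsmul_eq_mul, ← sum_const]
    refine sum_le_sum fun i hi => ?_
    rw [norm_div, norm_mul]
    have h9 : ‖nodalWeight s v i‖ * ‖f (v i)‖ ≤ ω * ε :=
      mul_le_mul (hω i hi) (hε i hi) (norm_nonneg _) ((norm_nonneg _).trans (hω i hi))
    exact div_le_div₀ ((mul_nonneg (norm_nonneg _) (norm_nonneg _)).trans h9) h9 h0 (hx1 i hi)

end Pool.Agent.PPow
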