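import Mathlib

/-! Definitions for the two-term asymptotic formula of the partition function. -/

open Complex
open scoped Real

noncomputable section

namespace Pool.Agent.PPow

/-- the number of partitions of `n` -/
def pn (n : ℕ) : ℕ := Fintype.card (Nat.Partition n)

/-- the Euler product -/
def eul (q : ℂ) : ℂ := ∏' n : ℕ, (1 - q ^ (n + 1))

/-- the exponent in the Hardy-Ramanujan formula -/
def mu (x : ℝ) : ℝ := π * √(2 * (x - 1 / 24) / 3)

/-- the first two terms of the Hardy-Ramanujan formula, `s = (-1) ^ n`, `m = mu n` -/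
def Gm (s m : ℝ) : ℝ :=
  π ^ 2 / (6 * √3) * Real.exp m / m ^ 2 *
    (1 - 1 / m + s * Real.exp (-(m / 2)) * (1 - 2 / m) / √2)

/-- the singular term at a cusp -/
def fz (c : ℝ) (z : ℂ) : ℂ := z.sqrt * cexp (c / z)

/-- the singular term with two terms of the exponential series removed -/
def ft (c : ℝ) (z : ℂ) : ℂ := z.sqrt * (cexp (c / z) - 1 - c / z)

/-- the inverse Laplace transform of `ft c` -/
def al (c s : ℝ) : ℝ :=
  c / √(π * s) * (2 * Real.sinh (2 * √(c * s)) / (2 * √(c * s)) -
    2 * (Real.cosh (2 * √(c * s)) - 1) / (2 * √(c * s)) ^ 2 - 1)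

/-- the main term at `x₀ + t` is exponentially close to a `k`-th power -/
def Near (s κ : ℝ) (x₀ k t : ℕ) : Prop :=
  ∃ m : ℕ, |(m : ℝ) ^ k - Gm s (mu ((x₀ : ℝ) + t))| ≤
    Real.exp (-(κ * mu x₀)) * Gm s (mu ((x₀ : ℝ) + t))

theorem eta_eq (z : ℂ) :
    ModularForm.eta z = cexp (π * I * z / 12) * eul (cexp (2 * π * I * z)) := by
  simp only [ModularForm.eta, eul, ModularForm.eta_q_eq_pow, Function.Periodic.qParam]
  congr 2
  push_cast
  ring

end Pool.Agent.PPow
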