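import Pool.Agent.P.MP_54dcdd_nt.Defs

/-! The inverse of eta near the cusps zero and one half. -/

open Complex MeasureTheory
open scoped Real

noncomputable section

namespace Pool.Agent.PPow

theorem EtaS_odd {q : ℂ} (hq : ‖q‖ < 1) : Multipliable fun k : ℕ => 1 - q ^ (2 * k + 1) := by
  apply multipliable_one_add_of_summable (f := fun k : ℕ => -q ^ (2 * k + 1))
  have h := (summable_geometric_of_lt_one (norm_nonneg _) hq).comp_injective
    (i := fun k : ℕ => 2 * k + 1) fun a b h => by simpa using h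
  simpa [Function.comp_def] using h

theorem EtaS_sq {q : ℂ} (hq : ‖q‖ < 1) : ‖q ^ 2‖ < 1 := by
  rw [norm_pow]
  exact pow_lt_one₀ (norm_nonneg _) hq two_ne_zero

theorem EtaS_split {q : ℂ} (hq : ‖q‖ < 1) :
    eul q = (∏' k : ℕ, (1 - q ^ (2 * k + 1))) * eul (q ^ 2) := by
  have e : ∀ k : ℕ, q ^ (2 * k + 1 + 1) = (q ^ 2) ^ (k + 1) := fun k => by ring
  have h := tprod_even_mul_odd (f := fun n : ℕ => 1 - q ^ (n + 1)) (EtaS_odd hq)
    (by simpa only [e] using ModularForm.multipliable_one_sub_pow (EtaS_sq hq))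
  simp only [e] at h
  exact h.symm

theorem eul_prod {q : ℂ} (hq : ‖q‖ < 1) : eul (-q) * eul q * eul (q ^ 4) = eul (q ^ 2) ^ 3 := by
  have hq' : ‖-q‖ < 1 := by rwa [norm_neg]
  have h1 := EtaS_split hq
  have h2 := EtaS_split hq'
  have h3 := EtaS_split (EtaS_sq hq)
  have h4 := (EtaS_odd hq').tprod_mul (EtaS_odd hq)
  have e : ∀ k : ℕ, (1 - (-q) ^ (2 * k + 1)) * (1 - q ^ (2 * k + 1)) =
      1 - (q ^ 2) ^ (2 * k + 1) := fun k => by
    rw [(odd_two_mul_add_one k).neg_pow]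
    ring
  simp only [e] at h4
  rw [neg_sq] at h2
  rw [h4, ← pow_mul] at h3
  rw [h1, h2]
  linear_combination (-eul (q ^ 2) ^ 2) * h3

theorem EtaS_ne {q : ℂ} (hq : ‖q‖ < 1) : eul q ≠ 0 := by
  refine tprod_one_add_ne_zero_of_summable (f := fun n : ℕ => -q ^ (n + 1)) (fun n h => ?_) ?_
  · have h1 : q ^ (n + 1) = 1 := by linear_combination -h
    have h2 : ‖q‖ ^ (n + 1) < 1 := pow_lt_one₀ (norm_nonneg _) hq n.succ_ne_zero
    rw [← norm_pow, h1, norm_one] at h2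
    exact lt_irrefl _ h2
  · simpa using (summable_nat_add_iff 1).mpr (summable_geometric_of_lt_one (norm_nonneg _) hq)

theorem EtaS_sqrt_I {z : ℂ} (hz : 0 < z.re) : (I * z).sqrt = I.sqrt * z.sqrt := by
  have h0 : z ≠ 0 := fun h => by simp [h] at hz
  have h1 := abs_lt.1 (Complex.abs_arg_lt_pi_div_two_iff.2 (.inl hz))
  rw [sqrt_eq_exp (mul_ne_zero I_ne_zero h0), sqrt_eq_exp I_ne_zero, sqrt_eq_exp h0,
    (log_mul_eq_add_log_iff I_ne_zero h0).2 (by
      rw [arg_I]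
      constructor <;> linarith [h1.1, h1.2, Real.pi_pos]), add_div, exp_add]

theorem EtaS_sqrt_real {r : ℝ} (hr : 0 < r) {z : ℂ} (h0 : z ≠ 0) :
    ((r : ℂ) * z).sqrt = (√r : ℝ) * z.sqrt := by
  rw [sqrt_eq_exp (mul_ne_zero (ofReal_ne_zero.2 hr.ne') h0), sqrt_eq_exp h0,
    log_ofReal_mul hr h0, add_div, exp_add, Real.sqrt_eq_rpow, Real.rpow_def_of_pos hr]
  push_cast
  congr 2
  ring

theorem EtaS_sqrt_ne {z : ℂ} (h0 : z ≠ 0) : z.sqrt ≠ 0 := by
  rw [sqrt_eq_exp h0]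
  exact exp_ne_zero _

theorem inv_eta_zero {z : ℂ} (hz : 0 < z.re) :
    (ModularForm.eta (I * z))⁻¹ = fz (π / 12) z * (eul (cexp (-(2 * π / z))))⁻¹ := by
  have h0 : z ≠ 0 := fun h => by simp [h] at hz
  have hu : I * z ∈ UpperHalfPlane.upperHalfPlaneSet := by simpa using hz
  have h := ModularForm.eta_comp_eq_csqrt_I_inv hu
  simp only [Function.comp_apply, Pi.smul_apply, Pi.mul_apply, smul_eq_mul] at h
  have e1 : π * I * (-1 / (I * z)) / 12 = -(((π / 12 : ℝ) : ℂ) / z) := by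
    push_cast
    field_simp
  have e2 : 2 * π * I * (-1 / (I * z)) = -(2 * π / z) := by field_simp
  rw [eta_eq, e1, e2, EtaS_sqrt_I hz, mul_assoc, inv_mul_cancel_left₀ (EtaS_sqrt_ne I_ne_zero),
    exp_neg] at h
  have h1 := EtaS_sqrt_ne h0
  have h2 := exp_ne_zero (((π / 12 : ℝ) : ℂ) / z)
  rw [(eq_inv_mul_iff_mul_eq₀ h1).2 h.symm, fz]
  simp only [mul_inv, inv_inv, mul_assoc]

theorem EtaS_half {τ : ℂ} (hτ : 0 < τ.im) :
    ModularForm.eta (1 / 2 + τ) * ModularForm.eta τ * ModularForm.eta (4 * τ) =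
      cexp (π * I / 24) * ModularForm.eta (2 * τ) ^ 3 := by
  have hq : ‖cexp (2 * π * I * τ)‖ < 1 := by
    rw [norm_exp, Real.exp_lt_one_iff]
    simpa using mul_pos Real.two_pi_pos hτ
  have e1 : cexp (2 * π * I * (1 / 2 + τ)) = -cexp (2 * π * I * τ) := by
    rw [show 2 * π * I * (1 / 2 + τ) = 2 * π * I * τ + π * I by ring, exp_add_pi_mul_I]
  have e2 : cexp (2 * π * I * (2 * τ)) = cexp (2 * π * I * τ) ^ 2 := by
    rw [← exp_nat_mul]; congr 1; push_cast; ring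
  have e4 : cexp (2 * π * I * (4 * τ)) = cexp (2 * π * I * τ) ^ 4 := by
    rw [← exp_nat_mul]; congr 1; push_cast; ring
  have e : cexp (π * I * (1 / 2 + τ) / 12) * cexp (π * I * τ / 12) * cexp (π * I * (4 * τ) / 12) =
      cexp (π * I / 24) * cexp (π * I * (2 * τ) / 12) ^ 3 := by
    rw [← exp_nat_mul, ← exp_add, ← exp_add, ← exp_add]; congr 1; push_cast; ring
  rw [eta_eq, eta_eq, eta_eq, eta_eq, e1, e2, e4, mul_pow, ← eul_prod hq, ← mul_assoc _ (_ ^ 3),
    ← e]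
  ring

theorem inv_eta_half {z : ℂ} (hz : 0 < z.re) :
    (ModularForm.eta (1 / 2 + I * z))⁻¹ =
      cexp (-(π * I / 24)) * (√2 : ℝ) * fz (π / 48) z * (eul (-cexp (-(π / (2 * z)))))⁻¹ := by
  have h0 : z ≠ 0 := fun h => by simp [h] at hz
  have h := EtaS_half (τ := I * z) (by simpa using hz)
  have h1 := inv_eta_zero hz
  have h2 := inv_eta_zero (z := 2 * z) (by simpa using hz)
  have h4 := inv_eta_zero (z := 4 * z) (by simpa using hz)
  set Q := cexp (-(π / (2 * z))) with hQ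
  set E := cexp (((π / 48 : ℝ) : ℂ) / z) with hE
  have hq : ‖Q‖ < 1 := by
    have : (π / (2 * z) : ℂ) = ((π / 2 : ℝ) : ℂ) * z⁻¹ := by
      push_cast
      field_simp
    rw [hQ, norm_exp, Real.exp_lt_one_iff, neg_re, this, re_ofReal_mul, inv_re, neg_lt_zero]
    have := normSq_pos.2 h0
    have := Real.pi_pos
    positivity
  have q1 : cexp (-(2 * π / z)) = Q ^ 4 := by
    rw [hQ, ← exp_nat_mul]; congr 1; push_cast; field_simp; norm_num
  have q2 : cexp (-(2 * π / (2 * z))) = Q ^ 2 := by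
    rw [hQ, ← exp_nat_mul]; congr 1; push_cast; field_simp
  have q4 : cexp (-(2 * π / (4 * z))) = Q := by
    rw [hQ]; congr 1; field_simp; norm_num
  have x1 : cexp (((π / 12 : ℝ) : ℂ) / z) = E ^ 4 := by
    rw [hE, ← exp_nat_mul]; congr 1; push_cast; field_simp; norm_num
  have x2 : cexp (((π / 12 : ℝ) : ℂ) / (2 * z)) = E ^ 2 := by
    rw [hE, ← exp_nat_mul]; congr 1; push_cast; field_simp; norm_num
  have x4 : cexp (((π / 12 : ℝ) : ℂ) / (4 * z)) = E := by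
    rw [hE]; congr 1; push_cast; field_simp; norm_num
  have s2 : (2 * z).sqrt = (√2 : ℝ) * z.sqrt := by simpa using EtaS_sqrt_real two_pos h0
  have s4 : (4 * z).sqrt = 2 * z.sqrt := by
    have h := EtaS_sqrt_real (r := 4) (by norm_num) h0
    rw [show (4 : ℝ) = 2 ^ 2 by norm_num, Real.sqrt_sq zero_le_two] at h
    push_cast at h
    rw [← h]
    norm_num
  have r2 : ((√2 : ℝ) : ℂ) ^ 2 = 2 := by
    rw [← ofReal_pow, Real.sq_sqrt zero_le_two]
    norm_num
  rw [fz, q1, x1] at h1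
  rw [fz, q2, x2, s2, mul_left_comm I] at h2
  rw [fz, q4, x4, s4, mul_left_comm I] at h4
  rw [← inv_inv (ModularForm.eta (I * z)), ← inv_inv (ModularForm.eta (2 * (I * z))),
    ← inv_inv (ModularForm.eta (4 * (I * z))), h1, h2, h4] at h
  have p := eul_prod hq
  have n1 := EtaS_ne hq
  have n2 := EtaS_ne (EtaS_sq hq)
  have n3 := EtaS_ne (q := -Q) (by rwa [norm_neg])
  have n4 : eul (Q ^ 4) ≠ 0 := by
    simpa only [← pow_mul] using EtaS_ne (EtaS_sq (EtaS_sq hq))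
  have n5 := EtaS_sqrt_ne h0
  have n6 : E ≠ 0 := exp_ne_zero _
  have n7 := exp_ne_zero (π * I / 24)
  have n8 : ((√2 : ℝ) : ℂ) ≠ 0 := fun h => by simp [h] at r2
  rw [fz, ← hE, exp_neg]
  refine inv_eq_of_mul_eq_one_right ?_
  field_simp at h ⊢
  rw [← p] at h
  refine mul_right_cancel₀ (mul_ne_zero (mul_ne_zero n1 n4) two_ne_zero) ?_
  linear_combination h - ModularForm.eta ((1 + 2 * I * z) / 2) * z.sqrt * E * eul (Q ^ 4) *
    eul Q * (√2 : ℝ) * r2

end Pool.Agent.PPow
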