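import Pool.Agent.P.MP_54dcdd_nt.Defs

/-! The generating function of the partition numbers. -/

open Complex MeasureTheory
open scoped Real

noncomputable section

namespace Pool.Agent.PPow

/-- the number of partitions of `n` into parts of size at most `N` -/
def Gen_pN (N n : ℕ) : ℕ := (Nat.Partition.restricted n (· ≤ N)).card

theorem Gen_pN_le (N n : ℕ) : Gen_pN N n ≤ pn n := Finset.card_le_univ _

theorem Gen_pN_eq {N n : ℕ} (h : n ≤ N) : Gen_pN N n = pn n := by
  unfold Gen_pN pn Nat.Partition.restricted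
  rw [Finset.filter_true_of_mem, Finset.card_univ]
  intro p _ i hi
  exact (Nat.Partition.le_of_mem_parts hi).trans h

/-- the power series `F` converges absolutely at `q` with sum `v` -/
def Gen_Ev (F : PowerSeries ℂ) (q v : ℂ) : Prop :=
  Summable (fun n => ‖PowerSeries.coeff n F * q ^ n‖) ∧
    HasSum (fun n => PowerSeries.coeff n F * q ^ n) v

theorem Gen_Ev_mul {F G : PowerSeries ℂ} {q v w : ℂ} (hF : Gen_Ev F q v) (hG : Gen_Ev G q w) :
    Gen_Ev (F * G) q (v * w) := by
  have key : ∀ n : ℕ, PowerSeries.coeff n (F * G) * q ^ n =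
      ∑ kl ∈ Finset.HasAntidiagonal.antidiagonal n,
        (PowerSeries.coeff kl.1 F * q ^ kl.1) * (PowerSeries.coeff kl.2 G * q ^ kl.2) := by
    intro n
    rw [PowerSeries.coeff_mul, Finset.sum_mul]
    refine Finset.sum_congr rfl fun kl hkl => ?_
    rw [← Finset.HasAntidiagonal.mem_antidiagonal.mp hkl, pow_add]
    ring
  have hs := summable_norm_sum_mul_antidiagonal_of_summable_norm hF.1 hG.1
  refine ⟨by simpa only [key] using hs, ?_⟩
  simp only [key]
  rw [← hF.2.tsum_eq, ← hG.2.tsum_eq,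
    tsum_mul_tsum_eq_tsum_sum_antidiagonal_of_summable_norm hF.1 hG.1]
  exact hs.of_norm.hasSum

theorem Gen_Ev_one (q : ℂ) : Gen_Ev 1 q 1 := by
  have h : HasSum (fun n => PowerSeries.coeff n (1 : PowerSeries ℂ) * q ^ n) 1 := by
    have := hasSum_single (f := fun n => PowerSeries.coeff n (1 : PowerSeries ℂ) * q ^ n) 0
      (fun n hn => by simp [PowerSeries.coeff_one, hn])
    simpa using this
  exact ⟨summable_norm_iff.mpr h.summable, h⟩

theorem Gen_Ev_prod {q : ℂ} (F : ℕ → PowerSeries ℂ) (v : ℕ → ℂ) (h : ∀ i, Gen_Ev (F i) q (v i))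
    (N : ℕ) : Gen_Ev (∏ i ∈ Finset.range N, F i) q (∏ i ∈ Finset.range N, v i) := by
  induction N with
  | zero => simpa using Gen_Ev_one q
  | succ N ih =>
    rw [Finset.prod_range_succ, Finset.prod_range_succ]
    exact Gen_Ev_mul ih (h N)

open scoped PowerSeries.WithPiTopology in
theorem Gen_coeff_geo (i n : ℕ) :
    PowerSeries.coeff n (∑' j : ℕ, (PowerSeries.X : PowerSeries ℂ) ^ ((i + 1) * j)) =
      ∑' j : ℕ, if n = (i + 1) * j then 1 else 0 := by
  have hs : Summable fun j : ℕ => (PowerSeries.X : PowerSeries ℂ) ^ ((i + 1) * j) := by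
    simp_rw [pow_mul]
    exact PowerSeries.WithPiTopology.summable_pow_of_constantCoeff_eq_zero (by simp)
  rw [hs.map_tsum _ (PowerSeries.WithPiTopology.continuous_coeff ℂ n)]
  simp only [PowerSeries.coeff_X_pow]

open scoped PowerSeries.WithPiTopology in
theorem Gen_Ev_geo {q : ℂ} (hq : ‖q‖ < 1) (i : ℕ) :
    Gen_Ev (∑' j : ℕ, (PowerSeries.X : PowerSeries ℂ) ^ ((i + 1) * j)) q (1 - q ^ (i + 1))⁻¹ := by
  have hinj : Function.Injective fun j : ℕ => (i + 1) * j :=
    fun a b h => Nat.eq_of_mul_eq_mul_left (Nat.succ_pos i) h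
  have h : HasSum (fun n => PowerSeries.coeff n
      (∑' j : ℕ, (PowerSeries.X : PowerSeries ℂ) ^ ((i + 1) * j)) * q ^ n) (1 - q ^ (i + 1))⁻¹ := by
    rw [← hinj.hasSum_iff]
    · have h1 : ‖q ^ (i + 1)‖ < 1 := by
        rw [norm_pow]
        exact pow_lt_one₀ (norm_nonneg _) hq (Nat.succ_ne_zero i)
      refine (hasSum_geometric_of_norm_lt_one h1).congr_fun ?_
      intro j
      simp only [Function.comp, Gen_coeff_geo]
      rw [tsum_eq_single j]
      · simp [pow_mul]
      · intro b hb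
        rw [if_neg]
        intro h
        exact hb (hinj h).symm
    · intro n hn
      rw [Gen_coeff_geo]
      have : ∀ j : ℕ, (if n = (i + 1) * j then (1 : ℂ) else 0) = 0 := fun j =>
        if_neg fun h => hn ⟨j, h.symm⟩
      simp [this]
  exact ⟨summable_norm_iff.mpr h.summable, h⟩

open scoped PowerSeries.WithPiTopology in
theorem Gen_fin {q : ℂ} (hq : ‖q‖ < 1) (N : ℕ) :
    HasSum (fun n : ℕ => (Gen_pN N n : ℂ) * q ^ n)
      (∏ i ∈ Finset.range N, (1 - q ^ (i + 1))⁻¹) := by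
  have h1 := Nat.Partition.hasProd_powerSeriesMk_card_restricted ℂ (· ≤ N)
  have h2 : HasProd (fun i : ℕ => if i + 1 ≤ N then
      ∑' j : ℕ, (PowerSeries.X : PowerSeries ℂ) ^ ((i + 1) * j) else 1)
      (∏ i ∈ Finset.range N, if i + 1 ≤ N then
        ∑' j : ℕ, (PowerSeries.X : PowerSeries ℂ) ^ ((i + 1) * j) else 1) :=
    hasProd_prod_of_ne_finset_one fun i hi => if_neg (by simpa using hi)
  have h3 := h1.unique h2
  rw [Finset.prod_congr rfl (fun i hi => if_pos (by simpa using hi))] at h3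
  have h4 := (Gen_Ev_prod _ _ (Gen_Ev_geo hq) N).2
  rw [← h3] at h4
  simpa only [PowerSeries.coeff_mk, Gen_pN] using h4

theorem Gen_eul_ne {q : ℂ} (hq : ‖q‖ < 1) : eul q ≠ 0 := by
  unfold eul
  simp only [sub_eq_add_neg]
  refine tprod_one_add_ne_zero_of_summable (fun i => ?_) ?_
  · intro h
    have h1 : q ^ (i + 1) = 1 := by linear_combination -h
    have h2 : ‖q ^ (i + 1)‖ < 1 := by
      rw [norm_pow]
      exact pow_lt_one₀ (norm_nonneg _) hq (Nat.succ_ne_zero i)
    rw [h1] at h2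
    simp at h2
  · simp only [norm_neg, norm_pow]
    exact (summable_nat_add_iff 1).mpr (summable_geometric_of_lt_one (norm_nonneg _) hq)

theorem Gen_tendsto {q : ℂ} (hq : ‖q‖ < 1) :
    Filter.Tendsto (fun N => ∏ i ∈ Finset.range N, (1 - q ^ (i + 1))⁻¹) Filter.atTop
      (nhds (eul q)⁻¹) := by
  simp only [Finset.prod_inv_distrib]
  exact ((ModularForm.multipliable_one_sub_pow hq).hasProd.tendsto_prod_nat).inv₀ (Gen_eul_ne hq)

theorem Gen_summable {r : ℝ} (h0 : 0 ≤ r) (h1 : r < 1) :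
    Summable fun n : ℕ => (pn n : ℝ) * r ^ n := by
  have hq : ‖(r : ℂ)‖ < 1 := by rwa [Complex.norm_real, Real.norm_of_nonneg h0]
  obtain ⟨B, hB⟩ := (Gen_tendsto hq).norm.bddAbove_range
  refine summable_of_sum_range_le (c := B) (fun n => by positivity) fun N => ?_
  have h2 := Gen_fin hq N
  have h3 : HasSum (fun n : ℕ => (Gen_pN N n : ℝ) * r ^ n)
      (∏ i ∈ Finset.range N, (1 - (r : ℂ) ^ (i + 1))⁻¹).re := by
    convert Complex.hasSum_re h2 using 1
    funext n
    rw [← Complex.ofReal_pow, ← Complex.ofReal_natCast, ← Complex.ofReal_mul, Complex.ofReal_re]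
  calc ∑ n ∈ Finset.range N, (pn n : ℝ) * r ^ n
      = ∑ n ∈ Finset.range N, (Gen_pN N n : ℝ) * r ^ n :=
        Finset.sum_congr rfl fun n hn => by rw [Gen_pN_eq (Finset.mem_range.mp hn).le]
    _ ≤ _ := sum_le_hasSum _ (fun n _ => by positivity) h3
    _ ≤ _ := Complex.re_le_norm _
    _ ≤ B := hB ⟨N, rfl⟩

theorem hasSum_pn {q : ℂ} (hq : ‖q‖ < 1) :
    HasSum (fun n : ℕ => (pn n : ℂ) * q ^ n) (eul q)⁻¹ := by
  have hs := Gen_summable (norm_nonneg q) hq
  have hs' : Summable fun n : ℕ => (pn n : ℂ) * q ^ n := by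
    refine Summable.of_norm ?_
    simpa only [norm_mul, norm_pow, Complex.norm_natCast] using hs
  have h1 : Filter.Tendsto (fun N => ∑' n : ℕ, (Gen_pN N n : ℂ) * q ^ n) Filter.atTop
      (nhds (∑' n : ℕ, (pn n : ℂ) * q ^ n)) := by
    refine tendsto_tsum_of_dominated_convergence hs (fun n => ?_) (Filter.Eventually.of_forall ?_)
    · refine tendsto_const_nhds.congr' ?_
      filter_upwards [Filter.eventually_ge_atTop n] with N hN
      rw [Gen_pN_eq hN]
    · intro N n
      rw [norm_mul, norm_pow, Complex.norm_natCast]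
      exact mul_le_mul_of_nonneg_right (by exact_mod_cast Gen_pN_le N n) (by positivity)
  have h2 : Filter.Tendsto (fun N => ∑' n : ℕ, (Gen_pN N n : ℂ) * q ^ n) Filter.atTop
      (nhds (eul q)⁻¹) := by
    simp only [(Gen_fin hq _).tsum_eq]
    exact Gen_tendsto hq
  rw [← tendsto_nhds_unique h1 h2]
  exact hs'.hasSum

theorem eul_inv_bound : ∃ C : ℝ, 0 ≤ C ∧ ∀ q : ℂ, ‖q‖ ≤ 1 / 2 → ‖(eul q)⁻¹ - 1‖ ≤ C * ‖q‖ := by
  have hs := Gen_summable (r := 1 / 2) (by norm_num) (by norm_num)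
  have hs1 : Summable fun n : ℕ => (pn (n + 1) : ℝ) * (1 / 2) ^ n := by
    have := ((summable_nat_add_iff 1).mpr hs).mul_left 2
    refine this.congr fun n => ?_
    rw [pow_succ]
    ring
  refine ⟨∑' n : ℕ, (pn (n + 1) : ℝ) * (1 / 2) ^ n, tsum_nonneg fun n => by positivity,
    fun q hq => ?_⟩
  have h1 := hasSum_pn (q := q) (by linarith)
  have h0 : pn 0 = 1 := by
    unfold pn
    exact Fintype.card_unique
  have h2 : HasSum (fun n : ℕ => (pn (n + 1) : ℂ) * q ^ (n + 1)) ((eul q)⁻¹ - 1) := by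
    have := (hasSum_nat_add_iff' 1).mpr h1
    simpa [h0] using this
  refine h2.norm_le_of_bounded (hs1.hasSum.mul_right ‖q‖) fun n => ?_
  rw [norm_mul, norm_pow, Complex.norm_natCast, pow_succ, ← mul_assoc]
  gcongr

end Pool.Agent.PPow
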