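import Pool.Agent.P.MP_54dcdd_nt.Defs

/-! A Laplace transform. -/

open Complex MeasureTheory
open scoped Real

noncomputable section

namespace Pool.Agent.PPow

open Set Filter Topology

theorem LapF_norm_sqrt {z : ℂ} (hz : z ≠ 0) : ‖z.sqrt‖ = ‖z‖ ^ (1 / 2 : ℝ) := by
  rw [sqrt_eq_exp hz, norm_exp, Real.rpow_def_of_pos (norm_pos_iff.2 hz)]
  congr 1
  rw [div_ofNat_re, log_re]
  ring

theorem ft_bound {c : ℝ} (hc : 0 ≤ c) {z : ℂ} (hz : z ≠ 0) :
    ‖ft c z‖ ≤ c ^ 2 * ‖z‖ ^ (-(3 / 2) : ℝ) * Real.exp (c / ‖z‖) := by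
  have hp : 0 < ‖z‖ := norm_pos_iff.2 hz
  have h1 := norm_exp_sub_sum_le_norm_mul_exp (c / z) 2
  have h2 : ‖(c : ℂ) / z‖ = c / ‖z‖ := by rw [norm_div, norm_real, Real.norm_of_nonneg hc]
  have h3 : (∑ m ∈ Finset.range 2, ((c : ℂ) / z) ^ m / (m.factorial : ℂ)) = 1 + c / z := by
    simp [Finset.sum_range_succ]
  rw [h2, h3, ← sub_sub] at h1
  have h4 : ‖z‖ ^ (-(3 / 2) : ℝ) = ‖z‖ ^ (1 / 2 : ℝ) / ‖z‖ ^ 2 := by
    rw [← Real.rpow_natCast, ← Real.rpow_sub hp]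
    norm_num
  rw [ft, norm_mul, LapF_norm_sqrt hz, h4]
  calc ‖z‖ ^ (1 / 2 : ℝ) * ‖cexp (c / z) - 1 - c / z‖
      ≤ ‖z‖ ^ (1 / 2 : ℝ) * ((c / ‖z‖) ^ 2 * Real.exp (c / ‖z‖)) :=
        mul_le_mul_of_nonneg_left h1 (by positivity)
    _ = _ := by field_simp

theorem LapF_exp1 (w : ℝ) : |Real.exp w - 1| ≤ |w| * Real.exp |w| := by
  have h := norm_exp_sub_sum_le_norm_mul_exp (w : ℂ) 1
  simp only [Finset.range_one, Finset.sum_singleton, pow_zero, Nat.factorial_zero, Nat.cast_one,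
    div_one, pow_one, norm_real, Real.norm_eq_abs] at h
  rwa [← ofReal_exp, ← ofReal_one, ← ofReal_sub, norm_real, Real.norm_eq_abs] at h

theorem LapF_exp2 (w : ℝ) : |Real.exp w - 1 - w| ≤ w ^ 2 * Real.exp |w| := by
  have h := norm_exp_sub_sum_le_norm_mul_exp (w : ℂ) 2
  have h3 : (∑ m ∈ Finset.range 2, (w : ℂ) ^ m / (m.factorial : ℂ)) = 1 + w := by
    simp [Finset.sum_range_succ]
  rw [h3, ← sub_sub, norm_real, Real.norm_eq_abs, sq_abs] at h
  rwa [← ofReal_exp, ← ofReal_one, ← ofReal_sub, ← ofReal_sub, norm_real, Real.norm_eq_abs] at h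

theorem LapF_sinh {w : ℝ} (hw : 0 ≤ w) : |Real.sinh w| ≤ w * Real.exp w := by
  have h1 := LapF_exp1 w
  have h2 := LapF_exp1 (-w)
  rw [abs_neg] at h2
  rw [abs_of_nonneg hw] at h1 h2
  rw [Real.sinh_eq, abs_le] at *
  constructor <;> linarith [h1.1, h1.2, h2.1, h2.2]

theorem LapF_cosh {w : ℝ} (hw : 0 ≤ w) : |Real.cosh w - 1| ≤ w ^ 2 * Real.exp w := by
  have h1 := LapF_exp2 w
  have h2 := LapF_exp2 (-w)
  rw [abs_neg, neg_sq] at h2
  rw [abs_of_nonneg hw] at h1 h2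
  rw [Real.cosh_eq, abs_le] at *
  constructor <;> linarith [h1.1, h1.2, h2.1, h2.2]

/-- the bracket in `al` -/
def LapF_g (w : ℝ) : ℝ := 2 * Real.sinh w / w - 2 * (Real.cosh w - 1) / w ^ 2 - 1

theorem LapF_g_bound {w : ℝ} (hw : 0 < w) : |LapF_g w| ≤ 5 * Real.exp w := by
  have h1 : |2 * Real.sinh w / w| ≤ 2 * Real.exp w := by
    rw [abs_div, abs_mul, abs_two, abs_of_pos hw, div_le_iff₀ hw]
    linarith [LapF_sinh hw.le]
  have h2 : |2 * (Real.cosh w - 1) / w ^ 2| ≤ 2 * Real.exp w := by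
    rw [abs_div, abs_mul, abs_two, abs_of_pos (pow_pos hw 2), div_le_iff₀ (pow_pos hw 2)]
    linarith [LapF_cosh hw.le]
  have h3 : 1 ≤ Real.exp w := Real.one_le_exp hw.le
  rw [LapF_g, abs_le] at *
  constructor <;> linarith [h1.1, h1.2, h2.1, h2.2]

theorem LapF_al_sq {c x : ℝ} (hx : 0 < x) :
    2 * x * al c (x ^ 2) = 2 * c / √π * LapF_g (2 * √c * x) := by
  have h1 : √(π * x ^ 2) = √π * x := by
    rw [Real.sqrt_mul Real.pi_pos.le, Real.sqrt_sq hx.le]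
  have h2 : 2 * √(c * x ^ 2) = 2 * √c * x := by
    rw [Real.sqrt_mul' _ (sq_nonneg x), Real.sqrt_sq hx.le, mul_assoc]
  have h3 : 0 < √π := Real.sqrt_pos.2 Real.pi_pos
  rw [al, h1, h2, LapF_g]
  generalize 2 * Real.sinh (2 * √c * x) / (2 * √c * x) -
    2 * (Real.cosh (2 * √c * x) - 1) / (2 * √c * x) ^ 2 - 1 = t
  field_simp

theorem LapF_int_quad {z : ℂ} (hz : 0 < z.re) (b : ℂ) :
    Integrable fun x : ℝ => cexp (-z * x ^ 2 + b * x) := by
  simpa using integrable_cexp_quadratic hz b 0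

/-- a function bounded by an exponential is integrable against a Gaussian -/
theorem LapF_int {z : ℂ} (hz : 0 < z.re) {u : ℝ → ℝ} (hu : Measurable u) {K b : ℝ}
    (h : ∀ x, 0 < x → |u x| ≤ K * Real.exp (b * x)) :
    IntegrableOn (fun x : ℝ => (u x : ℂ) * cexp (-z * x ^ 2)) (Ioi 0) := by
  refine Integrable.mono' (((LapF_int_quad hz b).norm.const_mul K).integrableOn) ?_ ?_
  · refine Measurable.aestronglyMeasurable ?_
    fun_prop
  · refine (ae_restrict_iff' measurableSet_Ioi).2 (Eventually.of_forall fun x hx => ?_)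
    rw [norm_mul, norm_real, Real.norm_eq_abs, Complex.exp_add, norm_mul, ← ofReal_mul,
      ← ofReal_exp, norm_real, Real.norm_of_nonneg (Real.exp_pos _).le]
    calc |u x| * ‖cexp (-z * x ^ 2)‖ ≤ K * Real.exp (b * x) * ‖cexp (-z * x ^ 2)‖ :=
          mul_le_mul_of_nonneg_right (h x hx) (norm_nonneg _)
      _ = _ := by ring

theorem LapF_g_meas (a : ℝ) : Measurable fun x : ℝ => LapF_g (a * x) := by
  unfold LapF_g
  fun_prop

theorem LapF_int_g {z : ℂ} (hz : 0 < z.re) {a : ℝ} (ha : 0 < a) :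
    IntegrableOn (fun x : ℝ => (LapF_g (a * x) : ℂ) * cexp (-z * x ^ 2)) (Ioi 0) :=
  LapF_int hz (LapF_g_meas a) fun _ hx => LapF_g_bound (mul_pos ha hx)

theorem LapF_sub {c : ℝ} (z : ℂ) {x : ℝ} (hx : x ∈ Ioi (0 : ℝ)) :
    (|(2 : ℝ)| * x ^ ((2 : ℝ) - 1)) • ((al c (x ^ (2 : ℝ)) : ℂ) * cexp (-((x ^ (2 : ℝ) : ℝ) * z))) =
      ((2 * c / √π : ℝ) : ℂ) * ((LapF_g (2 * √c * x) : ℂ) * cexp (-z * x ^ 2)) := by
  rw [abs_two, show (2 : ℝ) - 1 = 1 by norm_num, Real.rpow_one, Real.rpow_two, real_smul,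
    ← mul_assoc, ← mul_assoc, ← ofReal_mul, ← ofReal_mul, LapF_al_sq hx]
  congr 2
  push_cast
  ring

theorem LapF_int_al {c : ℝ} (hc : 0 < c) {z : ℂ} (hz : 0 < z.re) :
    IntegrableOn (fun s : ℝ => (al c s : ℂ) * cexp (-(s * z))) (Ioi 0) := by
  refine (integrableOn_Ioi_comp_rpow_iff _ (p := 2) two_ne_zero).1 ?_
  refine IntegrableOn.congr_fun ?_ (fun x hx => (LapF_sub z hx).symm) measurableSet_Ioi
  exact (LapF_int_g hz (by positivity)).const_mul _

theorem integrableOn_al {c y : ℝ} (hc : 0 < c) (hy : 0 < y) :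
    IntegrableOn (fun s : ℝ => al c s * Real.exp (-(s * y))) (Set.Ioi 0) := by
  have h := (LapF_int_al hc (z := y) (by simpa using hy)).re
  refine IntegrableOn.congr_fun h (fun s _ => ?_) measurableSet_Ioi
  rw [← ofReal_mul, ← ofReal_neg, ← ofReal_exp, ← ofReal_mul]
  exact ofReal_re _

theorem LapF_root {z : ℂ} (hz : 0 < z.re) :
    ((π : ℂ) / z) ^ (1 / 2 : ℂ) = (√π : ℝ) * z.sqrt / z := by
  have h0 : z ≠ 0 := fun h => by simp [h] at hz
  have ha : z.arg ≠ π := fun h => by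
    have := (arg_eq_pi_iff.1 h).1
    linarith
  have hp : (π : ℂ) ≠ 0 := ofReal_ne_zero.2 Real.pi_ne_zero
  have h1 : ((√π : ℝ) : ℂ) = cexp (Real.log π / 2) := by
    rw [Real.sqrt_eq_rpow, Real.rpow_def_of_pos Real.pi_pos, ofReal_exp]
    congr 1
    push_cast
    ring
  rw [cpow_def_of_ne_zero (div_ne_zero hp h0), div_eq_mul_inv,
    log_ofReal_mul Real.pi_pos (inv_ne_zero h0), log_inv z ha, sqrt_eq_exp h0, h1,
    eq_div_iff h0]
  nth_rewrite 2 [← exp_log h0]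
  rw [← Complex.exp_add, ← Complex.exp_add]
  congr 1
  ring

theorem LapF_cosh_le {w : ℝ} (hw : 0 ≤ w) : |Real.cosh w| ≤ 1 * Real.exp w := by
  have : Real.exp (-w) ≤ Real.exp w := Real.exp_le_exp.2 (by linarith)
  rw [abs_of_pos (Real.cosh_pos w), Real.cosh_eq]
  linarith

theorem LapF_gauss {z : ℂ} (hz : 0 < z.re) (a : ℝ) :
    ∫ x in Ioi (0 : ℝ), (Real.cosh (a * x) : ℂ) * cexp (-z * x ^ 2) =
      (√π : ℝ) * z.sqrt / z * cexp (a ^ 2 / (4 * z)) / 2 := by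
  have h1 := integral_cexp_quadratic (b := -z) (by simpa using hz) a 0
  have i1 := LapF_int_quad hz a
  have i2 := LapF_int_quad hz (-a)
  have h2 := integral_comp_neg_Ioi 0 fun x : ℝ => cexp (-z * x ^ 2 + a * x)
  simp only [add_zero, neg_neg, zero_sub, mul_neg, div_neg] at h1
  rw [neg_zero] at h2
  rw [← LapF_root hz, ← h1, ← intervalIntegral.integral_Iic_add_Ioi (b := 0) i1.integrableOn
    i1.integrableOn, ← h2]
  have h3 : ∫ x in Ioi (0 : ℝ), cexp (-z * ((-x : ℝ) : ℂ) ^ 2 + a * ((-x : ℝ) : ℂ)) =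
      ∫ x in Ioi (0 : ℝ), cexp (-z * x ^ 2 + -a * x) := by
    congr 1
    funext x
    congr 1
    push_cast
    ring
  rw [h3, ← integral_add i2.integrableOn i1.integrableOn, ← integral_div]
  congr 1
  funext x
  rw [Real.cosh_eq, Complex.exp_add, Complex.exp_add]
  push_cast
  rw [neg_mul (a : ℂ)]
  ring

theorem LapF_deriv (z : ℂ) {a : ℝ} (ha : 0 < a) {x : ℝ} (hx : 0 < x) :
    HasDerivAt (fun x : ℝ => (((Real.cosh (a * x) - 1) / x : ℝ) : ℂ) * cexp (-z * x ^ 2))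
      (((a ^ 2 / 2 : ℝ) : ℂ) * ((LapF_g (a * x) : ℂ) * cexp (-z * x ^ 2)) +
        ((a ^ 2 / 2 : ℝ) + 2 * z) * ((Real.cosh (0 * x) : ℂ) * cexp (-z * x ^ 2)) -
        2 * z * ((Real.cosh (a * x) : ℂ) * cexp (-z * x ^ 2))) x := by
  have h1 : HasDerivAt (fun x : ℝ => (Real.cosh (a * x) - 1) / x)
      (a ^ 2 / 2 * (LapF_g (a * x) + 1)) x := by
    have h := ((((hasDerivAt_id x).const_mul a).cosh).sub_const 1).div (hasDerivAt_id x) hx.ne'
    refine h.congr_deriv ?_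
    simp only [LapF_g, id]
    field_simp
    ring
  have h2 : HasDerivAt (fun x : ℝ => cexp (-z * x ^ 2)) (cexp (-z * x ^ 2) * (-z * (2 * x))) x := by
    have h : HasDerivAt (fun w : ℂ => cexp (-z * w ^ 2)) (cexp (-z * x ^ 2) * (-z * (2 * x)))
        (x : ℂ) := by
      simpa using ((hasDerivAt_pow 2 (x : ℂ)).const_mul (-z)).cexp
    exact h.comp_ofReal
  have hx' : (x : ℂ) ≠ 0 := ofReal_ne_zero.2 hx.ne'
  refine (h1.ofReal_comp.mul h2).congr_deriv ?_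
  rw [zero_mul, Real.cosh_zero]
  generalize Real.cosh (a * x) = u
  push_cast
  field_simp
  ring

theorem LapF_main {z : ℂ} (hz : 0 < z.re) {a : ℝ} (ha : 0 < a) :
    ((a ^ 2 / 2 : ℝ) : ℂ) * ∫ x in Ioi (0 : ℝ), (LapF_g (a * x) : ℂ) * cexp (-z * x ^ 2) =
      (√π : ℝ) * z.sqrt * (cexp (a ^ 2 / (4 * z)) - 1 - a ^ 2 / (4 * z)) := by
  have h0 : z ≠ 0 := fun h => by simp [h] at hz
  have ic : ∀ b : ℝ, 0 ≤ b →
      IntegrableOn (fun x : ℝ => (Real.cosh (b * x) : ℂ) * cexp (-z * x ^ 2)) (Ioi 0) :=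
    fun b hb => LapF_int hz (by fun_prop) fun x hx => LapF_cosh_le (mul_nonneg hb hx.le)
  have i1 := (LapF_int_g hz ha).const_mul ((a ^ 2 / 2 : ℝ) : ℂ)
  have i2 := (ic 0 le_rfl).const_mul (((a ^ 2 / 2 : ℝ) : ℂ) + 2 * z)
  have i3 := (ic a ha.le).const_mul (2 * z)
  have hb : ∀ x : ℝ, 0 < x → |(Real.cosh (a * x) - 1) / x| ≤ a ^ 2 * x * Real.exp (a * x) :=
    fun x hx => by
      rw [abs_div, abs_of_pos hx, div_le_iff₀ hx]
      exact (LapF_cosh (mul_pos ha hx).le).trans_eq (by ring)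
  have i4 : IntegrableOn
      (fun x : ℝ => (((Real.cosh (a * x) - 1) / x : ℝ) : ℂ) * cexp (-z * x ^ 2)) (Ioi 0) := by
    refine LapF_int hz (by fun_prop) (K := a ^ 2) (b := a + 1) fun x hx => (hb x hx).trans ?_
    rw [add_mul, Real.exp_add, one_mul, mul_assoc, mul_comm x]
    have : x ≤ Real.exp x := by linarith [Real.add_one_le_exp x]
    gcongr
  have hcont : ContinuousWithinAt
      (fun x : ℝ => (((Real.cosh (a * x) - 1) / x : ℝ) : ℂ) * cexp (-z * x ^ 2)) (Ici 0) 0 := by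
    refine ContinuousWithinAt.mul (continuous_ofReal.continuousAt.comp_continuousWithinAt ?_)
      (Continuous.continuousWithinAt (by fun_prop))
    rw [← continuousWithinAt_Ioi_iff_Ici, ContinuousWithinAt, div_zero]
    refine squeeze_zero_norm' (a := fun x => a ^ 2 * x * Real.exp (a * x))
      (eventually_nhdsWithin_of_forall hb) (tendsto_nhdsWithin_of_tendsto_nhds ?_)
    have : Continuous fun x : ℝ => a ^ 2 * x * Real.exp (a * x) := by fun_prop
    simpa using this.tendsto 0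
  have key := integral_Ioi_of_hasDerivAt_of_tendsto hcont (fun x hx => LapF_deriv z ha hx)
    ((i1.add i2).sub i3) (tendsto_zero_of_hasDerivAt_of_integrableOn_Ioi
      (fun x hx => LapF_deriv z ha hx) ((i1.add i2).sub i3) i4)
  rw [integral_sub (i1.fun_add i2) i3, integral_add i1 i2, integral_const_mul, integral_const_mul,
    integral_const_mul, LapF_gauss hz, LapF_gauss hz] at key
  simp only [div_zero, ofReal_zero, zero_mul, sub_zero, ne_eq, OfNat.ofNat_ne_zero,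
    not_false_eq_true, zero_pow, zero_div, Complex.exp_zero] at key
  generalize (∫ x in Ioi (0 : ℝ), (LapF_g (a * x) : ℂ) * cexp (-z * x ^ 2)) = J at key ⊢
  generalize cexp (a ^ 2 / (4 * z)) = e at key ⊢
  push_cast at key ⊢
  field_simp at key ⊢
  linear_combination 2 * key

theorem laplace_al {c : ℝ} (hc : 0 < c) {z : ℂ} (hz : 0 < z.re) :
    ∫ s in Set.Ioi (0 : ℝ), (al c s : ℂ) * cexp (-(s * z)) = ft c z := by
  have hs : (2 * √c) ^ 2 = 4 * c := by rw [mul_pow, Real.sq_sqrt hc.le]; norm_num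
  have hp : ((√π : ℝ) : ℂ) ≠ 0 := ofReal_ne_zero.2 (Real.sqrt_pos.2 Real.pi_pos).ne'
  have h := LapF_main hz (a := 2 * √c) (by positivity)
  have he : (((2 * √c : ℝ) : ℂ)) ^ 2 / (4 * z) = c / z := by
    rw [← ofReal_pow, hs]
    push_cast
    rw [mul_div_mul_left _ _ (by norm_num)]
  rw [he, hs] at h
  rw [← integral_comp_rpow_Ioi _ (p := 2) two_ne_zero,
    setIntegral_congr_fun measurableSet_Ioi fun x hx => LapF_sub z hx, integral_const_mul, ft]
  generalize (∫ x in Ioi (0 : ℝ), (LapF_g (2 * √c * x) : ℂ) * cexp (-z * x ^ 2)) = J at h ⊢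
  rw [ofReal_div, div_mul_eq_mul_div, div_eq_iff hp]
  push_cast at h ⊢
  linear_combination h

end Pool.Agent.PPow
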