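import Pool.Agent.P.MP_54dcdd_nt.Gfun

/-! Large exponents: counting the powers. -/

open Complex MeasureTheory
open scoped Real

noncomputable section

namespace Pool.Agent.PPow

theorem LargeK_mono {ℓ : ℂ → ℂ} {a R : ℝ} (h : LG ℓ a R) {t t' : ℝ} (ht : |t| < R)
    (ht' : |t'| < R) (hl : t ≤ t') : 7 / 8 * a * (t' - t) ≤ (ℓ t').re - (ℓ t).re := by
  have hd : ∀ w ∈ Metric.ball (0 : ℂ) R,
      HasDerivAt (fun z => ℓ z - a * z) (deriv ℓ w - a) w := fun w hw => by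
    simpa using (h.diff.differentiableAt
      (Metric.isOpen_ball.mem_nhds hw)).hasDerivAt.fun_sub ((hasDerivAt_id w).const_mul (a : ℂ))
  have h1 := (convex_ball (0 : ℂ) R).norm_image_sub_le_of_norm_deriv_le
    (f := fun z => ℓ z - a * z) (C := a / 8) (x := t) (y := t')
    (fun w hw => (hd w hw).differentiableAt) (fun w hw => by rw [(hd w hw).deriv]; exact h.der w hw)
    (by simpa using ht) (by simpa using ht')
  have h2 := (abs_le.1 ((abs_re_le_norm _).trans h1)).1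
  rw [← ofReal_sub, norm_real, Real.norm_of_nonneg (sub_nonneg.2 hl)] at h2
  simp only [sub_re, mul_re, ofReal_re, ofReal_im, mul_zero, sub_zero] at h2
  linarith

theorem LargeK_ev {β κ : ℝ} (hβ : β < 1) (hκ : 0 < κ) (c : ℝ) : ∀ᶠ x : ℝ in Filter.atTop,
    1 ≤ x ∧ c ≤ x ∧ c ≤ √x ∧ x ^ β < (x - 1 / 24) / 40 ∧ √x * Real.exp (-(κ * √x)) < 1 / 10 := by
  have h1 : ∀ᶠ x : ℝ in Filter.atTop, x ^ (-(1 - β)) < 1 / 80 :=
    (tendsto_rpow_neg_atTop (sub_pos.2 hβ)).eventually (gt_mem_nhds (by norm_num))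
  have h2 : Filter.Tendsto (fun u : ℝ => u * Real.exp (-(κ * u))) Filter.atTop (nhds 0) := by
    simpa using tendsto_rpow_mul_exp_neg_mul_atTop_nhds_zero 1 κ hκ
  filter_upwards [Filter.eventually_ge_atTop 1, Filter.eventually_ge_atTop c,
    Real.tendsto_sqrt_atTop.eventually_ge_atTop c, h1,
    (h2.comp Real.tendsto_sqrt_atTop).eventually (gt_mem_nhds (show (0 : ℝ) < 1 / 10 by norm_num))]
    with x k1 k2 k3 k4 k5
  refine ⟨k1, k2, k3, ?_, k5⟩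
  have e : x ^ β = x ^ (-(1 - β)) * x := by
    rw [← Real.rpow_add_one (by linarith : x ≠ 0)]
    congr 1
    ring
  rw [e]
  nlinarith

theorem LargeK_size {x ε : ℝ} {k m : ℕ} (hx : 1 ≤ x) (hε : 0 < ε) (h1 : (1 : ℝ) < (m : ℝ) ^ k)
    (h2 : (m : ℝ) ^ k ≤ Real.exp (6 * √x)) (h3 : 6 / ε * √x < k * Real.log x) :
    (k : ℝ) ≤ 12 * √x ∧ (m : ℝ) ≤ x ^ ε := by
  have hm : 2 ≤ m := by
    by_contra h
    have : (m : ℝ) ≤ 1 := by exact_mod_cast (by omega : m ≤ 1)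
    exact absurd (pow_le_one₀ m.cast_nonneg this) (not_le.2 h1)
  have hm' : (2 : ℝ) ≤ m := by exact_mod_cast hm
  have h4 : k * Real.log m ≤ 6 * √x := by
    rw [← Real.log_pow]
    exact (Real.log_le_iff_le_exp (by linarith)).2 h2
  have h5 : 1 / 2 ≤ Real.log m :=
    le_trans (by linarith [Real.log_two_gt_d9]) (Real.log_le_log two_pos hm')
  have hk : (0 : ℝ) ≤ k := k.cast_nonneg
  refine ⟨by nlinarith, ?_⟩
  rw [Real.le_rpow_iff_log_le (by linarith) (by linarith)]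
  rw [div_mul_eq_mul_div, div_lt_iff₀ hε] at h3
  refine le_of_mul_le_mul_left (a := (k : ℝ)) (by linarith) (hk.lt_of_ne fun h => ?_)
  rw [← h] at h3
  have := Real.sqrt_nonneg x
  linarith

theorem large_k {β κ ε : ℝ} (hβ : β < 1) (hκ : 0 < κ) (hε : 0 < ε) :
    ∃ (C₀ C : ℝ) (X₀ : ℕ), 0 < C₀ ∧ ∀ (x₀ : ℕ) (s : ℝ), X₀ ≤ x₀ → |s| ≤ 1 →
      ({t : ℕ | (t : ℝ) ≤ (x₀ : ℝ) ^ β ∧
        ∃ k : ℕ, C₀ * √(x₀ : ℝ) < k * Real.log x₀ ∧ Near s κ x₀ k t}.ncard : ℝ) ≤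
        C * (x₀ : ℝ) ^ (1 / 2 + ε) := by
  obtain ⟨m₀, hm₀⟩ := Gm_bounds
  obtain ⟨X, hX⟩ := exists_LG
  obtain ⟨m₁, hm₁⟩ := Filter.eventually_atTop.1
    ((Real.tendsto_exp_div_pow_atTop 3).eventually_gt_atTop 2)
  obtain ⟨X₀, hX₀⟩ := Filter.eventually_atTop.1
    (tendsto_natCast_atTop_atTop.eventually (LargeK_ev hβ hκ (max X (max m₀ m₁))))
  refine ⟨6 / ε, 26, X₀, by positivity, fun x₀ s hx hs => ?_⟩
  obtain ⟨k1, k2, k3, k4, k5⟩ := hX₀ x₀ hx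
  obtain ⟨ℓ, hℓ, hG⟩ := hX x₀ s 1 ((le_max_left _ _).trans k2) hs one_pos
  set S := {t : ℕ | (t : ℝ) ≤ (x₀ : ℝ) ^ β ∧
    ∃ k : ℕ, 6 / ε * √(x₀ : ℝ) < k * Real.log x₀ ∧ Near s κ x₀ k t} with hS
  have hc : ∀ t ∈ S, ∃ k m : ℕ, 6 / ε * √(x₀ : ℝ) < k * Real.log x₀ ∧
      |(m : ℝ) ^ k - Gm s (mu ((x₀ : ℝ) + t))| ≤
        Real.exp (-(κ * mu x₀)) * Gm s (mu ((x₀ : ℝ) + t)) :=
    fun t ⟨_, k, hk, m, hm⟩ => ⟨k, m, hk, hm⟩
  choose! k m hk hm using hc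
  have q1 : 1 ≤ √(x₀ : ℝ) := Real.one_le_sqrt.2 k1
  have b := mu_bounds k1
  set e := Real.exp (-(κ * mu x₀)) with he
  have e0 : 0 < e := Real.exp_pos _
  have e1 : √(x₀ : ℝ) * e < 1 / 10 := by
    refine lt_of_le_of_lt (mul_le_mul_of_nonneg_left (Real.exp_le_exp.2 ?_) (by linarith)) k5
    linarith [mul_le_mul_of_nonneg_left b.1 hκ.le]
  have e2 : e ≤ 1 / 10 := by nlinarith
  have hR : ∀ t ∈ S, |(t : ℝ)| < ((x₀ : ℝ) - 1 / 24) / 40 := fun t ht => by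
    rw [Nat.abs_cast]
    exact ht.1.trans_lt k4
  have hB : ∀ t ∈ S, 2 < Gm s (mu ((x₀ : ℝ) + t)) ∧
      2 * Gm s (mu ((x₀ : ℝ) + t)) ≤ Real.exp (6 * √(x₀ : ℝ)) := fun t ht => by
    have t0 : (0 : ℝ) ≤ t := t.cast_nonneg
    have h1 : max X (max m₀ m₁) ≤ mu ((x₀ : ℝ) + t) :=
      k3.trans (b.1.trans (mu_mono (by linarith)))
    have h2 := hm₀ _ s (((le_max_left _ _).trans (le_max_right _ _)).trans h1) hs
    refine ⟨(hm₁ _ (((le_max_right _ _).trans (le_max_right _ _)).trans h1)).trans_le h2.1, ?_⟩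
    have h3 : √((x₀ : ℝ) + t) ≤ 3 / 2 * √(x₀ : ℝ) := by
      rw [Real.sqrt_le_left (by positivity), mul_pow, Real.sq_sqrt (by linarith)]
      linarith [(abs_lt.1 (hR t ht)).2]
    have h4 := (mu_bounds (x := (x₀ : ℝ) + t) (by linarith)).2
    calc _ ≤ Real.exp 1 * Real.exp (mu ((x₀ : ℝ) + t)) :=
          mul_le_mul (by linarith [Real.add_one_le_exp 1]) h2.2
            ((by positivity : (0 : ℝ) ≤ 2).trans ((hm₁ _ (((le_max_right _ _).trans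
              (le_max_right _ _)).trans h1)).le.trans h2.1)) (Real.exp_pos _).le
      _ ≤ _ := by
          rw [← Real.exp_add]
          exact Real.exp_le_exp.2 (by linarith)
  have key : ∀ t ∈ S, ∀ t' ∈ S, t < t' → (m t : ℝ) ^ k t ≠ (m t' : ℝ) ^ k t' := by
    intro t ht t' ht' hl hv
    have hl' : (t : ℝ) + 1 ≤ t' := by exact_mod_cast hl
    have h1 := LargeK_mono hℓ (hR t ht) (hR t' ht') (by linarith)
    have ha := hℓ.ha
    set a := mu x₀ / (2 * ((x₀ : ℝ) - 1 / 24) * 1) with had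
    have a1 : 1 / 2 ≤ a * √(x₀ : ℝ) := by
      rw [had, div_mul_eq_mul_div, le_div_iff₀ (by linarith)]
      nlinarith [Real.mul_self_sqrt (show (0 : ℝ) ≤ x₀ by linarith)]
    have g := (hG t (hR t ht)).2
    have g' := (hG t' (hR t' ht')).2
    have h2 : Gm s (mu ((x₀ : ℝ) + t')) =
        Gm s (mu ((x₀ : ℝ) + t)) * Real.exp ((ℓ (t' : ℝ)).re - (ℓ (t : ℝ)).re) := by
      rw [g, g', mul_assoc, ← Real.exp_add]
      congr 2
      ring
    have h3 : 1 + 7 / 8 * a ≤ Real.exp ((ℓ (t' : ℝ)).re - (ℓ (t : ℝ)).re) := by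
      nlinarith [Real.add_one_le_exp ((ℓ (t' : ℝ)).re - (ℓ (t : ℝ)).re)]
    have h4 := (abs_le.1 (hm t ht)).2
    have h5 := (abs_le.1 (hm t' ht')).1
    have h6 := (hB t ht).1
    rw [← hv, h2] at h5
    set G := Gm s (mu ((x₀ : ℝ) + t))
    set u := Real.exp ((ℓ (t' : ℝ)).re - (ℓ (t : ℝ)).re)
    have h7 : u * (1 - e) ≤ 1 + e :=
      le_of_mul_le_mul_left (a := G) (by linarith) (by linarith)
    have h8 : (1 + 7 / 8 * a) * (1 - e) ≤ 1 + e :=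
      (mul_le_mul_of_nonneg_right h3 (by linarith)).trans h7
    have h9 : 7 / 8 * a * (9 / 10) ≤ 2 * e := by nlinarith
    nlinarith [mul_le_mul_of_nonneg_right h9 (by linarith : 0 ≤ √(x₀ : ℝ))]
  have hsz : ∀ t ∈ S, (k t : ℝ) ≤ 12 * √(x₀ : ℝ) ∧ (m t : ℝ) ≤ (x₀ : ℝ) ^ ε := fun t ht => by
    obtain ⟨h1, h2⟩ := abs_le.1 (hm t ht)
    obtain ⟨h3, h4⟩ := hB t ht
    exact LargeK_size k1 hε (by nlinarith) (by nlinarith) (hk t ht)
  have hcard := Set.ncard_le_ncard_of_injOn (s := S) (t := ↑(Finset.range (⌊12 * √(x₀ : ℝ)⌋₊ + 1) ×ˢ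
      Finset.range (⌊(x₀ : ℝ) ^ ε⌋₊ + 1))) (fun t => (k t, m t))
    (fun t ht => by
      simp only [Finset.coe_product, Finset.coe_range, Set.mem_prod, Set.mem_Iio, Nat.lt_succ_iff]
      exact ⟨Nat.le_floor (hsz t ht).1, Nat.le_floor (hsz t ht).2⟩)
    (fun t ht t' ht' h => by
      obtain ⟨h1, h2⟩ := Prod.mk.inj h
      rcases lt_trichotomy t t' with h3 | h3 | h3
      · exact absurd (by rw [h1, h2]) (key t ht t' ht' h3)
      · exact h3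
      · exact absurd (by rw [h1, h2]) (key t' ht' t ht h3)) (Finset.finite_toSet _)
  rw [Set.ncard_coe_finset, Finset.card_product, Finset.card_range, Finset.card_range] at hcard
  have r1 : 1 ≤ (x₀ : ℝ) ^ ε := Real.one_le_rpow k1 hε.le
  have f1 := Nat.floor_le (show 0 ≤ 12 * √(x₀ : ℝ) by linarith)
  have f2 := Nat.floor_le (show 0 ≤ (x₀ : ℝ) ^ ε by linarith)
  calc (S.ncard : ℝ) ≤ (⌊12 * √(x₀ : ℝ)⌋₊ + 1 : ℝ) * (⌊(x₀ : ℝ) ^ ε⌋₊ + 1 : ℝ) := by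
        exact_mod_cast hcard
    _ ≤ (13 * √(x₀ : ℝ)) * (2 * (x₀ : ℝ) ^ ε) :=
        mul_le_mul (by linarith) (by linarith) (by positivity) (by positivity)
    _ = _ := by
        rw [Real.rpow_add (by linarith), Real.sqrt_eq_rpow]
        ring

end Pool.Agent.PPow
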