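import Pool.Agent.P.MP_54dcdd_nt.PartB

/-! Partition numbers close to perfect powers. -/

open Complex MeasureTheory
open scoped Real

noncomputable section

namespace Pool.Agent.PPow

theorem PartA_small (A : ℝ) {g : ℝ} (hg : 0 < g) : ∀ᶠ δ in nhdsWithin (0 : ℝ) (Set.Ioi 0),
    A * δ < g := by
  have h : Filter.Tendsto (fun δ : ℝ => A * δ) (nhds 0) (nhds (A * 0)) :=
    (continuous_const.mul continuous_id).tendsto 0
  rw [mul_zero] at h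
  exact (h.eventually_lt_const hg).filter_mono nhdsWithin_le_nhds

theorem PartA_par {γ : ℝ} (hγ : 1 < γ) : ∃ (u : ℕ) (σ δ : ℝ), 1 ≤ u ∧ 0 < σ ∧ 0 < δ ∧ δ < 1 / 2 ∧
    ((u : ℝ) ^ 2 + 1) / 2 * δ + ((u : ℝ) + 1) ^ 2 * δ / 2 + 1 / σ < u / 2 ∧
    ((u : ℝ) + 4) * σ * (1 / 2 + 3 * δ) < γ := by
  obtain ⟨u, hu⟩ := exists_nat_gt (4 / (γ - 1))
  have h1 : 0 < γ - 1 := sub_pos.2 hγ
  have h2 : (0 : ℝ) < u := (div_pos four_pos h1).trans hu
  have h3 := (div_lt_iff₀ h1).1 hu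
  obtain ⟨σ, h4, h5⟩ := exists_between (show 2 / (u : ℝ) < 2 * γ / (u + 4) by
    rw [div_lt_div_iff₀ h2 (by positivity)]
    linarith)
  have h6 : 0 < σ := (div_pos two_pos h2).trans h4
  have h7 : 0 < (u : ℝ) / 2 - 1 / σ := by
    rw [sub_pos, div_lt_div_iff₀ h6 two_pos]
    linarith [(div_lt_iff₀ h2).1 h4]
  have h8 : 0 < γ - ((u : ℝ) + 4) * σ / 2 := by
    linarith [(lt_div_iff₀ (by positivity)).1 h5]
  obtain ⟨δ, ⟨⟨a, b⟩, c⟩, d⟩ :=
    ((((PartA_small (((u : ℝ) ^ 2 + 1) / 2 + ((u : ℝ) + 1) ^ 2 / 2) h7).and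
      (PartA_small (3 * (((u : ℝ) + 4) * σ)) h8)).and (PartA_small 1 one_half_pos)).and
        self_mem_nhdsWithin).exists
  exact ⟨u, σ, δ, Nat.cast_pos.1 h2, h6, d, by linarith, by linarith, by linarith⟩

theorem PartA_fin (X : ℝ) (P : ℕ → Prop) : {n : ℕ | (n : ℝ) ≤ X ∧ P n}.Finite :=
  (Set.finite_le_nat ⌊X⌋₊).subset fun _ hn => Nat.le_floor hn.1

theorem PartA_mid {K : ℕ} (hK : 2 ≤ K) {θ : ℝ} (hθ : θ < 1 - 1 / K) :
    ∃ δ : ℝ, 0 < δ ∧ ∀ (L : ℕ) (d : ℝ), ∃ C : ℝ, ∀ X : ℝ, 1 ≤ X →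
      ({n : ℕ | (n : ℝ) ≤ X ∧ ∃ k ∈ Finset.Ico K L, ∃ m : ℤ,
        |(pn n : ℝ) - (m : ℝ) ^ k| ≤ d + (pn n : ℝ) ^ θ}.ncard : ℝ) ≤ C * X ^ (1 - δ) := by
  have k2 : (2 : ℝ) ≤ K := by exact_mod_cast hK
  have k0 : (0 : ℝ) < K := by linarith
  have k3 : 1 / (K : ℝ) ≤ 1 / 2 := one_div_le_one_div_of_le two_pos k2
  obtain ⟨κ, a1, a2⟩ := exists_between (show 1 / (K : ℝ) < min (1 - θ) (2 / 3) from
    lt_min (by linarith) (by linarith))
  obtain ⟨u, σ, δ, hu, hσ, hδ, hδ', P1, P2⟩ := PartA_par (γ := K * κ) (by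
    linarith [(div_lt_iff₀ k0).1 a1])
  refine ⟨δ, hδ, fun L d => ?_⟩
  obtain ⟨X₁, h₁⟩ := near_of_close (lt_min_iff.1 a2).1 (lt_min_iff.1 a2).2
    ((one_div_pos.2 k0).trans a1).le d
  obtain ⟨X₂, h₂⟩ := small_k (D := 1) (u₀ := u) (u₁ := 1) (K := K) le_rfl hu (by omega)
    (σ := σ) (β := 1 / 2 + δ) (κ' := δ) (κ := κ) (C₀ := 2 * L) hσ (by linarith) (by linarith) hδ.le
    (by
      have e : (1 : ℝ) * 1 * (1 + 1) / (2 * σ) = 1 / σ := by field_simp; norm_num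
      push_cast
      rw [e]
      linarith)
    (by push_cast; linarith)
  obtain ⟨X₃, h₃⟩ := Filter.eventually_atTop.1
    (((Real.tendsto_log_atTop.comp tendsto_natCast_atTop_atTop).eventually_ge_atTop
      (max 1 (Real.log L / δ))).and (Filter.eventually_ge_atTop 1))
  obtain ⟨C, hC⟩ := cover (E := {n | ∃ k ∈ Finset.Ico K L, ∃ m : ℤ,
      |(pn n : ℝ) - (m : ℝ) ^ k| ≤ d + (pn n : ℝ) ^ θ}) (β := 1 / 2 + δ) (γ := 1 / 2)
    (A := L * (2 * (2 * ((u : ℝ) + 4) * (3 * σ + 1)))) (by linarith) (by linarith) (by norm_num)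
    (X₀ := max X₁ (max X₂ X₃)) fun x hx => by
      obtain ⟨b1, b2, b3⟩ : X₁ ≤ x ∧ X₂ ≤ x ∧ X₃ ≤ x := by omega
      obtain ⟨c1, c2⟩ := max_le_iff.1 (h₃ x b3).1
      simp only [Function.comp_apply] at c1 c2
      have x1 : (1 : ℝ) ≤ x := by exact_mod_cast (h₃ x b3).2
      have s1 : 1 ≤ √(x : ℝ) := Real.one_le_sqrt.2 x1
      have l1 : Real.log x ≤ 2 * √(x : ℝ) := by
        have := Real.log_le_sub_one_of_pos (zero_lt_one.trans_le s1)
        rw [Real.log_sqrt (by linarith)] at this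
        linarith
      have key : ∀ k ∈ Finset.Ico K L, ∀ s : ℝ, |s| ≤ 1 →
          ({t : ℕ | (t : ℝ) ≤ (x : ℝ) ^ (1 / 2 + δ) ∧ Near s κ x k t}.ncard : ℝ) ≤
            2 * ((u : ℝ) + 4) * (3 * σ + 1) * √(x : ℝ) := by
        intro k hk s hs
        obtain ⟨d1, d2⟩ := Finset.mem_Ico.1 hk
        have d3 : (1 : ℝ) ≤ k := by exact_mod_cast (by omega : 1 ≤ k)
        have d4 : (k : ℝ) ≤ L := by exact_mod_cast d2.le
        refine (h₂ x k s b2 hs d1 ?_ ?_).trans ?_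
        · calc _ ≤ L * (2 * √(x : ℝ)) := mul_le_mul d4 l1 (by linarith) (by linarith)
            _ = _ := by ring
        · linarith [Real.log_le_log (by linarith) d4, (div_le_iff₀ hδ).1 c2]
        · have d5 : σ * mu x / (k * Real.log x) ≤ σ * (3 * √(x : ℝ)) :=
            (div_le_self (mul_nonneg hσ.le (by linarith [(mu_bounds x1).1]))
              (one_le_mul_of_one_le_of_one_le d3 c1)).trans
              (mul_le_mul_of_nonneg_left (mu_bounds x1).2 hσ.le)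
          calc _ ≤ 2 * ((u : ℝ) + 4) * (σ * (3 * √(x : ℝ)) + √(x : ℝ)) := by
                push_cast
                exact mul_le_mul (by linarith) (by linarith) (by
                  have := (mu_bounds x1).1
                  have : 0 ≤ mu x := by linarith
                  have : 0 ≤ Real.log x := by linarith
                  positivity) (by positivity)
            _ = _ := by ring
      have sub : {t : ℕ | (t : ℝ) ≤ (x : ℝ) ^ (1 / 2 + δ) ∧ ∃ k ∈ Finset.Ico K L, ∃ m : ℤ,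
          |(pn (x + t) : ℝ) - (m : ℝ) ^ k| ≤ d + (pn (x + t) : ℝ) ^ θ} ⊆
          ⋃ k ∈ Finset.Ico K L, ({t : ℕ | (t : ℝ) ≤ (x : ℝ) ^ (1 / 2 + δ) ∧ Near 1 κ x k t} ∪
            {t : ℕ | (t : ℝ) ≤ (x : ℝ) ^ (1 / 2 + δ) ∧ Near (-1) κ x k t}) := by
        rintro t ⟨e1, k, hk, m, hm⟩
        have e2 := h₁ x t k m b1 hm
        refine Set.mem_biUnion hk ?_
        rcases neg_one_pow_eq_or ℝ (x + t) with e | e <;> rw [e] at e2
        · exact Or.inl ⟨e1, e2⟩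
        · exact Or.inr ⟨e1, e2⟩
      have f1 := (Set.ncard_le_ncard sub ((Finset.Ico K L).finite_toSet.biUnion fun k _ =>
        (PartA_fin _ _).union (PartA_fin _ _))).trans (Finset.set_ncard_biUnion_le _ _)
      refine (Nat.cast_le.2 f1).trans ?_
      rw [Nat.cast_sum, ← Real.sqrt_eq_rpow]
      refine (Finset.sum_le_card_nsmul _ _
        (2 * (2 * ((u : ℝ) + 4) * (3 * σ + 1) * √(x : ℝ))) fun k hk => ?_).trans ?_
      · refine (Nat.cast_le.2 (Set.ncard_union_le _ _)).trans ?_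
        rw [Nat.cast_add]
        linarith [key k hk 1 (by simp), key k hk (-1) (by simp)]
      · have f2 : ((L - K : ℕ) : ℝ) ≤ L := by exact_mod_cast Nat.sub_le L K
        rw [Nat.card_Ico, nsmul_eq_mul]
        calc _ ≤ L * (2 * (2 * ((u : ℝ) + 4) * (3 * σ + 1) * √(x : ℝ))) := by gcongr
          _ = _ := by ring
  refine ⟨C, fun X hX => ?_⟩
  have e : 1 - δ = 1 - (1 / 2 + δ) + 1 / 2 := by ring
  rw [e]
  exact hC X hX

theorem part_a {K : ℕ} (hK : 2 ≤ K) {θ : ℝ} (hθ : θ < 1 - 1 / K) :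
    ∃ η : ℝ, 0 < η ∧ ∀ d : ℝ, ∃ C : ℝ, ∀ X : ℝ, 1 ≤ X →
      ({n : ℕ | (n : ℝ) ≤ X ∧ ∃ k : ℕ, K ≤ k ∧ ∃ m : ℤ,
        |(pn n : ℝ) - (m : ℝ) ^ k| ≤ d + (pn n : ℝ) ^ θ}.ncard : ℝ) ≤ C * X ^ (1 - η) := by
  obtain ⟨δ, hδ, h₁⟩ := PartA_mid hK hθ
  obtain ⟨L, h₂⟩ := part_b (θ := θ) (ε := 1 / 4)
    (hθ.trans_le (sub_le_self _ (by positivity))) (by norm_num)
  refine ⟨min δ (1 / 4), by positivity, fun d => ?_⟩
  obtain ⟨C₁, h₁⟩ := h₁ L d
  obtain ⟨C₂, h₂⟩ := h₂ d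
  refine ⟨|C₁| + |C₂|, fun X hX => ?_⟩
  have key : ∀ C e : ℝ, e ≤ 1 - min δ (1 / 4) → C * X ^ e ≤ |C| * X ^ (1 - min δ (1 / 4)) :=
    fun C e he => mul_le_mul (le_abs_self C) (Real.rpow_le_rpow_of_exponent_le hX he)
      (by positivity) (abs_nonneg C)
  have a1 := (h₁ X hX).trans (key _ _ (sub_le_sub_left (min_le_left _ _) 1))
  have a2 := (h₂ X hX).trans (key _ _ (by linarith [min_le_right δ (1 / 4)]))
  rw [add_mul]
  refine le_trans ?_ (add_le_add a1 a2)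
  rw [← Nat.cast_add, Nat.cast_le]
  refine le_trans (Set.ncard_le_ncard ?_ ((PartA_fin _ _).union (PartA_fin _ _)))
    (Set.ncard_union_le _ _)
  rintro n ⟨e1, k, hk, hm⟩
  rcases lt_or_ge k L with h | h
  · exact Or.inl ⟨e1, k, Finset.mem_Ico.2 ⟨hk, h⟩, hm⟩
  · exact Or.inr ⟨e1, k, h, hm⟩

end Pool.Agent.PPow
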