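import Pool.Agent.P.MP_54dcdd_nt.WinB

/-! The window lemma. -/

open Finset
open scoped Nat

noncomputable section

namespace Pool.Agent.PPow

theorem sum_fin_cast (n : ℕ) : ∑ i : Fin n, ((i : ℕ) : ℝ) = n * (n - 1) / 2 := by
  induction n with
  | zero => simp
  | succ n ih =>
    rw [Fin.sum_univ_castSucc]
    simp only [Fin.val_castSucc, ih, Fin.val_last]
    push_cast
    ring

theorem Cw_ge {D : ℕ} (hD : 1 ≤ D) :
    12 + 8 * D ≤ Cw D ∧ Qz D ≤ Cw D ∧ 2 * 2 ^ D * 4 * Real.exp 1 ≤ Cw D := by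
  have hQ := one_le_Qz hD
  have he₂ : 1 ≤ Real.exp 2 := Real.one_le_exp (by norm_num)
  have he₁ : Real.exp 1 ≤ Real.exp 2 := Real.exp_le_exp.2 one_le_two
  have he₈ : 1 ≤ Real.exp (8 * D) := Real.one_le_exp (by positivity)
  have he₉ := Real.add_one_le_exp (8 * D)
  have h2 : (1 : ℝ) ≤ 2 ^ D := one_le_pow₀ one_le_two
  have hD₀ := D.cast_nonneg (α := ℝ)
  have hD₁ : (1 : ℝ) ≤ D + 1 := by linarith
  refine ⟨?_, ?_, ?_⟩
  · calc _ ≤ 16 * 1 * 1 * (72 * 1 * (8 * (D : ℝ) + 1) * 1) := by linarith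
      _ ≤ _ := by rw [Cw]; gcongr
  · calc _ ≤ 16 * 1 * 1 * (72 * 1 * 1 * Qz D) := by linarith
      _ ≤ _ := by rw [Cw]; gcongr
  · calc _ ≤ 16 * 1 * 2 ^ D * (72 * Real.exp 1 * 1 * 1) := by
          nlinarith [mul_pos (pow_pos (two_pos (α := ℝ)) D) (Real.exp_pos 1)]
      _ ≤ _ := by rw [Cw]; gcongr

theorem det_small {D N₁ : ℕ} {U : Fin (D + 1) → ℕ} {a W g C : ℝ} (ha₀ : 0 < a) (hg : 1 ≤ g)
    (hN₁ : 1 ≤ N₁) (hNW : (N₁ : ℝ) ≤ W) (hN : ∑ j, U j ≤ N₁) (hC : 12 + 8 * D ≤ C)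
    (h : C * N₁ ^ 2 + (∑ j, (U j : ℝ)) ^ 2 * Real.log (W / N₁) / 2 +
          Real.log g * ∑ j : Fin (D + 1), ((j : ℕ) : ℝ) * U j ≤
        Real.log (1 / a) * ((∑ j, (U j : ℝ)) ^ 2 - ∑ j, (U j : ℝ) ^ 2) / 2) :
    (∑ j, U j)! * ((∏ i : Fin (∑ j, U j), 3 * (W / N₁ * a) ^ (i : ℕ)) *
      ∏ b : (Σ j, Fin (U j)), (8 / a) ^ (b.2 : ℕ) * Real.exp N₁ *
        (g ^ (b.1 : ℕ) * Real.exp (8 * D * N₁))) < 1 := by
  have hN₀ : (1 : ℝ) ≤ N₁ := by exact_mod_cast hN₁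
  have hω : 0 ≤ Real.log (W / N₁) := Real.log_nonneg ((one_le_div (by linarith)).2 hNW)
  have e₁ : W / N₁ * a = Real.exp (Real.log (W / N₁) - Real.log (1 / a)) := by
    rw [Real.exp_sub, Real.exp_log (div_pos (by linarith) (by linarith)),
      Real.exp_log (by positivity)]
    field_simp
  have e₂ : 8 / a ≤ Real.exp (7 + Real.log (1 / a)) := by
    rw [Real.exp_add, Real.exp_log (by positivity), div_eq_mul_one_div]
    gcongr
    linarith [Real.add_one_le_exp 7]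
  have e₃ : g = Real.exp (Real.log g) := (Real.exp_log (by linarith)).symm
  generalize Real.log (W / N₁) = ω at *
  generalize Real.log (1 / a) = α at *
  generalize Real.log g = η at *
  have hc : (∑ j, (U j : ℝ)) = (∑ j, U j : ℕ) := by push_cast; rfl
  have hU : ∀ j, (U j : ℝ) ≤ N₁ := fun j => by
    exact_mod_cast (single_le_sum (fun j _ => (U j).zero_le) (mem_univ j)).trans hN
  have h₁ : (∏ i : Fin (∑ j, U j), 3 * (W / N₁ * a) ^ (i : ℕ)) ≤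
      Real.exp (∑ i : Fin (∑ j, U j), (2 + ((i : ℕ) : ℝ) * (ω - α))) := by
    rw [Real.exp_sum]
    refine prod_le_prod (fun i _ => by rw [e₁]; positivity) fun i _ => ?_
    rw [e₁, Real.exp_add, Real.exp_nat_mul]
    gcongr
    linarith [Real.add_one_le_exp 2]
  have h₂ : (∏ b : (Σ j, Fin (U j)), (8 / a) ^ (b.2 : ℕ) * Real.exp N₁ *
      (g ^ (b.1 : ℕ) * Real.exp (8 * D * N₁))) ≤ Real.exp (∑ b : (Σ j, Fin (U j)),
        (((b.2 : ℕ) : ℝ) * α + ((b.1 : ℕ) * η + (8 + 8 * D) * N₁))) := by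
    rw [Real.exp_sum]
    refine prod_le_prod (fun i _ => by positivity) fun b _ => ?_
    calc _ ≤ Real.exp (7 + α) ^ (b.2 : ℕ) * Real.exp N₁ *
          (Real.exp η ^ (b.1 : ℕ) * Real.exp (8 * D * N₁)) := by rw [← e₃]; gcongr
      _ ≤ _ := by
          simp only [← Real.exp_nat_mul, ← Real.exp_add, Real.exp_le_exp]
          have : ((b.2 : ℕ) : ℝ) ≤ U b.1 := by exact_mod_cast b.2.2.le
          linarith [hU b.1]
  have h₃ : ((∑ j, U j)! : ℝ) ≤ Real.exp ((∑ j, U j : ℕ) * (∑ j, U j : ℕ)) := by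
    rw [Real.exp_nat_mul]
    calc _ ≤ ((∑ j, U j : ℕ) : ℝ) ^ ∑ j, U j := by exact_mod_cast Nat.factorial_le_pow _
      _ ≤ _ := by gcongr; linarith [Real.add_one_le_exp (∑ j, U j : ℕ)]
  refine (mul_le_mul h₃ (mul_le_mul h₁ h₂ (by positivity) (by positivity))
    (by rw [e₁]; positivity) (by positivity)).trans_lt ?_
  rw [← Real.exp_add, ← Real.exp_add, Real.exp_lt_one_iff]
  have s₁ : ∑ b : (Σ j, Fin (U j)), (((b.2 : ℕ) : ℝ) * α + ((b.1 : ℕ) * η + (8 + 8 * D) * N₁)) =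
      α * ((∑ j, (U j : ℝ) ^ 2) - ∑ j, (U j : ℝ)) / 2 +
        η * ∑ j : Fin (D + 1), ((j : ℕ) : ℝ) * U j + (8 + 8 * D) * N₁ * ∑ j, (U j : ℝ) := by
    rw [Fintype.sum_sigma, ← sum_sub_distrib, mul_sum, mul_sum, mul_sum, sum_div,
      ← sum_add_distrib, ← sum_add_distrib]
    refine sum_congr rfl fun j _ => ?_
    simp only [sum_add_distrib, ← sum_mul, sum_fin_cast, sum_const, card_univ, Fintype.card_fin,
      nsmul_eq_mul]
    ring
  rw [s₁, sum_add_distrib, ← sum_mul, sum_fin_cast, sum_const, card_univ, Fintype.card_fin,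
    nsmul_eq_mul, hc]
  rw [hc] at h
  have hN' : ((∑ j, U j : ℕ) : ℝ) ≤ N₁ := by exact_mod_cast hN
  generalize ((∑ j, U j : ℕ) : ℝ) = N at *
  have hN'' : 0 ≤ N := hc ▸ sum_nonneg fun j _ => (U j).cast_nonneg
  have hD₀ := D.cast_nonneg (α := ℝ)
  have i₁ : N * N ≤ N₁ ^ 2 := by nlinarith
  have i₂ : N ≤ N₁ ^ 2 := by nlinarith
  have i₃ : (8 + 8 * D) * N₁ * N ≤ (8 + 8 * D) * N₁ ^ 2 := by
    rw [mul_assoc, sq]
    gcongr
  have i₄ : (12 + 8 * D) * (N₁ : ℝ) ^ 2 ≤ C * N₁ ^ 2 := by gcongr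
  nlinarith [mul_nonneg hN'' hω]

theorem window {D : ℕ} (hD : 1 ≤ D) : ∃ C : ℝ, 0 < C ∧
    ∀ (ℓ : ℂ → ℂ) (a R : ℝ) (U : Fin (D + 1) → ℕ) (x N₁ : ℕ) (W g ε : ℝ) (s : Finset ℕ)
      (m : ℕ → ℤ), LG ℓ a R → a ≤ 1 → 1 ≤ x → ∑ j, (x + U j) + 1 ≤ N₁ → 1 ≤ g → 0 < ε →
      (∀ t ∈ s, (t : ℝ) ≤ W) →
      (∀ t ∈ s, ‖(m t : ℂ) - g * Complex.exp (ℓ t)‖ ≤ ε * ‖(g : ℂ) * Complex.exp (ℓ t)‖) →
      C * W ≤ 4 * N₁ / a → (N₁ : ℝ) ≤ W → 16 * (4 * N₁ / a) * Real.exp (C * N₁ / x) ≤ R →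
      N₁ * (Real.log (1 / a) + Real.log (W / N₁) + C) ≤ Real.log (1 / ε) →
      C * N₁ ^ 2 + (∑ j, (U j : ℝ)) ^ 2 * Real.log (W / N₁) / 2 +
          Real.log g * ∑ j : Fin (D + 1), ((j : ℕ) : ℝ) * U j ≤
        Real.log (1 / a) * ((∑ j, (U j : ℝ)) ^ 2 - ∑ j, (U j : ℝ) ^ 2) / 2 →
      1 ≤ ∑ j, U j → s.card < 2 * N₁ := by
  obtain ⟨hC₁, hC₂, hC₃⟩ := Cw_ge hD
  have hD₀ := D.cast_nonneg (α := ℝ)
  refine ⟨Cw D, by linarith, fun ℓ a R U x N₁ W g ε s m h ha hx hN hg hε hsW hm H1 hNW H2 H3 H4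
    _ => not_le.1 fun hs => ?_⟩
  obtain ⟨s', hs', hcard⟩ := exists_subset_card_eq hs
  have ha₀ := h.ha
  have hN₁ : 1 ≤ N₁ := by omega
  have hN₀ : (1 : ℝ) ≤ N₁ := by exact_mod_cast hN₁
  have hx₀ : (0 : ℝ) < x := by exact_mod_cast hx
  have hNN : ∑ j, U j ≤ N₁ :=
    le_trans (sum_le_sum fun j _ => Nat.le_add_left _ x) (Nat.le_of_succ_le hN)
  have hC₀ : 0 < Cw D := by linarith
  have hW₀ : 0 < W := by linarith
  have hWN : 1 ≤ W / N₁ := (one_le_div (by linarith)).2 hNW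
  have hM : 1 ≤ Real.exp (Cw D * N₁ / x) := Real.one_le_exp (by positivity)
  have hρ : 0 < 4 * N₁ / a := by positivity
  have hCe : Cw D ≤ Real.exp (Cw D) := by linarith [Real.add_one_le_exp (Cw D)]
  have hε' : (Cw D * (W / (a * N₁))) ^ N₁ * ε ≤ 1 := by
    rw [← Real.exp_le_exp, Real.exp_nat_mul, Real.exp_add, Real.exp_add,
      Real.exp_log (by positivity), Real.exp_log (by positivity), Real.exp_log (by positivity),
      le_div_iff₀ hε] at H3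
    refine le_trans (mul_le_mul_of_nonneg_right (pow_le_pow_left₀ (by positivity) ?_ _) hε.le) H3
    calc _ = 1 / a * (W / N₁) * Cw D := by field_simp
      _ ≤ _ := by gcongr
  have hb : 1 / a ≤ W / (a * N₁) := by
    calc _ ≤ W / N₁ / a := by gcongr
      _ = _ := by field_simp
  have ha₁ : 1 ≤ 1 / a := (one_le_div ha₀).2 ha
  have hε₁ : ε ≤ 1 := le_trans (le_mul_of_one_le_left hε.le (one_le_pow₀ (by nlinarith))) hε'
  have hε₂ : N₁ * 2 ^ D * ((4 / a) ^ N₁ * Real.exp N₁) * ε ≤ 1 := by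
    refine le_trans (mul_le_mul_of_nonneg_right ?_ hε.le) hε'
    have h₄ : (N₁ : ℝ) ≤ 2 ^ N₁ := by exact_mod_cast N₁.lt_two_pow_self.le
    have h₅ : (2 : ℝ) ^ D ≤ (2 ^ D) ^ N₁ := le_self_pow₀ (one_le_pow₀ one_le_two) (by omega)
    calc _ ≤ 2 ^ N₁ * (2 ^ D) ^ N₁ * ((4 / a) ^ N₁ * Real.exp N₁) := by gcongr
      _ = (2 * 2 ^ D * 4 * Real.exp 1 * (1 / a)) ^ N₁ := by
          rw [← Real.exp_one_pow, ← mul_pow, ← mul_pow, ← mul_pow]
          congr 1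
          ring
      _ ≤ _ := by gcongr
  let e := (finSigmaFinEquiv (n := U)).symm
  obtain ⟨c, hc, hker⟩ := exists_kernel (ι := s') (fun t b =>
    ((t : ℕ).choose (e b).2 : ℂ) * (m t : ℂ) ^ ((e b).1 : ℕ)) fun f hf => by
      have h₁ := h.det_le ha hNN hg hε.le hε₁ (by linarith) (by nlinarith) (by nlinarith) hε₂
        (t := fun i => f i) (Subtype.val_injective.comp hf) (fun i => hsW _ (hs' (f i).2))
        (m := fun i => m (f i)) (fun i => hm _ (hs' (f i).2)) (J := fun b => (e b).1)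
        (L := fun b => (e b).2) (fun b => Nat.lt_succ_iff.1 (e b).1.2) fun b => (e b).2.2.le.trans
          ((single_le_sum (fun j _ => (U j).zero_le) (mem_univ _)).trans hNN)
      rw [e.prod_comp fun b => (8 / a) ^ (b.2 : ℕ) * Real.exp N₁ *
        (g ^ (b.1 : ℕ) * Real.exp (8 * D * N₁))] at h₁
      have h₂ := h₁.trans_lt (det_small ha₀ hg hN₁ hNW hNN hC₁ H4)
      have h₃ : (Matrix.of fun i b => (((f i : ℕ)).choose (e b).2 : ℂ) *
          (m (f i) : ℂ) ^ ((e b).1 : ℕ)).det = ((Matrix.of fun i b =>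
            (((f i : ℕ)).choose (e b).2 : ℤ) * m (f i) ^ ((e b).1 : ℕ)).det : ℤ) := by
        rw [Int.cast_det]
        congr 1
        ext i b
        simp
      rw [h₃] at h₂ ⊢
      rw [Complex.norm_intCast] at h₂
      exact_mod_cast Int.abs_lt_one_iff.1 (by exact_mod_cast h₂)
  let Q : Fin (D + 1) → Polynomial ℂ := fun j => ∑ l : Fin (U j), c (e.symm ⟨j, l⟩) • Bp l
  have hg₀ : (g : ℂ) ≠ 0 := by exact_mod_cast (show g ≠ 0 by linarith)
  have hP := h.no_small hD (x := x) (N₁ := N₁) (T := fun j => U j)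
    (P := fun j => (g : ℂ) ^ (j : ℕ) • Q j) hN hM (by nlinarith)
    (by
      rw [← Real.exp_nat_mul, mul_div_cancel₀ _ hx₀.ne', mul_comm, Real.exp_nat_mul]
      exact pow_le_pow_left₀ (by linarith [one_le_Qz hD]) (hC₂.trans hCe) _)
    (fun j => (Polynomial.natDegree_smul_le _ _).trans (Polynomial.natDegree_sum_le_of_forall_le
      _ _ fun l _ => (Polynomial.natDegree_smul_le _ _).trans
        ((Polynomial.natDegree_le_iff_degree_le.2 (Bp_degree l).le).trans l.2.le)))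
    H1 hNW hε.le hε' hcard (fun t ht => hsW t (hs' ht)) fun t ht => by
      have h₁ : ∑ j, (Q j).eval (t : ℂ) * (m t : ℂ) ^ (j : ℕ) = 0 := by
        rw [← hker ⟨t, ht⟩, ← e.symm.sum_comp, Fintype.sum_sigma]
        refine sum_congr rfl fun j _ => ?_
        simp only [Q, Polynomial.eval_finsetSum, sum_mul, Polynomial.eval_smul, Bp_nat,
          smul_eq_mul, mul_assoc]
        exact sum_congr rfl fun l _ => by rw [e.apply_symm_apply]
      have h₂ : ∀ j : Fin (D + 1), ((g : ℂ) ^ (j : ℕ) • Q j).eval (t : ℂ) *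
          Complex.exp (((j : ℕ) : ℤ) * ℓ t) =
          (Q j).eval (t : ℂ) * (g * Complex.exp (ℓ t)) ^ (j : ℕ) := fun j => by
        rw [pow_exp_eq, Polynomial.eval_smul, smul_eq_mul]
        ring
      simp only [h₂]
      rw [← norm_neg, ← zero_sub, ← h₁, ← sum_sub_distrib, mul_sum]
      refine (norm_sum_le _ _).trans (sum_le_sum fun j _ => ?_)
      rw [← mul_sub, norm_mul, norm_mul, norm_pow, mul_left_comm]
      refine mul_le_mul_of_nonneg_left ((pow_pert (hm t (hs' ht)) hε₁ j).trans ?_) (norm_nonneg _)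
      have : (2 : ℝ) ^ (j : ℕ) ≤ 2 ^ D := pow_le_pow_right₀ one_le_two (Nat.lt_succ_iff.1 j.2)
      gcongr
      linarith
  refine hc (funext fun b => ?_)
  have := Fintype.linearIndependent_iff.1 (Bp_indep.comp _ (Fin.val_injective (n := U (e b).1)))
    (fun l => c (e.symm ⟨(e b).1, l⟩))
    ((smul_eq_zero.1 (hP (e b).1)).resolve_left (pow_ne_zero _ hg₀)) (e b).2
  simpa using this

end Pool.Agent.PPow
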