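import Pool.Agent.P.MP_54dcdd_nt.Gfun
import Pool.Agent.P.MP_54dcdd_nt.Win

/-! Small exponents: the choice of parameters in the window lemma. -/

open Complex MeasureTheory
open scoped Real

noncomputable section

namespace Pool.Agent.PPow

theorem SmallK_ev1 (A A' : ℝ) {δ : ℝ} (hδ : 0 < δ) :
    ∀ᶠ x : ℝ in Filter.atTop, A * Real.log (Real.log x) + A' ≤ δ * Real.log x := by
  have h1 : (fun y : ℝ => A * Real.log y + A') =o[Filter.atTop] id :=
    (Real.isLittleO_log_id_atTop.const_mul_left A).add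
      (Asymptotics.isLittleO_const_id_atTop A')
  have h2 := Real.tendsto_log_atTop.eventually (h1.bound hδ)
  filter_upwards [h2, Filter.eventually_ge_atTop 1] with x hx x1
  rw [id, Real.norm_of_nonneg (Real.log_nonneg x1)] at hx
  exact (le_abs_self _).trans hx

theorem SmallK_ev2 (A A' : ℝ) {γ δ : ℝ} (hγ : 0 < γ) (hδ : 0 < δ) :
    ∀ᶠ x : ℝ in Filter.atTop, A * Real.log x + A' ≤ δ * x ^ γ := by
  have h0 := isLittleO_log_rpow_atTop hγ
  have h1 : (fun y : ℝ => A * Real.log y + A') =o[Filter.atTop] fun x => x ^ γ :=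
    (h0.const_mul_left A).add ((Real.isLittleO_const_log_atTop (c := A')).trans h0)
  filter_upwards [h1.bound hδ, Filter.eventually_ge_atTop 0] with x hx x0
  rw [Real.norm_of_nonneg (Real.rpow_nonneg x0 γ)] at hx
  exact (le_abs_self _).trans hx

theorem SmallK_root {m g ε : ℝ} {k : ℕ} (hk : 1 ≤ k) (hm : 0 ≤ m) (hg : 0 < g)
    (h : |m ^ k - g ^ k| ≤ ε * g ^ k) : |m - g| ≤ ε * g := by
  obtain ⟨j, rfl⟩ : ∃ j, k = j + 1 := ⟨k - 1, by omega⟩
  have h1 : g ^ j ≤ ∑ i ∈ Finset.range (j + 1), m ^ i * g ^ (j + 1 - 1 - i) := by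
    have := Finset.single_le_sum (f := fun i => m ^ i * g ^ (j + 1 - 1 - i))
      (s := Finset.range (j + 1)) (fun i _ => by positivity) (Finset.mem_range.2 j.succ_pos)
    simpa using this
  have h2 : 0 < g ^ j := by positivity
  rw [← geom_sum₂_mul, abs_mul, abs_of_nonneg (h2.le.trans h1)] at h
  have h3 : g ^ j * |m - g| ≤ g ^ j * (ε * g) :=
    (mul_le_mul_of_nonneg_right h1 (abs_nonneg _)).trans (h.trans (le_of_eq (by ring)))
  exact le_of_mul_le_mul_left h3 h2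

theorem SmallK_gauss (D : ℕ) : ∑ j : Fin D, (((j : ℕ) : ℝ) + 1) = D * (D + 1) / 2 := by
  induction D with
  | zero => simp
  | succ D ih =>
    rw [Fin.sum_univ_castSucc]
    simp only [Fin.val_castSucc, Fin.val_last]
    rw [ih]
    push_cast
    ring

theorem small_k {D u₀ u₁ K : ℕ} (hD : 1 ≤ D) (hu₀ : 1 ≤ u₀) (hK : 1 ≤ K)
    {σ β κ' κ C₀ : ℝ} (hσ : 0 < σ) (hβ : 1 / 2 < β) (hβ' : β < 1) (hκ' : 0 ≤ κ')
    (P1 : ((u₀ : ℝ) ^ 2 + D * u₁ ^ 2) / 2 * κ' + ((u₀ : ℝ) + D * u₁) ^ 2 * (β - 1 / 2) / 2 +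
      u₁ * D * (D + 1) / (2 * σ) < (((u₀ : ℝ) + D * u₁) ^ 2 - u₀ ^ 2 - D * u₁ ^ 2) / 4)
    (P2 : ((u₀ : ℝ) + D * u₁ + D + 2) * σ * (β + 2 * κ') < K * κ) :
    ∃ X₀ : ℕ, ∀ (x₀ k : ℕ) (s : ℝ), X₀ ≤ x₀ → |s| ≤ 1 → K ≤ k →
      k * Real.log x₀ ≤ C₀ * √(x₀ : ℝ) → Real.log k ≤ κ' * Real.log x₀ →
      ({t : ℕ | (t : ℝ) ≤ (x₀ : ℝ) ^ β ∧ Near s κ x₀ k t}.ncard : ℝ) ≤
        2 * ((u₀ : ℝ) + D * u₁ + D + 2) * (σ * mu x₀ / (k * Real.log x₀) + 1) := by
  obtain ⟨C, C0, hwin⟩ := window hD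
  obtain ⟨X₁, hLG⟩ := exists_LG
  obtain ⟨m₀, hG⟩ := Gm_bounds
  obtain ⟨l0, hl0⟩ : ∃ l0 : ℝ, l0 = (u₀ : ℝ) + D * u₁ := ⟨_, rfl⟩
  obtain ⟨lam, hlam⟩ : ∃ lam : ℝ, lam = l0 + D + 2 := ⟨_, rfl⟩
  obtain ⟨S, hS⟩ : ∃ S : ℝ, S = (u₀ : ℝ) ^ 2 + D * u₁ ^ 2 := ⟨_, rfl⟩
  obtain ⟨T, hT⟩ : ∃ T : ℝ, T = (u₁ : ℝ) * D * (D + 1) := ⟨_, rfl⟩
  have D1 : (1 : ℝ) ≤ D := by exact_mod_cast hD
  have u1 : (1 : ℝ) ≤ u₀ := by exact_mod_cast hu₀
  have u2 : (0 : ℝ) ≤ u₁ := Nat.cast_nonneg _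
  have K1 : (1 : ℝ) ≤ K := by exact_mod_cast hK
  have lam1 : 1 ≤ lam := by
    rw [hlam, hl0]
    linarith only [mul_nonneg (zero_le_one.trans D1) u2, D1, u1]
  have S0 : 0 ≤ S := by
    rw [hS]
    positivity
  have T0 : 0 ≤ T := by
    rw [hT]
    positivity
  have E0 : 0 ≤ l0 ^ 2 - S := by
    rw [hS, hl0]
    have h1 : 0 ≤ (D : ℝ) * (D - 1) * u₁ ^ 2 := mul_nonneg (mul_nonneg (by linarith) (by linarith))
      (sq_nonneg _)
    have h2 : 0 ≤ (u₀ : ℝ) * D * u₁ := by positivity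
    linarith only [h1, h2]
  have P1' : 0 < (l0 ^ 2 - S) / 4 - (S / 2 * κ' + l0 ^ 2 * (β - 1 / 2) / 2 + T / (2 * σ)) := by
    rw [hS, hl0, hT]
    linarith
  have P2' : 0 < (K * κ - lam * σ * (β + 2 * κ')) / 2 := by
    rw [hlam, hl0]
    linarith
  rw [← hl0, ← hlam]
  clear P1 P2
  have lam0 : 0 ≤ lam := zero_le_one.trans lam1
  obtain ⟨δ, hδ⟩ : ∃ δ : ℝ, δ = (K * κ - lam * σ * (β + 2 * κ')) / 2 := ⟨_, rfl⟩
  obtain ⟨c, hc⟩ : ∃ c : ℝ, c = |1 + C - Real.log σ| := ⟨_, rfl⟩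
  rw [← hδ] at P2'
  have ev : ∀ᶠ x : ℝ in Filter.atTop, X₁ ≤ x ∧ 9 ≤ x ∧
      0 * Real.log x + max m₀ 24 ≤ 1 * x ^ (1 / 2 : ℝ) ∧
      0 * Real.log (Real.log x) + 1 ≤ 1 * Real.log x ∧
      C * Real.log x + 0 ≤ 4 * σ * x ^ (1 - β) ∧ 0 * Real.log x + 100 ≤ 1 * x ^ (1 - β) ∧
      0 * Real.log x + lam * (3 * σ + 1) ≤ 1 * x ^ (β - 1 / 2) ∧
      0 * Real.log (Real.log x) + 5120 * lam * (σ + |C₀|) * Real.exp (C * lam) ≤ 1 * Real.log x ∧
      lam * σ * Real.log (Real.log x) + lam * σ * c ≤ δ * Real.log x ∧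
      1 * Real.log (Real.log x) + c ≤ 1 * Real.log x ∧
      K * lam * (β + 2 * κ' + 1) * Real.log x + 0 ≤ δ * x ^ (1 / 2 : ℝ) ∧
      l0 ^ 2 / 2 * Real.log (Real.log x) + (C * lam ^ 2 - l0 ^ 2 / 2 * Real.log σ + (l0 ^ 2 - S)) ≤
        ((l0 ^ 2 - S) / 4 - (S / 2 * κ' + l0 ^ 2 * (β - 1 / 2) / 2 + T / (2 * σ))) * Real.log x :=
    (Filter.eventually_ge_atTop _).and <| (Filter.eventually_ge_atTop _).and <|
      (SmallK_ev2 _ _ (by norm_num) one_pos).and <| (SmallK_ev1 _ _ one_pos).and <|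
      (SmallK_ev2 _ _ (by linarith) (by positivity)).and <|
      (SmallK_ev2 _ _ (by linarith) one_pos).and <| (SmallK_ev2 _ _ (by linarith) one_pos).and <|
      (SmallK_ev1 _ _ one_pos).and <| (SmallK_ev1 _ _ P2').and <| (SmallK_ev1 _ _ one_pos).and <|
      (SmallK_ev2 _ _ (by norm_num) P2').and (SmallK_ev1 _ _ P1')
  obtain ⟨X, hX⟩ := Filter.eventually_atTop.1 ev
  refine ⟨⌈X⌉₊, fun x₀ k s hx hs hk hkC hkL => ?_⟩
  obtain ⟨e1, e2, e3, e4, e5, e6, e7, e8, e9, e10, e11, e12⟩ := hX x₀ (Nat.ceil_le.1 hx)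
  clear hX ev
  simp only [zero_mul, zero_add, one_mul, add_zero, ← Real.sqrt_eq_rpow] at e3 e4 e5 e6 e7 e8 e10 e11
  have k1 : 1 ≤ k := hK.trans hk
  have k1' : (1 : ℝ) ≤ k := by exact_mod_cast k1
  have kK : (K : ℝ) ≤ k := by exact_mod_cast hk
  obtain ⟨ℓ, hℓ, hℓt⟩ := hLG x₀ s k e1 hs (zero_lt_one.trans_le k1')
  obtain ⟨μ1, μ2⟩ := mu_bounds (x := x₀) (by linarith only [e2])
  obtain ⟨G1, G2⟩ := hG (mu x₀) s (((le_max_left _ _).trans e3).trans μ1) hs
  have hnear : ∀ t : ℕ, ∃ m : ℕ, Near s κ x₀ k t → |(m : ℝ) ^ k - Gm s (mu ((x₀ : ℝ) + t))| ≤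
      Real.exp (-(κ * mu x₀)) * Gm s (mu ((x₀ : ℝ) + t)) := fun t => by
    by_cases h : Near s κ x₀ k t
    · obtain ⟨m, hm⟩ := h
      exact ⟨m, fun _ => hm⟩
    · exact ⟨0, fun h' => absurd h' h⟩
  choose m hm using hnear
  have hfin : {t : ℕ | (t : ℝ) ≤ (x₀ : ℝ) ^ β ∧ Near s κ x₀ k t}.Finite :=
    (Set.finite_Iic ⌊(x₀ : ℝ) ^ β⌋₊).subset fun t ht => Nat.le_floor ht.1
  rw [Set.ncard_eq_toFinset_card _ hfin]
  generalize mu (x₀ : ℝ) = μ at *
  generalize (x₀ : ℝ) = x at *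
  have x0 : 0 < x := by linarith only [e2]
  have hL : Real.log √x = Real.log x / 2 := Real.log_sqrt x0.le
  have hW : Real.log (x ^ β) = β * Real.log x := Real.log_rpow x0 β
  have hW1 : x ^ β * x ^ (1 - β) = x := by
    rw [← Real.rpow_add x0, add_sub_cancel, Real.rpow_one]
  have hW2 : √x * x ^ (β - 1 / 2) = x ^ β := by
    rw [Real.sqrt_eq_rpow, ← Real.rpow_add x0, add_sub_cancel]
  have W0 : 0 < x ^ β := Real.rpow_pos_of_pos x0 β
  have hr : √x * √x = x := Real.mul_self_sqrt x0.le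
  have r24 : 24 ≤ √x := (le_max_right _ _).trans e3
  generalize Real.log x = L at *
  generalize x ^ (1 - β) = W1 at *
  generalize x ^ (β - 1 / 2) = W2 at *
  generalize x ^ β = W at *
  generalize √x = r at *
  obtain ⟨y, hy⟩ : ∃ y, y = x - 1 / 24 := ⟨_, rfl⟩
  rw [← hy] at hℓ hℓt
  have y1 : x ≤ 2 * y := by linarith only [hy, e2]
  have y2 : y ≤ x := by linarith only [hy]
  have y0 : 0 < y := by linarith only [y1, x0]
  have μ0 : 0 < μ := by linarith only [r24, μ1]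
  have L0 : 0 < L := zero_lt_one.trans_le e4
  have r0 : 0 < r := by linarith only [r24]
  have k0 : (0 : ℝ) < k := zero_lt_one.trans_le k1'
  have G0 : 1 ≤ Gm s μ := by
    refine le_trans ?_ G1
    rw [le_div_iff₀ (by positivity), one_mul]
    refine le_trans ?_ (Real.pow_div_factorial_le_exp μ μ0.le 4)
    rw [le_div_iff₀ (by positivity)]
    norm_num [Nat.factorial]
    have := mul_le_mul_of_nonneg_left (r24.trans μ1) (pow_pos μ0 3).le
    linarith only [this]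
  have G00 : 0 < Gm s μ := zero_lt_one.trans_le G0
  obtain ⟨q, hq⟩ : ∃ q, q = σ * μ / (k * L) := ⟨_, rfl⟩
  rw [← hq]
  have q0 : 0 < q := by
    rw [hq]
    positivity
  obtain ⟨B, B1, B2, B3⟩ : ∃ B : ℕ, 1 ≤ B ∧ q ≤ B ∧ (B : ℝ) ≤ q + 1 :=
    ⟨⌈q⌉₊, Nat.one_le_ceil_iff.2 q0, Nat.le_ceil q, (Nat.ceil_lt_add_one q0.le).le⟩
  have B0 : (0 : ℝ) < B := q0.trans_le B2
  obtain ⟨N, hN⟩ : ∃ N : ℕ, N = (u₀ + D * u₁ + D + 2) * B := ⟨_, rfl⟩
  have hN' : (N : ℝ) = lam * B := by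
    rw [hN, hlam, hl0]
    push_cast
    ring
  have N1 : q ≤ N := by
    rw [hN']
    exact B2.trans (le_mul_of_one_le_left B0.le lam1)
  have N2 : (N : ℝ) ≤ lam * (q + 1) := by
    rw [hN']
    exact mul_le_mul_of_nonneg_left B3 lam0
  have N0 : (0 : ℝ) < N := q0.trans_le N1
  have hia : 1 / (μ / (2 * y * k)) = 2 * y * k / μ := one_div_div _ _
  have hNa : 4 * (N : ℝ) / (μ / (2 * y * k)) = 4 * (N * (2 * y * k / μ)) := by
    field_simp
  have α1 : Real.log (2 * y * k / μ) ≤ Real.log k + L / 2 + 1 := by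
    have h1 : 2 * y * k / μ ≤ 2 * (k * r) := by
      rw [div_le_iff₀ μ0]
      have h2 : y ≤ r * μ := (y2.trans hr.ge).trans (mul_le_mul_of_nonneg_left μ1 r0.le)
      have h3 := mul_le_mul_of_nonneg_left h2 k0.le
      linarith only [h3]
    have h2 := Real.log_le_log (by positivity) h1
    rw [Real.log_mul (x := 2) (y := k * r) (by norm_num) (by positivity),
      Real.log_mul k0.ne' r0.ne', hL] at h2
    linarith only [h2, Real.log_le_sub_one_of_pos (x := 2) (by norm_num)]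
  have α2 : Real.log k + L / 2 - 2 ≤ Real.log (2 * y * k / μ) := by
    have h1 : k * r / 3 ≤ 2 * y * k / μ := by
      rw [div_le_div_iff₀ (by norm_num) μ0]
      have h2 := mul_le_mul_of_nonneg_left μ2 r0.le
      have h3 : r * μ ≤ 2 * y * 3 := by linarith only [h2, hr, y1]
      have h4 := mul_le_mul_of_nonneg_left h3 k0.le
      linarith only [h4]
    have h2 := Real.log_le_log (by positivity) h1
    rw [Real.log_div (x := k * r) (y := 3) (by positivity) (by norm_num),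
      Real.log_mul k0.ne' r0.ne', hL] at h2
    linarith only [h2, Real.log_le_sub_one_of_pos (x := 3) (by norm_num)]
  have ω1 : Real.log (W / N) ≤ (β - 1 / 2) * L + Real.log k + Real.log L - Real.log σ := by
    have h1 : σ * r / (k * L) ≤ N := by
      refine le_trans ?_ N1
      rw [hq]
      gcongr
    have h2 := Real.log_le_log (by positivity) h1
    rw [Real.log_div (by positivity) (by positivity), Real.log_mul hσ.ne' r0.ne',
      Real.log_mul k0.ne' L0.ne', hL] at h2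
    rw [Real.log_div W0.ne' N0.ne', hW]
    linarith only [h2]
  have hU1 : ∑ j : Fin (D + 1), ((Fin.cons (u₀ * B) (fun _ => u₁ * B) : Fin (D + 1) → ℕ) j : ℝ) =
      l0 * B := by
    rw [Fin.sum_univ_succ, hl0]
    simp
    ring
  have hU2 : ∑ j : Fin (D + 1),
      ((Fin.cons (u₀ * B) (fun _ => u₁ * B) : Fin (D + 1) → ℕ) j : ℝ) ^ 2 = S * B ^ 2 := by
    rw [Fin.sum_univ_succ, hS]
    simp
    ring
  have hU3 : ∑ j : Fin (D + 1), ((j : ℕ) : ℝ) *
      ((Fin.cons (u₀ * B) (fun _ => u₁ * B) : Fin (D + 1) → ℕ) j : ℝ) = T / 2 * B := by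
    rw [Fin.sum_univ_succ, hT]
    simp only [Fin.cons_succ, Fin.val_succ, Fin.val_zero]
    push_cast
    rw [← Finset.sum_mul, SmallK_gauss]
    ring
  have key := hwin ℓ _ _ (Fin.cons (u₀ * B) (fun _ => u₁ * B)) B N W (Gm s μ ^ ((k : ℝ)⁻¹))
    (Real.exp (-(κ * μ))) hfin.toFinset (fun t => m t) hℓ
    (by
      rw [div_le_one (by positivity)]
      have h1 := mul_le_mul_of_nonneg_left r24 r0.le
      have h2 : 2 * y ≤ 2 * y * k := le_mul_of_one_le_right (by positivity) k1'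
      linarith only [h1, h2, hr, y1, μ2, r0])
    B1
    (by
      rw [Fin.sum_univ_succ, hN]
      simp only [Fin.cons_zero, Fin.cons_succ, Finset.sum_const, Finset.card_univ,
        Fintype.card_fin, smul_eq_mul]
      calc B + u₀ * B + D * (B + u₁ * B) + 1 ≤ B + u₀ * B + D * (B + u₁ * B) + B :=
            Nat.add_le_add_left B1 _
        _ = _ := by ring)
    (Real.one_le_rpow G0 (by positivity)) (Real.exp_pos _)
    (fun t ht => (hfin.mem_toFinset.1 ht).1)
    (fun t ht => by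
      obtain ⟨t1, t2⟩ := hfin.mem_toFinset.1 ht
      have t3 : |(t : ℝ)| < y / 40 := by
        rw [Nat.abs_cast]
        have := mul_le_mul_of_nonneg_left e6 W0.le
        linarith only [this, t1, hW1, y1, y0]
      obtain ⟨t4, t5⟩ := hℓt t t3
      have t6 : ℓ t = ((ℓ (t : ℝ)).re : ℂ) := by
        apply Complex.ext
        · simp
        · simpa using t4
      have t7 : (Gm s μ ^ ((k : ℝ)⁻¹) * Real.exp (ℓ (t : ℝ)).re) ^ k = Gm s (mu (x + t)) := by
        rw [mul_pow, Real.rpow_inv_natCast_pow G00.le (by omega), ← Real.exp_nat_mul, t5]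
      have t8 := hm t t2
      rw [← t7] at t8
      have t9 : 0 < Gm s μ ^ ((k : ℝ)⁻¹) * Real.exp (ℓ (t : ℝ)).re :=
        mul_pos (Real.rpow_pos_of_pos G00 _) (Real.exp_pos _)
      have := SmallK_root k1 (Nat.cast_nonneg _) t9 t8
      rw [t6, ← Complex.ofReal_exp, ← Complex.ofReal_mul, Int.cast_natCast,
        ← Complex.ofReal_natCast, ← Complex.ofReal_sub, Complex.norm_real, Complex.norm_real,
        Real.norm_of_nonneg t9.le]
      exact this)
    (by
      rw [hNa]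
      have h1 : q * (2 * y * k / μ) = σ * (2 * y) / L := by
        rw [hq]
        field_simp
      have h2 : C * W ≤ 4 * (σ * (2 * y) / L) := by
        rw [← mul_div_assoc, le_div_iff₀ L0]
        have h3 := mul_le_mul_of_nonneg_left e5 W0.le
        have h4 : σ * x ≤ σ * (2 * y) := mul_le_mul_of_nonneg_left y1 hσ.le
        calc C * W * L = W * (C * L) := by ring
          _ ≤ W * (4 * σ * W1) := h3
          _ = 4 * (σ * (W * W1)) := by ring
          _ ≤ _ := by rw [hW1]; linarith only [h4]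
      have h5 := mul_le_mul_of_nonneg_right N1 (by positivity : 0 ≤ 2 * y * k / μ)
      linarith only [h1, h2, h5])
    (by
      have h1 : q ≤ 3 * σ * r := by
        rw [hq, div_le_iff₀ (by positivity)]
        have h2 : 1 ≤ k * L := one_le_mul_of_one_le_of_one_le k1' e4
        have h3 : σ * μ ≤ σ * (3 * r) := mul_le_mul_of_nonneg_left μ2 hσ.le
        have h4 : 3 * σ * r ≤ 3 * σ * r * (k * L) := le_mul_of_one_le_right (by positivity) h2
        linarith only [h3, h4]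
      have h5 : lam * (q + 1) ≤ lam * ((3 * σ + 1) * r) :=
        mul_le_mul_of_nonneg_left (by linarith only [h1, r24]) lam0
      have h6 := mul_le_mul_of_nonneg_left e7 r0.le
      calc (N : ℝ) ≤ lam * ((3 * σ + 1) * r) := N2.trans h5
        _ = r * (lam * (3 * σ + 1)) := by ring
        _ ≤ W := hW2 ▸ h6)
    (by
      have h0 : C * N / B = C * lam := by
        rw [hN']
        field_simp
      have h1 : (q + 1) * (2 * y * k / μ) = 2 * y * (σ / L + k / μ) := by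
        rw [hq]
        field_simp
      have h2 : k / μ ≤ |C₀| / L := by
        rw [div_le_div_iff₀ μ0 L0]
        exact hkC.trans (mul_le_mul (le_abs_self _) μ1 r0.le (abs_nonneg _))
      have h3 : N * (2 * y * k / μ) ≤ lam * (2 * y * ((σ + |C₀|) / L)) := by
        refine (mul_le_mul_of_nonneg_right N2 (by positivity)).trans ?_
        rw [mul_assoc, h1, add_div]
        gcongr
      rw [hNa, h0]
      have h4 : 5120 * lam * (σ + |C₀|) * Real.exp (C * lam) / L ≤ 1 := (div_le_one L0).2 e8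
      calc 16 * (4 * (N * (2 * y * k / μ))) * Real.exp (C * lam)
          ≤ 16 * (4 * (lam * (2 * y * ((σ + |C₀|) / L)))) * Real.exp (C * lam) := by gcongr
        _ = y / 40 * (5120 * lam * (σ + |C₀|) * Real.exp (C * lam) / L) := by ring
        _ ≤ y / 40 := mul_le_of_le_one_right (by positivity) h4)
    (by
      rw [hia, one_div, Real.log_inv, Real.log_exp, neg_neg]
      have c1 : 1 + C - Real.log σ ≤ c := hc ▸ le_abs_self _
      have c0 : 0 ≤ c := hc ▸ abs_nonneg _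
      have lL : 0 ≤ Real.log L := Real.log_nonneg e4
      have b0 : 0 ≤ β + 2 * κ' := by linarith only [hβ, hκ']
      have h1 : Real.log (2 * y * k / μ) + Real.log (W / N) + C ≤
          (β + 2 * κ') * L + (Real.log L + c) := by linarith only [α1, ω1, c1, hkL]
      have h2 : 0 ≤ (β + 2 * κ') * L + (Real.log L + c) := by positivity
      have h3 : q ≤ σ * μ / (K * L) := by
        rw [hq]
        gcongr
      have h4 : (N : ℝ) ≤ lam * (σ * μ / (K * L) + 1) :=
        N2.trans (mul_le_mul_of_nonneg_left (by linarith only [h3]) lam0)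
      refine (mul_le_mul_of_nonneg_left h1 N0.le).trans
        ((mul_le_mul_of_nonneg_right h4 h2).trans ?_)
      have h5 : lam * σ * (Real.log L + c) / L ≤ δ := by
        rw [div_le_iff₀ L0]
        linarith only [e9]
      have h6 : K * (lam * ((β + 2 * κ') * L + (Real.log L + c))) ≤ δ * μ := by
        refine le_trans ?_ (e11.trans (mul_le_mul_of_nonneg_left μ1 P2'.le))
        have : (β + 2 * κ') * L + (Real.log L + c) ≤ (β + 2 * κ' + 1) * L := by
          linarith only [e10]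
        calc _ ≤ K * (lam * ((β + 2 * κ' + 1) * L)) := by gcongr
          _ = _ := by ring
      have h7 := mul_le_mul_of_nonneg_left h5 μ0.le
      refine le_of_mul_le_mul_left ?_ (zero_lt_one.trans_le K1)
      calc K * (lam * (σ * μ / (K * L) + 1) * ((β + 2 * κ') * L + (Real.log L + c)))
          = μ * (lam * σ * (β + 2 * κ')) + μ * (lam * σ * (Real.log L + c) / L) +
            K * (lam * ((β + 2 * κ') * L + (Real.log L + c))) := by
            field_simp
        _ ≤ μ * (lam * σ * (β + 2 * κ')) + μ * δ + δ * μ := by linarith only [h6, h7]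
        _ = K * (κ * μ) := by
            rw [hδ]
            ring)
    (by
      rw [hia, hU1, hU2, hU3]
      have g1 : Real.log (Gm s μ ^ ((k : ℝ)⁻¹)) ≤ B * (L / σ) := by
        rw [Real.log_rpow G00]
        have h1 : Real.log (Gm s μ) ≤ μ := (Real.log_le_iff_le_exp G00).2 G2
        calc (k : ℝ)⁻¹ * Real.log (Gm s μ) ≤ (k : ℝ)⁻¹ * μ := by gcongr
          _ = q * (L / σ) := by
            rw [hq]
            field_simp
          _ ≤ B * (L / σ) := by gcongr
      have h2 : C * lam ^ 2 + l0 ^ 2 / 2 * Real.log (W / N) + T / (2 * σ) * L ≤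
          (l0 ^ 2 - S) / 2 * Real.log (2 * y * k / μ) := by
        have a1 := mul_le_mul_of_nonneg_left ω1 (by positivity : 0 ≤ l0 ^ 2 / 2)
        have a2 := mul_le_mul_of_nonneg_left α2 (by positivity : 0 ≤ (l0 ^ 2 - S) / 2)
        have a3 := mul_le_mul_of_nonneg_left hkL (by positivity : 0 ≤ S / 2)
        linarith only [a1, a2, a3, e12]
      have h3 := mul_le_mul_of_nonneg_left h2 (sq_nonneg (B : ℝ))
      have h4 := mul_le_mul_of_nonneg_right g1 (by positivity : 0 ≤ T / 2 * B)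
      have h5 : B * (L / σ) * (T / 2 * B) = B ^ 2 * (T / (2 * σ) * L) := by
        field_simp
      have h6 : C * (N : ℝ) ^ 2 = B ^ 2 * (C * lam ^ 2) := by
        rw [hN']
        ring
      rw [h6]
      linarith only [h3, h4, h5])
    (by
      rw [Fin.sum_univ_succ, Fin.cons_zero]
      exact le_add_right (Nat.mul_pos hu₀ B1))
  have key' : ((hfin.toFinset.card : ℕ) : ℝ) ≤ 2 * N := by exact_mod_cast key.le
  linarith only [key', N2]

end Pool.Agent.PPow
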