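import Pool.Agent.P.MP_54dcdd_nt.Close
import Pool.Agent.P.MP_54dcdd_nt.Cover
import Pool.Agent.P.MP_54dcdd_nt.LargeK
import Pool.Agent.P.MP_54dcdd_nt.SmallK

/-! Partition numbers close to powers with large exponent. -/

open Complex MeasureTheory
open scoped Real

noncomputable section

namespace Pool.Agent.PPow

theorem PartB_finite (y : ℝ) (P : ℕ → Prop) : {t : ℕ | (t : ℝ) ≤ y ∧ P t}.Finite :=
  (Set.finite_Iic ⌊y⌋₊).subset fun _ ht => Nat.le_floor ht.1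

theorem PartB_harm {x : ℝ} (hx : 1 ≤ Real.log x) (hx1 : 1 ≤ x) :
    ∑ k ∈ Finset.Icc 1 ⌊√x⌋₊, 1 / ((k : ℝ) * Real.log x) ≤ 2 := by
  have h1 := harmonic_le_one_add_log ⌊√x⌋₊
  simp only [harmonic_eq_sum_Icc, Rat.cast_sum, Rat.cast_inv, Rat.cast_natCast] at h1
  have hs : 1 ≤ √x := Real.one_le_sqrt.2 hx1
  have h2 : (⌊√x⌋₊ : ℝ) ≤ x := by
    refine (Nat.floor_le (Real.sqrt_nonneg x)).trans ?_
    nlinarith [Real.sq_sqrt (zero_le_one.trans hx1)]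
  have h3 : (1 : ℝ) ≤ (⌊√x⌋₊ : ℝ) := by exact_mod_cast Nat.le_floor (by simpa using hs)
  have h4 : Real.log (⌊√x⌋₊ : ℝ) ≤ Real.log x := Real.log_le_log (by linarith) h2
  have h5 : ∑ k ∈ Finset.Icc 1 ⌊√x⌋₊, 1 / ((k : ℝ) * Real.log x) =
      (∑ k ∈ Finset.Icc 1 ⌊√x⌋₊, (k : ℝ)⁻¹) / Real.log x := by
    rw [Finset.sum_div]
    refine Finset.sum_congr rfl fun k _ => ?_
    rw [one_div, mul_inv, div_eq_mul_inv]
  rw [h5, div_le_iff₀ (by linarith)]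
  linarith

/-- the count in one window, for one sign -/
theorem PartB_window {K : ℕ} (hK : 1 ≤ K) {β κ e C₀ C lam σ s : ℝ} {x₀ : ℕ} (he : 0 ≤ e)
    (hlam : 0 ≤ lam) (hσ : 0 ≤ σ) (hx : 1 ≤ Real.log x₀) (hx' : C₀ ≤ Real.log x₀)
    (hL : ({t : ℕ | (t : ℝ) ≤ (x₀ : ℝ) ^ β ∧
        ∃ k : ℕ, C₀ * √(x₀ : ℝ) < k * Real.log x₀ ∧ Near s κ x₀ k t}.ncard : ℝ) ≤
        C * (x₀ : ℝ) ^ (1 / 2 + e))
    (hS : ∀ k : ℕ, K ≤ k → k * Real.log x₀ ≤ C₀ * √(x₀ : ℝ) →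
      Real.log k ≤ 1 / 2 * Real.log x₀ →
      ({t : ℕ | (t : ℝ) ≤ (x₀ : ℝ) ^ β ∧ Near s κ x₀ k t}.ncard : ℝ) ≤
        lam * (σ * mu x₀ / (k * Real.log x₀) + 1)) :
    ({t : ℕ | (t : ℝ) ≤ (x₀ : ℝ) ^ β ∧ ∃ k : ℕ, K ≤ k ∧ Near s κ x₀ k t}.ncard : ℝ) ≤
      (C + lam * (6 * σ + 1)) * (x₀ : ℝ) ^ (1 / 2 + e) := by
  classical
  have hx1 : (1 : ℝ) ≤ x₀ := by
    by_contra h
    have h0 : x₀ = 0 := by
      have : x₀ < 1 := by exact_mod_cast not_le.1 h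
      omega
    rw [h0] at hx
    norm_num at hx
  have hs0 : 0 < √(x₀ : ℝ) := Real.sqrt_pos.2 (by linarith)
  set F : Finset ℕ := (Finset.Icc 1 ⌊√(x₀ : ℝ)⌋₊).filter
    fun k => K ≤ k ∧ k * Real.log x₀ ≤ C₀ * √(x₀ : ℝ) with hF
  have hsub : {t : ℕ | (t : ℝ) ≤ (x₀ : ℝ) ^ β ∧ ∃ k : ℕ, K ≤ k ∧ Near s κ x₀ k t} ⊆
      {t : ℕ | (t : ℝ) ≤ (x₀ : ℝ) ^ β ∧
        ∃ k : ℕ, C₀ * √(x₀ : ℝ) < k * Real.log x₀ ∧ Near s κ x₀ k t} ∪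
      ⋃ k ∈ F, {t : ℕ | (t : ℝ) ≤ (x₀ : ℝ) ^ β ∧ Near s κ x₀ k t} := by
    rintro t ⟨ht, k, hk, hn⟩
    rcases lt_or_ge (C₀ * √(x₀ : ℝ)) (k * Real.log x₀) with h | h
    · exact Or.inl ⟨ht, k, h, hn⟩
    · refine Or.inr (Set.mem_biUnion (x := k) ?_ ⟨ht, hn⟩)
      refine Finset.mem_filter.2 ⟨Finset.mem_Icc.2 ⟨hK.trans hk, Nat.le_floor ?_⟩, hk, h⟩
      have h1 : (k : ℝ) * Real.log x₀ ≤ √(x₀ : ℝ) * Real.log x₀ := by nlinarith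
      exact le_of_mul_le_mul_right h1 (by linarith)
  have hfin : ({t : ℕ | (t : ℝ) ≤ (x₀ : ℝ) ^ β ∧
        ∃ k : ℕ, C₀ * √(x₀ : ℝ) < k * Real.log x₀ ∧ Near s κ x₀ k t} ∪
      ⋃ k ∈ F, {t : ℕ | (t : ℝ) ≤ (x₀ : ℝ) ^ β ∧ Near s κ x₀ k t}).Finite :=
    (PartB_finite _ _).union (F.finite_toSet.biUnion fun _ _ => PartB_finite _ _)
  have h1 := ((Set.ncard_le_ncard hsub hfin).trans (Set.ncard_union_le _ _)).trans
    (Nat.add_le_add_left (F.set_ncard_biUnion_le _) _)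
  have h2 : ∑ k ∈ F, (({t : ℕ | (t : ℝ) ≤ (x₀ : ℝ) ^ β ∧ Near s κ x₀ k t}.ncard : ℕ) : ℝ) ≤
      ∑ k ∈ Finset.Icc 1 ⌊√(x₀ : ℝ)⌋₊,
        lam * (σ * (3 * √(x₀ : ℝ)) * (1 / (k * Real.log x₀)) + 1) := by
    refine (Finset.sum_le_sum fun k hk => ?_).trans
      (Finset.sum_le_sum_of_subset_of_nonneg (Finset.filter_subset _ _) fun k _ _ => ?_)
    · obtain ⟨hk1, hk2, hk3⟩ := Finset.mem_filter.1 hk
      obtain ⟨hk4, hk5⟩ := Finset.mem_Icc.1 hk1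
      have hk6 : (1 : ℝ) ≤ k := by exact_mod_cast hk4
      have hk7 : (k : ℝ) ≤ √(x₀ : ℝ) := (Nat.le_floor_iff hs0.le).1 hk5
      have hk8 : Real.log k ≤ 1 / 2 * Real.log x₀ := by
        have := Real.log_le_log (by linarith) hk7
        rw [Real.log_sqrt (by linarith)] at this
        linarith
      refine (hS k hk2 hk3 hk8).trans (mul_le_mul_of_nonneg_left ?_ hlam)
      rw [mul_one_div]
      have := (mu_bounds hx1).2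
      gcongr
    · have : 0 ≤ Real.log x₀ := by linarith
      positivity
  have h3 : ∑ k ∈ Finset.Icc 1 ⌊√(x₀ : ℝ)⌋₊,
      lam * (σ * (3 * √(x₀ : ℝ)) * (1 / (k * Real.log x₀)) + 1) ≤
      lam * (6 * σ + 1) * √(x₀ : ℝ) := by
    rw [← Finset.mul_sum, Finset.sum_add_distrib, ← Finset.mul_sum, mul_assoc lam]
    refine mul_le_mul_of_nonneg_left ?_ hlam
    have h4 := PartB_harm hx hx1
    have h5 : (⌊√(x₀ : ℝ)⌋₊ : ℝ) ≤ √(x₀ : ℝ) := Nat.floor_le hs0.le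
    have h6 := mul_le_mul_of_nonneg_left h4 (show 0 ≤ σ * (3 * √(x₀ : ℝ)) by positivity)
    simp only [Finset.sum_const, Nat.card_Icc, add_tsub_cancel_right, nsmul_eq_mul, mul_one]
    linarith
  have h4 : √(x₀ : ℝ) ≤ (x₀ : ℝ) ^ (1 / 2 + e) := by
    rw [Real.sqrt_eq_rpow]
    exact Real.rpow_le_rpow_of_exponent_le hx1 (by linarith)
  have h5 := mul_le_mul_of_nonneg_left h4 (show 0 ≤ lam * (6 * σ + 1) by positivity)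
  have h6 : (({t : ℕ | (t : ℝ) ≤ (x₀ : ℝ) ^ β ∧
      ∃ k : ℕ, K ≤ k ∧ Near s κ x₀ k t}.ncard : ℕ) : ℝ) ≤ _ := Nat.cast_le.2 h1
  rw [Nat.cast_add, Nat.cast_sum] at h6
  linarith

theorem part_b {θ ε : ℝ} (hθ : θ < 1) (hε : 0 < ε) :
    ∃ K : ℕ, ∀ d : ℝ, ∃ C : ℝ, ∀ X : ℝ, 1 ≤ X →
      ({n : ℕ | (n : ℝ) ≤ X ∧ ∃ k : ℕ, K ≤ k ∧ ∃ m : ℤ,
        |(pn n : ℝ) - (m : ℝ) ^ k| ≤ d + (pn n : ℝ) ^ θ}.ncard : ℝ) ≤ C * X ^ (1 / 2 + ε) := by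
  obtain ⟨κ, hκ0, hκ1, hκ2⟩ : ∃ κ : ℝ, 0 < κ ∧ κ < 1 - θ ∧ κ < 2 / 3 := by
    have h1 : 0 < min (1 - θ) (2 / 3) := lt_min (by linarith) (by norm_num)
    exact ⟨min (1 - θ) (2 / 3) / 2, by linarith, by linarith [min_le_left (1 - θ) (2 / 3)],
      by linarith [min_le_right (1 - θ) (2 / 3)]⟩
  obtain ⟨e, he0, he1, he2⟩ : ∃ e : ℝ, 0 < e ∧ e ≤ ε / 2 ∧ e ≤ 1 / 4 :=
    ⟨min (ε / 2) (1 / 4), lt_min (by linarith) (by norm_num), min_le_left _ _, min_le_right _ _⟩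
  obtain ⟨D, hD⟩ : ∃ D : ℕ, 3 / e ≤ D := exists_nat_ge _
  rw [div_le_iff₀ he0] at hD
  have hD0 : (0 : ℝ) < D := by
    rcases Nat.eq_zero_or_pos D with h | h
    · rw [h] at hD
      norm_num at hD
    · exact_mod_cast h
  have hD1 : 1 ≤ D := by exact_mod_cast hD0
  obtain ⟨K, hK⟩ : ∃ K : ℕ, (((1 : ℕ) : ℝ) + D * (1 : ℕ) + D + 2) * D * (1 - e + 2 * (1 / 2)) / κ
      < K := exists_nat_gt _
  have hK1 : 1 ≤ K := by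
    have h1 : 0 < 1 - e + 2 * (1 / 2) := by linarith
    have : (0 : ℝ) < K := lt_of_le_of_lt (by positivity) hK
    exact_mod_cast this
  rw [div_lt_iff₀ hκ0] at hK
  obtain ⟨C₀, C, X₁, -, hL⟩ := large_k (β := 1 - e) (κ := κ) (ε := e) (by linarith) hκ0 he0
  obtain ⟨X₂, hS⟩ := small_k (D := D) (u₀ := 1) (u₁ := 1) (K := K) hD1 le_rfl hK1 (σ := D)
    (β := 1 - e) (κ' := 1 / 2) (κ := κ) (C₀ := C₀) hD0 (by linarith) (by linarith) (by norm_num)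
    (by
      have h1 : ((1 : ℕ) : ℝ) * D * (D + 1) / (2 * D) = (D + 1) / 2 := by
        field_simp
        simp
      rw [h1]
      push_cast
      nlinarith [mul_pos (show (0 : ℝ) < D + 1 by linarith)
        (show (0 : ℝ) < D * e + e - 2 by linarith)]) hK
  refine ⟨K, fun d => ?_⟩
  obtain ⟨X₃, hN⟩ := near_of_close hκ1 hκ2 hκ0.le d
  obtain ⟨X₄, hX₄⟩ : ∃ X₄ : ℕ, Real.exp (max 1 C₀) ≤ X₄ := exists_nat_ge _
  set lam : ℝ := 2 * (((1 : ℕ) : ℝ) + D * (1 : ℕ) + D + 2) with hlam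
  obtain ⟨C', hC'⟩ := cover (E := {n : ℕ | ∃ k : ℕ, K ≤ k ∧ ∃ m : ℤ,
      |(pn n : ℝ) - (m : ℝ) ^ k| ≤ d + (pn n : ℝ) ^ θ}) (β := 1 - e) (γ := 1 / 2 + e)
      (A := 2 * (C + lam * (6 * D + 1))) (by linarith) (by linarith) (by linarith)
      (X₀ := X₁ + X₂ + X₃ + X₄) (fun x₀ hx => by
    have hx4 : Real.exp (max 1 C₀) ≤ x₀ :=
      hX₄.trans (Nat.cast_le.2 (by omega))
    have hlog : max 1 C₀ ≤ Real.log x₀ :=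
      (Real.le_log_iff_exp_le ((Real.exp_pos _).trans_le hx4)).2 hx4
    have hW : ∀ s : ℝ, |s| ≤ 1 → ({t : ℕ | (t : ℝ) ≤ (x₀ : ℝ) ^ (1 - e) ∧
        ∃ k : ℕ, K ≤ k ∧ Near s κ x₀ k t}.ncard : ℝ) ≤
        (C + lam * (6 * D + 1)) * (x₀ : ℝ) ^ (1 / 2 + e) := fun s hs =>
      PartB_window hK1 he0.le (by positivity) hD0.le ((le_max_left _ _).trans hlog)
        ((le_max_right _ _).trans hlog) (hL x₀ s (by omega) hs)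
        fun k hk h1 h2 => hS x₀ k s (by omega) hs hk h1 h2
    have hsub : {t : ℕ | (t : ℝ) ≤ (x₀ : ℝ) ^ (1 - e) ∧ x₀ + t ∈ {n : ℕ | ∃ k : ℕ, K ≤ k ∧
        ∃ m : ℤ, |(pn n : ℝ) - (m : ℝ) ^ k| ≤ d + (pn n : ℝ) ^ θ}} ⊆
        {t : ℕ | (t : ℝ) ≤ (x₀ : ℝ) ^ (1 - e) ∧ ∃ k : ℕ, K ≤ k ∧ Near 1 κ x₀ k t} ∪
        {t : ℕ | (t : ℝ) ≤ (x₀ : ℝ) ^ (1 - e) ∧ ∃ k : ℕ, K ≤ k ∧ Near (-1) κ x₀ k t} := by
      rintro t ⟨ht, k, hk, m, hm⟩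
      have h1 := hN x₀ t k m (by omega) hm
      rcases neg_one_pow_eq_or ℝ (x₀ + t) with h | h
      · exact Or.inl ⟨ht, k, hk, h ▸ h1⟩
      · exact Or.inr ⟨ht, k, hk, h ▸ h1⟩
    have h1 := (Set.ncard_le_ncard hsub
      ((PartB_finite _ _).union (PartB_finite _ _))).trans (Set.ncard_union_le _ _)
    have h2 := (Nat.cast_le (α := ℝ)).2 h1
    rw [Nat.cast_add] at h2
    have h3 := hW 1 (by simp)
    have h4 := hW (-1) (by simp)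
    linarith)
  refine ⟨|C'|, fun X hX => (hC' X hX).trans ?_⟩
  refine mul_le_mul (le_abs_self _) (Real.rpow_le_rpow_of_exponent_le hX (by linarith))
    (Real.rpow_nonneg (by linarith) _) (abs_nonneg _)

end Pool.Agent.PPow
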