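import Pool.Agent.P.MP_54dcdd_nt.DD
import Pool.Agent.P.MP_54dcdd_nt.ZeroA

/-! The window lemma: the interpolation determinant vanishes. -/

open Finset Metric Lagrange
open scoped Nat

noncomputable section

namespace Pool.Agent.PPow

/-- binomial coefficient polynomials -/
def Bp (l : ℕ) : Polynomial ℂ := Polynomial.C (l ! : ℂ)⁻¹ * descPochhammer ℂ l

theorem Bp_nat (l t : ℕ) : (Bp l).eval (t : ℂ) = t.choose l := by
  have : (l ! : ℂ) ≠ 0 := by exact_mod_cast l.factorial_ne_zero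
  rw [Bp, Polynomial.eval_mul, Polynomial.eval_C, descPochhammer_eval_eq_descFactorial,
    Nat.descFactorial_eq_factorial_mul_choose]
  push_cast
  field_simp

theorem Bp_degree (l : ℕ) : (Bp l).degree = l := by
  have : (l ! : ℂ) ≠ 0 := by exact_mod_cast l.factorial_ne_zero
  rw [Bp, Polynomial.degree_C_mul (inv_ne_zero this),
    Polynomial.degree_eq_natDegree (monic_descPochhammer ℂ l).ne_zero, descPochhammer_natDegree]

theorem Bp_indep : LinearIndependent ℂ Bp :=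
  (⟨Bp, Bp_degree⟩ : Polynomial.Sequence ℂ).linearIndependent

theorem Bp_norm {l : ℕ} {ρ : ℝ} (hl : (l : ℝ) ≤ ρ) {z : ℂ} (hz : ‖z‖ ≤ ρ) :
    ‖(Bp l).eval z‖ ≤ (2 * ρ) ^ l / l ! := by
  rw [Bp, Polynomial.eval_mul, Polynomial.eval_C, descPochhammer_eval_eq_prod_range, norm_mul,
    norm_inv, Complex.norm_natCast, norm_prod, div_eq_inv_mul]
  gcongr
  refine (prod_le_prod (g := fun _ => 2 * ρ) (fun _ _ => norm_nonneg _) fun i hi => ?_).trans_eq
    (by rw [prod_const, card_range])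
  refine (norm_sub_le _ _).trans ?_
  have : (i : ℝ) ≤ l := by exact_mod_cast (mem_range.1 hi).le
  rw [Complex.norm_natCast]
  linarith

theorem pow_pert {m w : ℂ} {ε : ℝ} (h : ‖m - w‖ ≤ ε * ‖w‖) (h₁ : ε ≤ 1) (j : ℕ) :
    ‖m ^ j - w ^ j‖ ≤ (2 ^ j - 1) * ε * ‖w‖ ^ j := by
  induction j with
  | zero => simp
  | succ j ih =>
    have hm : ‖m‖ ≤ 2 * ‖w‖ := by
      have := norm_add_le (m - w) w
      rw [sub_add_cancel] at this
      nlinarith [norm_nonneg w]
    have e : m ^ (j + 1) - w ^ (j + 1) = m * (m ^ j - w ^ j) + (m - w) * w ^ j := by ring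
    rw [e]
    refine (norm_add_le _ _).trans ?_
    rw [norm_mul, norm_mul, norm_pow]
    refine (add_le_add (mul_le_mul hm ih (norm_nonneg _) (by positivity))
      (mul_le_mul_of_nonneg_right h (by positivity))).trans_eq (by ring)

theorem weight_nat {ι : Type} [DecidableEq ι] {s : Finset ι} {t : ι → ℕ} (ht : Set.InjOn t s)
    {i : ι} (hi : i ∈ s) :
    ‖nodalWeight s (fun j => (t j : ℂ)) i‖ ≤ 2 ^ (s.card - 1) / (s.card - 1)! := by
  simpa using weight_bound (t := fun j => (t j : ℤ))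
    (fun a ha b hb h => ht ha hb (Nat.cast_injective h)) one_pos hi

theorem pow_div_fact {a : ℝ} (ha : 0 < a) {c : ℝ} (hc : 0 ≤ c) (N l : ℕ) :
    (c * N / a) ^ l / l ! ≤ (c / a) ^ l * Real.exp N := by
  rw [mul_div_right_comm, mul_pow, mul_div_assoc]
  exact mul_le_mul_of_nonneg_left (Real.pow_div_factorial_le_exp _ N.cast_nonneg l) (by positivity)

variable {ℓ : ℂ → ℂ} {a R : ℝ}

theorem LG.exp_le (h : LG ℓ a R) {D N₁ j : ℕ} (hj : j ≤ D) (hR : 4 * N₁ / a < R) {z : ℂ}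
    (hz : ‖z‖ ≤ 4 * N₁ / a) :
    ‖Complex.exp (((j : ℕ) : ℤ) * ℓ z)‖ ≤ Real.exp (8 * D * N₁) := by
  refine (h.norm_exp_le (D := D) (mem_ball_zero_iff.2 (hz.trans_lt hR)) ?_ hz).trans_eq ?_
  · rw [Complex.norm_intCast]
    exact_mod_cast (by simpa using hj)
  · have := h.ha
    congr 1
    field_simp
    ring

theorem pow_exp_eq (g z : ℂ) (j : ℕ) :
    (g * Complex.exp z) ^ j = g ^ j * Complex.exp (((j : ℕ) : ℤ) * z) := by
  rw [mul_pow, ← Complex.exp_nat_mul, Int.cast_natCast]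

/-- The bound for the interpolation determinant. -/
theorem LG.det_le (h : LG ℓ a R) (ha : a ≤ 1) {D N N₁ : ℕ} (hN : N ≤ N₁) {W g ε : ℝ}
    (hg : 1 ≤ g) (hε₀ : 0 ≤ ε) (hε₁ : ε ≤ 1) (hW₀ : 0 < W) (hW : 2 * W ≤ 4 * N₁ / a)
    (hR : 4 * N₁ / a < R)
    (hε : N₁ * 2 ^ D * ((4 / a) ^ N₁ * Real.exp N₁) * ε ≤ 1) {t : Fin N → ℕ}
    (ht : Function.Injective t) (htW : ∀ i, (t i : ℝ) ≤ W) {m : Fin N → ℂ}
    (hm : ∀ i, ‖m i - g * Complex.exp (ℓ (t i))‖ ≤ ε * ‖(g : ℂ) * Complex.exp (ℓ (t i))‖)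
    {J L : Fin N → ℕ} (hJ : ∀ b, J b ≤ D) (hL : ∀ b, L b ≤ N₁) :
    ‖(Matrix.of fun i b => ((t i).choose (L b) : ℂ) * m i ^ J b).det‖ ≤
      N ! * ((∏ i : Fin N, 3 * (W / N₁ * a) ^ (i : ℕ)) *
        ∏ b, (8 / a) ^ L b * Real.exp N₁ * (g ^ J b * Real.exp (8 * D * N₁))) := by
  obtain ⟨ρ, hρ⟩ : ∃ ρ, ρ = 4 * N₁ / a := ⟨_, rfl⟩
  rw [← hρ] at hW hR
  have ha₀ := h.ha
  have hρ₀ : 0 < ρ := by linarith
  have hN₁ : (0 : ℝ) < N₁ := by
    by_contra h0
    have : (N₁ : ℝ) = 0 := le_antisymm (not_lt.1 h0) N₁.cast_nonneg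
    rw [hρ, this] at hρ₀
    simp at hρ₀
  have hNρ : (N₁ : ℝ) ≤ ρ := by
    rw [hρ, le_div_iff₀ ha₀]
    nlinarith
  have htn : ∀ i, ‖(t i : ℂ)‖ ≤ W := fun i => by rw [Complex.norm_natCast]; exact htW i
  let f : Fin N → ℂ → ℂ := fun b z =>
    (Bp (L b)).eval z * (g ^ J b * Complex.exp (((J b : ℕ) : ℤ) * ℓ z))
  let M : Fin N → ℝ := fun b => (8 / a) ^ L b * Real.exp N₁ * (g ^ J b * Real.exp (8 * D * N₁))
  have hM₀ : ∀ b, 0 ≤ M b := fun b => by positivity
  have hf : ∀ b z, ‖z‖ ≤ ρ → ‖f b z‖ ≤ M b := fun b z hz => by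
    simp only [f, M, norm_mul, norm_pow, Complex.norm_real, Real.norm_of_nonneg (by linarith : 0 ≤ g)]
    refine mul_le_mul ((Bp_norm (le_trans (by exact_mod_cast hL b) hNρ) hz).trans ?_)
      (mul_le_mul_of_nonneg_left (h.exp_le (hJ b) (hρ ▸ hR) (hρ ▸ hz)) (by positivity)) (by positivity)
      (by positivity)
    refine le_trans (le_of_eq ?_) (pow_div_fact ha₀ (by norm_num) N₁ (L b))
    rw [hρ]
    congr 2
    ring
  have hv : Function.Injective fun i => (t i : ℂ) := fun i j hij => ht (Nat.cast_injective hij)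
  refine (det_bound hv (W := W) (fun i j => ?_) _ (b := fun i => 3 * (2 / ρ) ^ (i : ℕ)) (M := M)
    fun i b => ?_).trans ?_
  · rw [← Complex.ofReal_natCast, ← Complex.ofReal_natCast, ← Complex.ofReal_sub,
      Complex.norm_real, Real.norm_eq_abs, abs_le]
    constructor <;> linarith [htW i, htW j, (t i).cast_nonneg (α := ℝ), (t j).cast_nonneg (α := ℝ)]
  · have hc : (Iic i).card = i + 1 := Fin.card_Iic i
    have e : ∑ j ∈ Iic i, nodalWeight (Iic i) (fun i => (t i : ℂ)) j *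
        (Matrix.of fun i b => ((t i).choose (L b) : ℂ) * m i ^ J b) j b =
        ∑ j ∈ Iic i, nodalWeight (Iic i) (fun i => (t i : ℂ)) j * f b (t j) +
        ∑ j ∈ Iic i, nodalWeight (Iic i) (fun i => (t i : ℂ)) j * ((Bp (L b)).eval (t j : ℂ) *
          (m j ^ J b - (g * Complex.exp (ℓ (t j))) ^ J b)) := by
      rw [← sum_add_distrib]
      refine sum_congr rfl fun j _ => ?_
      simp only [f, Matrix.of_apply, pow_exp_eq, Bp_nat]
      ring
    rw [e]
    have h₁ := dd_bound (s := Iic i) hv.injOn ⟨i, mem_Iic.2 le_rfl⟩ (f := f b) (ρ := ρ) (W := W)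
      (M := M b) (by linarith) (fun j _ => htn j)
      (((Bp _).differentiableOn.mul ((h.diff.const_mul _).cexp.const_mul _)).mono
        (closedBall_subset_ball hR))
      fun z hz => hf b z (mem_sphere_zero_iff_norm.1 hz).le
    have h₁' : ρ * (M b / (ρ - W) ^ (Iic i).card) ≤ 2 * (2 / ρ) ^ (i : ℕ) * M b := by
      rw [hc]
      calc _ ≤ ρ * (M b / (ρ / 2) ^ ((i : ℕ) + 1)) := by
            have := hM₀ b
            gcongr
            linarith
        _ = _ := by rw [div_pow, div_pow]; field_simp; ring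
    have h₂ : ∀ j ∈ Iic i, ‖nodalWeight (Iic i) (fun i => (t i : ℂ)) j *
        ((Bp (L b)).eval (t j : ℂ) * (m j ^ J b - (g * Complex.exp (ℓ (t j))) ^ J b))‖ ≤
        2 ^ (i : ℕ) / (i : ℕ)! * (2 ^ D * ε * M b) := fun j hj => by
      rw [norm_mul]
      refine mul_le_mul (by simpa [hc] using weight_nat ht.injOn hj) ?_ (norm_nonneg _)
        (by positivity)
      have h₃ := hf b (t j) ((htn j).trans (by linarith))
      simp only [f, ← pow_exp_eq, norm_mul (Polynomial.eval _ _), norm_pow] at h₃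
      rw [norm_mul]
      refine (mul_le_mul_of_nonneg_left (pow_pert (hm j) hε₁ _) (norm_nonneg _)).trans ?_
      rw [mul_left_comm]
      have : (2 : ℝ) ^ J b ≤ 2 ^ D := pow_le_pow_right₀ one_le_two (hJ b)
      exact mul_le_mul (mul_le_mul_of_nonneg_right (by linarith) hε₀) h₃ (by positivity)
        (by positivity)
    have h₂' := (norm_sum_le _ _).trans (sum_le_card_nsmul _ _ _ h₂)
    have hi : (i : ℕ) + 1 ≤ N₁ := le_trans i.2 hN
    have h₄ : ((i : ℕ) + 1 : ℕ) * (ρ ^ (i : ℕ) / (i : ℕ)!) * (2 ^ D * ε) ≤ 1 := by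
      refine le_trans ?_ hε
      have h₅ : ρ ^ (i : ℕ) / (i : ℕ)! ≤ (4 / a) ^ N₁ * Real.exp N₁ :=
        (hρ ▸ pow_div_fact ha₀ (by norm_num) N₁ i).trans (mul_le_mul_of_nonneg_right
          (pow_le_pow_right₀ ((one_le_div ha₀).2 (by linarith)) (by omega)) (by positivity))
      calc _ ≤ N₁ * ((4 / a) ^ N₁ * Real.exp N₁) * (2 ^ D * ε) := by gcongr
        _ = _ := by ring
    refine (norm_add_le _ _).trans ((add_le_add (h₁.trans h₁') h₂').trans ?_)
    rw [hc, nsmul_eq_mul]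
    have h₆ := mul_le_mul_of_nonneg_right h₄ (mul_nonneg (pow_pos (div_pos two_pos hρ₀) i).le (hM₀ b))
    have e₂ : ((i : ℕ) + 1 : ℕ) * (2 ^ (i : ℕ) / (i : ℕ)! * (2 ^ D * ε * M b)) =
        ((i : ℕ) + 1 : ℕ) * (ρ ^ (i : ℕ) / (i : ℕ)!) * (2 ^ D * ε) * ((2 / ρ) ^ (i : ℕ) * M b) := by
      rw [div_pow]
      field_simp
    rw [e₂]
    linarith
  · refine mul_le_mul_of_nonneg_left (mul_le_mul_of_nonneg_right
      (prod_le_prod (fun i _ => by positivity) fun i _ => ?_) (prod_nonneg fun b _ => hM₀ b))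
      (by positivity)
    rw [mul_left_comm, ← mul_pow]
    refine mul_le_mul_of_nonneg_left (pow_le_pow_left₀ (by positivity) ?_ _) (by norm_num)
    rw [hρ]
    calc _ = W / N₁ * a / 2 := by field_simp; norm_num
      _ ≤ _ := half_le_self (by positivity)

end Pool.Agent.PPow
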