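import Pool.Agent.P.MP_54dcdd_nt.WinA

/-! The window lemma: an auxiliary function cannot be small at many points. -/

open Finset Metric Lagrange
open scoped Nat

noncomputable section

namespace Pool.Agent.PPow

/-- the constant of the window lemma -/
def Cw (D : ℕ) : ℝ := 16 * (D + 1) * 2 ^ D * (72 * Real.exp 2 * Real.exp (8 * D) * Qz D)

theorem one_le_Qz {D : ℕ} (hD : 1 ≤ D) : 1 ≤ Qz D := by
  have hD' : (1 : ℝ) ≤ D := by exact_mod_cast hD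
  have := Real.one_le_exp (x := 16 * D) (by positivity)
  rw [Qz]
  nlinarith [mul_le_mul hD' hD' zero_le_one (by linarith)]

theorem pow_le_quarter {A B : ℝ} (hA : 1 ≤ A) (hB : 0 ≤ B) {N : ℕ} (hN : 1 ≤ N) :
    A * B ^ N ≤ (4 * A * B) ^ N / 4 := by
  have := le_self_pow₀ (show (1 : ℝ) ≤ 4 * A by linarith) (by omega : N ≠ 0)
  rw [mul_pow]
  nlinarith [pow_nonneg hB N]

variable {ℓ : ℂ → ℂ} {a R : ℝ}

theorem LG.no_small (h : LG ℓ a R) {D N₁ x : ℕ} (hD : 1 ≤ D) {T : Fin (D + 1) → ℕ}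
    (hN : ∑ j, (x + T j) + 1 ≤ N₁) {W ε M : ℝ} (hM : 1 ≤ M) (hR : 4 * (4 * N₁ / a) * M ≤ R)
    (hx : Qz D ^ N₁ ≤ M ^ x) {P : Fin (D + 1) → Polynomial ℂ} (hP : ∀ j, (P j).natDegree ≤ T j)
    (hW : Cw D * W ≤ 4 * N₁ / a) (hNW : (N₁ : ℝ) ≤ W) (hε₀ : 0 ≤ ε)
    (hε : (Cw D * (W / (a * N₁))) ^ N₁ * ε ≤ 1) {s : Finset ℕ} (hs : s.card = 2 * N₁)
    (hsW : ∀ t ∈ s, (t : ℝ) ≤ W)
    (hsm : ∀ t ∈ s, ‖∑ j, (P j).eval (t : ℂ) * Complex.exp (((j : ℕ) : ℤ) * ℓ t)‖ ≤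
      2 ^ D * ε * ∑ j, ‖(P j).eval (t : ℂ) * Complex.exp (((j : ℕ) : ℤ) * ℓ t)‖) (j : Fin (D + 1)) :
    P j = 0 := by
  have ha := h.ha
  have hN₁ : 1 ≤ N₁ := by omega
  have hN₀ : (1 : ℝ) ≤ N₁ := by exact_mod_cast hN₁
  have hQ := one_le_Qz hD
  have he₂ : 1 ≤ Real.exp 2 := Real.one_le_exp (by norm_num)
  have he₈ : 1 ≤ Real.exp (8 * D) := Real.one_le_exp (by positivity)
  have h2 : (1 : ℝ) ≤ 2 ^ D := one_le_pow₀ one_le_two
  have hD₁ : (1 : ℝ) ≤ D + 1 := by linarith [D.cast_nonneg (α := ℝ)]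
  have hC₁ : 16 * (D + 1) * (18 * Real.exp (8 * D) * Qz D) ≤ Cw D := by
    calc _ = 16 * (D + 1) * 1 * (18 * 1 * Real.exp (8 * D) * Qz D) := by ring
      _ ≤ _ := by rw [Cw]; gcongr; norm_num
  have hC₄ : 4 ≤ Cw D := le_trans (by
    calc (4 : ℝ) ≤ 16 * 1 * (18 * 1 * 1) := by norm_num
      _ ≤ _ := by gcongr) hC₁
  have key := fun {ε' : ℝ} (h₀ : 0 ≤ ε') => h.zero_est hD hN hM hR hx hP (W := 2 * W) (ε := ε')
    (by linarith) (by nlinarith) h₀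
  have hexp := fun (j : Fin (D + 1)) => h.exp_le (D := D) (N₁ := N₁) (Nat.lt_succ_iff.1 j.2)
  obtain ⟨ρ, hρ⟩ : ∃ ρ, ρ = 4 * N₁ / a := ⟨_, rfl⟩
  rw [← hρ] at hW hR key hexp
  have hρ₀ : 0 < ρ := by nlinarith
  have hρR : ρ < R := by nlinarith
  obtain ⟨ν, hν⟩ : ∃ ν, ν = ∑ j, nrm ρ 1 0 (T j) (P j) := ⟨_, rfl⟩
  have hn₀ : ∀ j, 0 ≤ nrm ρ 1 0 (T j) (P j) := fun j => nrm_nonneg hρ₀ le_rfl
  have hν₀ : 0 ≤ ν := hν ▸ sum_nonneg fun j _ => hn₀ j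
  have hF : ∀ z : ℂ, ‖z‖ ≤ ρ → ∑ j, ‖(P j).eval z * Complex.exp (((j : ℕ) : ℤ) * ℓ z)‖ ≤
      ν * Real.exp (8 * D * N₁) := fun z hz => by
    rw [hν, sum_mul]
    refine sum_le_sum fun j _ => ?_
    rw [norm_mul]
    exact mul_le_mul (norm_eval_le (hP j) hz) (hexp j hρR hz) (norm_nonneg _) (hn₀ j)
  have hI := fun z (hz : z ∈ sphere (0 : ℂ) (2 * W)) => interp_bound (s := s)
    (v := fun t : ℕ => (t : ℂ)) Nat.cast_injective.injOn (card_pos.1 (by omega))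
    (f := fun z => ∑ j, (P j).eval z * Complex.exp (((j : ℕ) : ℤ) * ℓ z)) (ρ := ρ) (W := W)
    (M := ν * Real.exp (8 * D * N₁)) (ε := 2 ^ D * ε * (ν * Real.exp (8 * D * N₁)))
    (by linarith) (by nlinarith) (fun t ht => by rw [Complex.norm_natCast]; exact hsW t ht)
    ((h.diff_sum P).mono (closedBall_subset_ball hρR))
    (fun z hz => (norm_sum_le _ _).trans (hF z (mem_closedBall_zero_iff.1 hz)))
    (fun t ht => weight_nat (t := id) Function.injective_id.injOn ht)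
    (fun t ht => (hsm t ht).trans (mul_le_mul_of_nonneg_left (hF t (by
      rw [Complex.norm_natCast]
      nlinarith [hsW t ht])) (by positivity))) (mem_sphere_zero_iff_norm.1 hz)
  have hW₀ : 0 < W := by linarith
  have hsum := sum_le_card_nsmul univ _ _ fun j _ => key (by positivity) hI j
  rw [← hν, card_univ, Fintype.card_fin, nsmul_eq_mul, hs] at hsum
  have eN : Real.exp (8 * D * N₁) = Real.exp (8 * D) ^ N₁ := by
    rw [← Real.exp_nat_mul, mul_comm]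
  have T₁ : (4 * (D + 1)) * (18 * Real.exp (8 * D) * Qz D * (W / ρ)) ^ N₁ ≤ 1 / 4 := by
    refine (pow_le_quarter (by linarith) (by positivity) hN₁).trans ?_
    gcongr
    refine pow_le_one₀ (by positivity) ?_
    calc _ = 16 * (D + 1) * (18 * Real.exp (8 * D) * Qz D) * W / ρ := by ring
      _ ≤ Cw D * W / ρ := by gcongr
      _ ≤ 1 := (div_le_one hρ₀).2 hW
  have T₂ : (4 * (D + 1) * 2 ^ D) *
      (72 * Real.exp 2 * Real.exp (8 * D) * Qz D * (W / (a * N₁))) ^ N₁ * ε ≤ 1 / 4 := by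
    refine (mul_le_mul_of_nonneg_right (pow_le_quarter (by nlinarith) (by positivity) hN₁)
      hε₀).trans ?_
    rw [div_mul_eq_mul_div]
    gcongr
    refine le_trans (le_of_eq ?_) hε
    rw [Cw]
    congr 2
    ring
  have hw : ((2 * N₁ : ℕ) : ℝ) * (2 ^ (2 * N₁ - 1) / (2 * N₁ - 1)!) ≤
      4 * (4 * Real.exp 2 / N₁ ^ 2) ^ N₁ := by
    have h₁ := Real.pow_div_factorial_le_exp (2 * N₁ : ℕ) (Nat.cast_nonneg _) (2 * N₁)
    have h₂ : ((2 * N₁)! : ℝ) = (2 * N₁ : ℕ) * (2 * N₁ - 1)! := by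
      rw [← Nat.mul_factorial_pred (by omega : 2 * N₁ ≠ 0)]
      push_cast
      ring
    have h₃ : (2 : ℝ) ^ (2 * N₁ - 1) ≤ 2 ^ (2 * N₁) := pow_le_pow_right₀ one_le_two (by omega)
    have h₄ : (N₁ : ℝ) ≤ 2 ^ N₁ := by exact_mod_cast N₁.lt_two_pow_self.le
    have h₅ : (N₁ : ℝ) ^ 2 ≤ 4 ^ N₁ := by
      calc _ ≤ ((2 : ℝ) ^ N₁) ^ 2 := by gcongr
        _ = _ := by rw [← pow_mul, mul_comm, pow_mul]; norm_num
    rw [h₂] at h₁
    push_cast at h₁ ⊢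
    rw [mul_comm (2 : ℝ) N₁, Real.exp_nat_mul, mul_comm _ (2 : ℝ)] at h₁
    calc _ ≤ (2 : ℝ) * N₁ * (2 ^ (2 * N₁) / (2 * N₁ - 1)!) := by gcongr
      _ = (4 : ℝ) * (N₁ ^ 2 * ((2 * N₁) ^ (2 * N₁) / (2 * N₁ * (2 * N₁ - 1)!)) /
            (N₁ ^ 2) ^ N₁) := by
          rw [mul_pow, ← pow_mul]
          field_simp
          norm_num
      _ ≤ 4 * (4 ^ N₁ * Real.exp 2 ^ N₁ / (N₁ ^ 2) ^ N₁) := by gcongr
      _ = _ := by rw [div_pow, mul_pow]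
  have hle : ν ≤ ν * (1 / 4) + ν * (1 / 4) := by
    refine hsum.trans (le_trans ?_ (add_le_add (mul_le_mul_of_nonneg_left T₁ hν₀)
      (mul_le_mul_of_nonneg_left T₂ hν₀)))
    rw [mul_add, mul_add, mul_add, eN]
    push_cast
    refine add_le_add (le_of_eq ?_) ?_
    · have : 18 * Real.exp (8 * D) * Qz D * (W / ρ) =
          Qz D * (ρ / (2 * W)) * (3 * W) ^ 2 * Real.exp (8 * D) * (2 / ρ) ^ 2 := by
        field_simp
        norm_num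
      rw [this, pow_mul, pow_mul]
      simp only [mul_pow]
      ring
    · have : 72 * Real.exp 2 * Real.exp (8 * D) * Qz D * (W / (a * N₁)) =
          Qz D * (ρ / (2 * W)) * (3 * W) ^ 2 * Real.exp (8 * D) * (4 * Real.exp 2 / N₁ ^ 2) := by
        rw [hρ]
        field_simp
        norm_num
      push_cast at hw
      rw [this, pow_mul, mul_pow _ (4 * Real.exp 2 / N₁ ^ 2), mul_pow _ (Real.exp (8 * D)),
        mul_pow (Qz D * _)]
      calc _ = (D + 1) * (Qz D * (ρ / (2 * W))) ^ N₁ * ((3 * W) ^ 2) ^ N₁ *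
            (2 ^ D * ε * (ν * Real.exp (8 * D) ^ N₁)) *
            (2 * N₁ * (2 ^ (2 * N₁ - 1) / (2 * N₁ - 1)!) / W) := by ring
        _ ≤ (D + 1) * (Qz D * (ρ / (2 * W))) ^ N₁ * ((3 * W) ^ 2) ^ N₁ *
            (2 ^ D * ε * (ν * Real.exp (8 * D) ^ N₁)) * (4 * (4 * Real.exp 2 / N₁ ^ 2) ^ N₁) := by
          gcongr
          exact (div_le_self (by positivity) (by linarith)).trans hw
        _ = _ := by ring
  refine eq_zero_of_nrm (hP j) hρ₀ ((single_le_sum (fun j _ => hn₀ j) (mem_univ j)).trans ?_)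
  linarith

end Pool.Agent.PPow
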