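import Mathlib

/-! A quantitative zero estimate for sums `∑ A j * γ ^ j`, formal part. -/

open Finset PowerSeries

noncomputable section

namespace Pool.Agent.PPow

/-- weighted norm of the coefficients up to degree `n` -/
def nrm (r M : ℝ) (T n : ℕ) (f : ℂ⟦X⟧) : ℝ :=
  ∑ i ∈ range (n + 1), r ^ i * M ^ (i - T) * ‖coeff i f‖

variable {r M a : ℝ} {T n D N : ℕ} {f g φ ψ : ℂ⟦X⟧}

theorem nrm_nonneg (hr : 0 < r) (hM : 1 ≤ M) : 0 ≤ nrm r M T n f :=
  sum_nonneg fun i _ => by positivity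

theorem nrm_mono (hr : 0 < r) (hM : 1 ≤ M) {n' : ℕ} (h : n ≤ n') :
    nrm r M T n f ≤ nrm r M T n' f :=
  sum_le_sum_of_subset_of_nonneg (range_mono (by omega)) fun i _ _ => by positivity

theorem nrm_anti (hr : 0 < r) (hM : 1 ≤ M) {T' : ℕ} (h : T ≤ T') :
    nrm r M T' n f ≤ nrm r M T n f :=
  sum_le_sum fun i _ => by
    gcongr

theorem nrm_one_le (hr : 0 < r) (hM : 1 ≤ M) : nrm r 1 0 n f ≤ nrm r M T n f :=
  sum_le_sum fun i _ => by
    rw [one_pow]
    gcongr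
    exact one_le_pow₀ hM

theorem nrm_add (hr : 0 < r) (hM : 1 ≤ M) :
    nrm r M T n (f + g) ≤ nrm r M T n f + nrm r M T n g := by
  rw [nrm, nrm, nrm, ← sum_add_distrib]
  refine sum_le_sum fun i _ => ?_
  rw [map_add, ← mul_add]
  gcongr
  exact norm_add_le _ _

theorem nrm_C (c : ℂ) : nrm r M T n (C c * f) = ‖c‖ * nrm r M T n f := by
  rw [nrm, nrm, mul_sum]
  refine sum_congr rfl fun i _ => ?_
  rw [coeff_C_mul, norm_mul]
  ring

theorem nrm_neg : nrm r M T n (-f) = nrm r M T n f := by simp [nrm]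

theorem nrm_sum {ι : Type} (hr : 0 < r) (hM : 1 ≤ M) (s : Finset ι) (F : ι → ℂ⟦X⟧) :
    nrm r M T n (∑ i ∈ s, F i) ≤ ∑ i ∈ s, nrm r M T n (F i) := by
  classical
  induction s using Finset.induction_on with
  | empty => simp [nrm]
  | insert i s hi ih =>
    rw [sum_insert hi, sum_insert hi]
    exact (nrm_add hr hM).trans (by gcongr)

theorem nrm_mul (hr : 0 < r) (hM : 1 ≤ M) :
    nrm r M T n (f * g) ≤ nrm r M 0 n f * nrm r M T n g := by
  have h₁ : nrm r M T n (f * g) ≤ ∑ k ∈ range (n + 1), ∑ p ∈ antidiagonal k,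
      (r ^ p.1 * M ^ (p.1 - 0) * ‖coeff p.1 f‖) * (r ^ p.2 * M ^ (p.2 - T) * ‖coeff p.2 g‖) := by
    refine sum_le_sum fun k _ => ?_
    rw [coeff_mul]
    refine (mul_le_mul_of_nonneg_left (norm_sum_le _ _) (by positivity)).trans ?_
    rw [mul_sum]
    refine sum_le_sum fun p hp => ?_
    rw [← mem_antidiagonal.1 hp, norm_mul, pow_add]
    have : M ^ (p.1 + p.2 - T) ≤ M ^ (p.1 - 0) * M ^ (p.2 - T) := by
      rw [← pow_add]
      exact pow_le_pow_right₀ hM (by omega)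
    calc _ ≤ r ^ p.1 * r ^ p.2 * (M ^ (p.1 - 0) * M ^ (p.2 - T)) * (‖coeff p.1 f‖ * ‖coeff p.2 g‖) := by
          gcongr
      _ = _ := by ring
  refine h₁.trans ?_
  rw [← sum_biUnion, nrm, nrm, sum_mul_sum, ← sum_product']
  · refine sum_le_sum_of_subset_of_nonneg (fun p hp => ?_) fun p _ _ => by positivity
    simp only [mem_biUnion, mem_range, HasAntidiagonal.mem_antidiagonal, mem_product] at hp ⊢
    obtain ⟨k, hk, e⟩ := hp
    omega
  · intro k _ k' _ h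
    rw [Function.onFun, disjoint_left]
    intro p hp hp'
    exact h ((mem_antidiagonal.1 hp).symm.trans (mem_antidiagonal.1 hp'))

theorem nrm_d_aux (hr : 0 < r) {T' : ℕ} {t : ℝ} (hM : 1 ≤ M) (ht : 0 ≤ t)
    (h : ∀ i, M ^ (i - T) ≤ t * M ^ (i + 1 - T')) :
    nrm r M T n (d⁄dX ℂ f) ≤ (n + 1) / r * t * nrm r M T' (n + 1) f := by
  rw [nrm, nrm, sum_range_succ' _ (n + 1), mul_add, mul_sum]
  refine le_add_of_le_of_nonneg (sum_le_sum fun i hi => ?_) (by positivity)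
  have hi' : (i : ℝ) + 1 ≤ n + 1 := by
    have := mem_range.1 hi
    exact_mod_cast (by omega : i + 1 ≤ n + 1)
  have e : ‖(i : ℂ) + 1‖ = (i : ℝ) + 1 := by exact_mod_cast Complex.norm_natCast (i + 1)
  rw [coeff_derivative, norm_mul, e]
  calc _ ≤ r ^ i * (t * M ^ (i + 1 - T')) * (‖coeff (i + 1) f‖ * (n + 1)) := by
        gcongr
        exact h i
    _ = _ := by field_simp; ring

/-- the operator `d + c φ` -/
def Lop (φ : ℂ⟦X⟧) (c : ℤ) (f : ℂ⟦X⟧) : ℂ⟦X⟧ := d⁄dX ℂ f + C (c : ℂ) * φ * f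

def Ls (φ : ℂ⟦X⟧) (cs : List ℤ) (f : ℂ⟦X⟧) : ℂ⟦X⟧ := cs.foldr (Lop φ) f

theorem Ls_append (l l' : List ℤ) : Ls φ (l ++ l') f = Ls φ l (Ls φ l' f) := List.foldr_append

/-- standing hypotheses -/
structure ZH (r M a : ℝ) (D N : ℕ) (φ ψ : ℂ⟦X⟧) : Prop where
  hr : 0 < r
  hM : 1 ≤ M
  ha : 0 < a
  hD : 1 ≤ D
  hN : (N : ℝ) / r ≤ a / 4
  hφ : φ = C (a : ℂ) * (1 + ψ)
  hψ : ∀ n, nrm r M 0 n ψ ≤ 1 / 4

namespace ZH

theorem one (h : ZH r M a D N φ ψ) : ZH r 1 a D N φ ψ :=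
  { h with hM := le_rfl, hψ := fun n => (nrm_one_le h.hr h.hM).trans (h.hψ n) }

theorem div_le (h : ZH r M a D N φ ψ) (hn : n + 1 ≤ N) : ((n : ℝ) + 1) / r ≤ a / 4 := by
  refine le_trans ?_ h.hN
  have := h.hr
  gcongr
  exact_mod_cast hn

theorem Lop_eq (h : ZH r M a D N φ ψ) (c : ℤ) :
    Lop φ c f = d⁄dX ℂ f + (C ((c : ℂ) * a) * f + C ((c : ℂ) * a) * (ψ * f)) := by
  rw [Lop, h.hφ, map_mul]
  ring

theorem norm_ca (h : ZH r M a D N φ ψ) (c : ℤ) : ‖(c : ℂ) * a‖ = |(c : ℝ)| * a := by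
  rw [norm_mul, Complex.norm_intCast, Complex.norm_real, Real.norm_of_nonneg h.ha.le]

theorem up (h : ZH r M a D N φ ψ) {c : ℤ} (hc : |c| ≤ D) (hn : n + 1 ≤ N) :
    nrm r M T n (Lop φ c f) ≤ 2 * D * a * nrm r M T (n + 1) f := by
  have hc' : |(c : ℝ)| ≤ D := by exact_mod_cast hc
  have hD : (1 : ℝ) ≤ D := by exact_mod_cast h.hD
  have h₀ := nrm_nonneg (T := T) (n := n + 1) (f := f) h.hr h.hM
  have h₁ := nrm_d_aux (T := T) (T' := T) (n := n) (f := f) h.hr h.hM zero_le_one fun i => by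
    rw [one_mul]
    exact pow_le_pow_right₀ h.hM (by omega)
  have h₂ := nrm_mono (T := T) (f := f) h.hr h.hM (Nat.le_succ n)
  have h₃ : nrm r M T n (ψ * f) ≤ 1 / 4 * nrm r M T (n + 1) f :=
    (nrm_mul h.hr h.hM).trans (mul_le_mul (h.hψ n) h₂ (nrm_nonneg h.hr h.hM) (by norm_num))
  have ha := h.ha
  rw [h.Lop_eq]
  refine (nrm_add h.hr h.hM).trans ((add_le_add le_rfl (nrm_add h.hr h.hM)).trans ?_)
  rw [nrm_C, nrm_C, h.norm_ca]
  calc _ ≤ a / 4 * 1 * nrm r M T (n + 1) f + (D * a * nrm r M T (n + 1) f +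
        D * a * (1 / 4 * nrm r M T (n + 1) f)) := by
        have := h.div_le hn
        have := nrm_nonneg (T := T) (n := n) (f := f) h.hr h.hM
        have := nrm_nonneg (T := T) (n := n) (f := ψ * f) h.hr h.hM
        refine add_le_add (h₁.trans (by gcongr)) (by gcongr)
    _ ≤ _ := by nlinarith [mul_nonneg ha.le h₀]

theorem ups (h : ZH r M a D N φ ψ) (cs : List ℤ) (hc : ∀ c ∈ cs, |c| ≤ D) :
    ∀ n, n + cs.length ≤ N →
      nrm r M T n (Ls φ cs f) ≤ (2 * D * a) ^ cs.length * nrm r M T (n + cs.length) f := by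
  induction cs with
  | nil => intro n _; simp [Ls]
  | cons c cs ih =>
    intro n hn
    rw [List.length_cons] at hn ⊢
    have ha := h.ha
    refine (h.up (hc c List.mem_cons_self) (by omega)).trans ?_
    have := ih (fun c' h' => hc c' (List.mem_cons_of_mem _ h')) (n + 1) (by omega)
    rw [show n + (cs.length + 1) = n + 1 + cs.length by omega, pow_succ', mul_assoc _ (_ ^ _)]
    exact mul_le_mul_of_nonneg_left this (by positivity)

theorem quarter_le (h : ZH r M a D N φ ψ) : a / 4 ≤ 2 * D * a := by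
  have hD : (1 : ℝ) ≤ D := by exact_mod_cast h.hD
  nlinarith [h.ha]

theorem kill₁ (h : ZH r M a D N φ ψ) (k : ℕ) : ∀ n T, n + k ≤ N →
    nrm r M T n (Ls φ (List.replicate k 0) f) ≤ (2 * D * a) ^ k * nrm r M (T + k) (n + k) f := by
  induction k with
  | zero => intro n T _; simp [Ls]
  | succ k ih =>
    intro n T hn
    have ha := h.ha
    have e : Ls φ (List.replicate (k + 1) 0) f = d⁄dX ℂ (Ls φ (List.replicate k 0) f) := by
      simp [Ls, List.replicate_succ, Lop]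
    rw [e]
    refine (nrm_d_aux (T' := T + 1) h.hr h.hM zero_le_one fun i => by simp).trans ?_
    have := ih (n + 1) (T + 1) (by omega)
    rw [show n + (k + 1) = n + 1 + k by omega, show T + (k + 1) = T + 1 + k by omega, pow_succ',
      mul_assoc _ (_ ^ _), mul_one]
    exact mul_le_mul ((h.div_le (by omega)).trans h.quarter_le) this (nrm_nonneg h.hr h.hM)
      (by positivity)

theorem kill₂ (h : ZH r M a D N φ ψ) (k : ℕ) : ∀ n, n + k ≤ N →
    nrm r M 0 n (Ls φ (List.replicate k 0) f) ≤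
      (2 * D * a) ^ k * (M ^ k)⁻¹ * nrm r M 0 (n + k) f := by
  induction k with
  | zero => intro n _; simp [Ls]
  | succ k ih =>
    intro n hn
    have ha := h.ha
    have hM : 0 < M := one_pos.trans_le h.hM
    have e : Ls φ (List.replicate (k + 1) 0) f = d⁄dX ℂ (Ls φ (List.replicate k 0) f) := by
      simp [Ls, List.replicate_succ, Lop]
    rw [e]
    refine (nrm_d_aux (T' := 0) (t := M⁻¹) h.hr h.hM (by positivity) fun i => ?_).trans ?_
    · simp only [tsub_zero, pow_succ]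
      field_simp
      rfl
    have := ih (n + 1) (by omega)
    have h₀ := nrm_nonneg (T := 0) (n := n + 1) (f := Ls φ (List.replicate k 0) f) h.hr h.hM
    have h₁ := (h.div_le (show n + 1 ≤ N by omega)).trans h.quarter_le
    rw [show n + (k + 1) = n + 1 + k by omega]
    calc _ ≤ 2 * D * a * M⁻¹ * ((2 * D * a) ^ k * (M ^ k)⁻¹ * nrm r M 0 (n + 1 + k) f) := by
          gcongr
      _ = _ := by rw [pow_succ, pow_succ, mul_inv]; ring

end ZH

theorem nrm_poly (hr : 0 < r) (hf : ∀ i, T < i → coeff i f = 0) :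
    nrm r M T n f ≤ nrm r 1 0 T f := by
  have e : nrm r M T n f = ∑ i ∈ range (n + 1) with i ≤ T, r ^ i * 1 ^ (i - 0) * ‖coeff i f‖ := by
    rw [sum_filter]
    refine sum_congr rfl fun i _ => ?_
    split_ifs with h
    · simp [Nat.sub_eq_zero_of_le h]
    · simp [hf i (not_le.1 h)]
  rw [e]
  refine sum_le_sum_of_subset_of_nonneg (fun i hi => ?_) fun i _ _ => by positivity
  simp only [mem_filter, mem_range] at hi ⊢
  omega

namespace ZH

/-- a long block of derivatives almost kills an almost polynomial -/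
theorem kill (h : ZH r M a D N φ ψ) (hf : ∀ i, T < i → coeff i f = 0) {l l' : List ℤ} {x : ℕ}
    (hl : ∀ c ∈ l, |c| ≤ D) (hl' : ∀ c ∈ l', |c| ≤ D)
    (hn : n + (l ++ List.replicate (x + T) 0 ++ l').length ≤ N) :
    nrm r 1 0 n (Ls φ (l ++ List.replicate (x + T) 0 ++ l') f) ≤
      (2 * D * a) ^ (l ++ List.replicate (x + T) 0 ++ l').length * (M ^ x)⁻¹ * nrm r 1 0 T f := by
  simp only [List.length_append, List.length_replicate] at hn ⊢
  have ha := h.ha
  have hM : 0 < M := one_pos.trans_le h.hM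
  rw [Ls_append, Ls_append, List.replicate_add, Ls_append]
  refine (nrm_one_le (T := 0) h.hr h.hM).trans ((h.ups l hl n (by omega)).trans ?_)
  have h₁ := h.kill₂ (f := Ls φ (List.replicate T 0) (Ls φ l' f)) x (n + l.length) (by omega)
  have h₂ := h.kill₁ (f := Ls φ l' f) T (n + l.length + x) 0 (by omega)
  have h₃ := h.ups (T := T) (f := f) l' hl' (n + l.length + x + T) (by omega)
  have h₄ := nrm_poly (M := M) (n := n + l.length + x + T + l'.length) h.hr hf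
  rw [zero_add] at h₂
  calc _ ≤ (2 * D * a) ^ l.length * ((2 * D * a) ^ x * (M ^ x)⁻¹ * ((2 * D * a) ^ T *
        ((2 * D * a) ^ l'.length * nrm r 1 0 T f))) := by
        gcongr
        refine h₁.trans ?_
        gcongr
        refine h₂.trans ?_
        gcongr
        exact h₃.trans (by gcongr)
    _ = _ := by ring

theorem low (h : ZH r M a D N φ ψ) {c : ℤ} (hc : c ≠ 0) (hn : n + 1 ≤ N) :
    a / 2 * nrm r 1 0 n f - a / 4 * (r ^ (n + 1) * ‖coeff (n + 1) f‖) ≤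
      nrm r 1 0 n (Lop φ c f) := by
  have hc' : (1 : ℝ) ≤ |(c : ℝ)| := by exact_mod_cast Int.one_le_abs hc
  have hr := h.hr
  have ha := h.ha
  have h₀ := nrm_nonneg (T := 0) (n := n) (f := f) hr le_rfl
  have h₁ := nrm_d_aux (T := 0) (T' := 0) (n := n) (f := f) hr le_rfl zero_le_one fun i => by simp
  have h₂ : nrm r 1 0 (n + 1) f = nrm r 1 0 n f + r ^ (n + 1) * ‖coeff (n + 1) f‖ := by
    rw [nrm, sum_range_succ, one_pow, mul_one, nrm]
  have h₃ : nrm r 1 0 n (ψ * f) ≤ 1 / 4 * nrm r 1 0 n f :=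
    (nrm_mul hr le_rfl).trans (mul_le_mul_of_nonneg_right (h.one.hψ n) h₀)
  have e : C ((c : ℂ) * a) * f =
      Lop φ c f + (-d⁄dX ℂ f + C ((c : ℂ) * a) * (-(ψ * f))) := by
    rw [h.Lop_eq]; ring
  have h₄ := (nrm_add (T := 0) (n := n) (f := Lop φ c f) hr le_rfl).trans
    (add_le_add le_rfl (nrm_add (f := -d⁄dX ℂ f) (g := C ((c : ℂ) * a) * (-(ψ * f))) hr le_rfl))
  rw [← e, nrm_C, nrm_C, nrm_neg, nrm_neg, h.norm_ca] at h₄
  have h₅ : nrm r 1 0 n (d⁄dX ℂ f) ≤ a / 4 * (nrm r 1 0 n f + r ^ (n + 1) * ‖coeff (n + 1) f‖) := by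
    rw [← h₂]
    refine h₁.trans ?_
    rw [mul_one]
    exact mul_le_mul_of_nonneg_right (h.div_le hn) (nrm_nonneg hr le_rfl)
  have h₆ := mul_le_mul_of_nonneg_left h₃ (show 0 ≤ |(c : ℝ)| * a by positivity)
  have h₇ := mul_le_mul_of_nonneg_right hc' (mul_nonneg ha.le h₀)
  nlinarith

theorem lows (h : ZH r M a D N φ ψ) (hf : ∀ i, T < i → coeff i f = 0) {x : ℕ}
    (hx : (8 * D : ℝ) ^ N ≤ M ^ x) (cs : List ℤ) (hc : ∀ c ∈ cs, c ≠ 0 ∧ |c| ≤ D)
    (hn : T + x + 1 + cs.length ≤ N) :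
    (a / 4) ^ cs.length * nrm r 1 0 T f ≤ nrm r 1 0 (T + x) (Ls φ cs f) := by
  induction cs with
  | nil => simpa [Ls] using nrm_mono h.hr le_rfl (Nat.le_add_right T x)
  | cons c cs ih =>
    rw [List.length_cons] at hn ⊢
    have hr := h.hr
    have ha := h.ha
    have hM : 0 < M := one_pos.trans_le h.hM
    have hD : (1 : ℝ) ≤ D := by exact_mod_cast h.hD
    have hc' : ∀ c' ∈ cs, c' ≠ 0 ∧ |c'| ≤ D := fun c' h' => hc c' (List.mem_cons_of_mem _ h')
    have h₁ := ih hc' (by omega)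
    have h₂ := (h.ups (T := T) (f := f) cs (fun c h => (hc' c h).2) (T + x + 1) (by omega)).trans
      (mul_le_mul_of_nonneg_left (nrm_poly hr hf) (by positivity))
    have h₃ : r ^ (T + x + 1) * M ^ (T + x + 1 - T) * ‖coeff (T + x + 1) (Ls φ cs f)‖ ≤
        nrm r M T (T + x + 1) (Ls φ cs f) :=
      single_le_sum (f := fun i => r ^ i * M ^ (i - T) * ‖coeff i (Ls φ cs f)‖)
        (fun i _ => by positivity) (self_mem_range_succ _)
    have h₄ : (8 * D : ℝ) ^ cs.length ≤ M ^ (T + x + 1 - T) :=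
      (pow_le_pow_right₀ (by linarith) (by omega)).trans
        (hx.trans (pow_le_pow_right₀ h.hM (by omega)))
    have h₀ := nrm_nonneg (T := 0) (n := T) (f := f) hr le_rfl
    have h₅ : r ^ (T + x + 1) * ‖coeff (T + x + 1) (Ls φ cs f)‖ ≤
        (a / 4) ^ cs.length * nrm r 1 0 T f := by
      refine le_of_mul_le_mul_left ?_ (show 0 < (8 * D : ℝ) ^ cs.length by positivity)
      calc _ ≤ M ^ (T + x + 1 - T) * (r ^ (T + x + 1) * ‖coeff (T + x + 1) (Ls φ cs f)‖) := by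
            gcongr
        _ ≤ (2 * D * a) ^ cs.length * nrm r 1 0 T f := by linarith
        _ = _ := by rw [← mul_assoc, ← mul_pow]; congr 2; ring
    refine le_trans ?_ (h.low (hc c List.mem_cons_self).1 (by omega))
    change _ ≤ a / 2 * nrm r 1 0 (T + x) (Ls φ cs f) -
      a / 4 * (r ^ (T + x + 1) * ‖coeff (T + x + 1) (Ls φ cs f)‖)
    rw [pow_succ]
    nlinarith

end ZH

theorem Ls_mul {ι : Type} {Γ : ℤ → ℂ⟦X⟧} (hΓ : ∀ c, d⁄dX ℂ (Γ c) = C (c : ℂ) * φ * Γ c)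
    (v : ι → ℤ) (c : ℤ) (l : List ι) :
    Ls φ (l.map fun i => -v i) (f * Γ c) = Ls φ (l.map fun i => c - v i) f * Γ c := by
  induction l with
  | nil => rfl
  | cons i l ih =>
    change Lop φ _ (Ls φ (l.map _) _) = Lop φ _ (Ls φ (l.map _) _) * _
    rw [ih, Lop, Lop, Derivation.leibniz, hΓ]
    simp only [smul_eq_mul, Int.cast_neg, Int.cast_sub, map_neg, map_sub]
    ring

theorem Ls_sum {ι : Type} (s : Finset ι) (F : ι → ℂ⟦X⟧) (l : List ℤ) :
    Ls φ l (∑ i ∈ s, F i) = ∑ i ∈ s, Ls φ l (F i) := by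
  induction l with
  | nil => rfl
  | cons c l ih =>
    change Lop φ c (Ls φ l _) = ∑ i ∈ s, Lop φ c (Ls φ l _)
    rw [ih, Lop, map_sum, mul_sum, ← sum_add_distrib]
    rfl

/-- The formal zero estimate. -/
theorem ZH.zero (h : ZH r M a D N φ ψ) {x : ℕ} {T : Fin (D + 1) → ℕ}
    (hN : ∑ j, (x + T j) + 1 ≤ N) {Γ : ℤ → ℂ⟦X⟧} (hΓ₀ : Γ 0 = 1)
    (hΓ₁ : ∀ c c', Γ c * Γ c' = Γ (c + c')) (hΓ : ∀ c, d⁄dX ℂ (Γ c) = C (c : ℂ) * φ * Γ c)
    {b : ℝ} (hb₁ : 1 ≤ b) (hb : ∀ c : ℤ, |c| ≤ D → ∀ n, nrm r 1 0 n (Γ c) ≤ b)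
    (hx : 2 * D * b * (8 * D : ℝ) ^ N ≤ M ^ x) {A : Fin (D + 1) → ℂ⟦X⟧}
    (hA : ∀ j i, T j < i → coeff i (A j) = 0) (j : Fin (D + 1)) :
    nrm r 1 0 (T j) (A j) ≤
      2 * b * (8 * D : ℝ) ^ N * nrm r 1 0 N (∑ j, A j * Γ ((j : ℕ) : ℤ)) := by
  obtain ⟨j₀, -, hj₀⟩ := exists_max_image univ (fun j => nrm r 1 0 (T j) (A j)) univ_nonempty
  refine (hj₀ j (mem_univ _)).trans ?_
  set ν := nrm r 1 0 (T j₀) (A j₀)
  have hr := h.hr
  have ha := h.ha
  have hM : 0 < M := one_pos.trans_le h.hM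
  have hD : (1 : ℝ) ≤ D := by exact_mod_cast h.hD
  have hν : 0 ≤ ν := nrm_nonneg hr le_rfl
  set I := (univ.erase j₀).toList.flatMap fun i => List.replicate (x + T i) i with hI
  have hlen : T j₀ + x + 1 + I.length ≤ N := by
    have : I.length = ∑ i ∈ univ.erase j₀, (x + T i) := by
      simp [hI, List.length_flatMap, sum_map_toList]
    rw [← add_sum_erase _ _ (mem_univ j₀)] at hN
    omega
  have hab : ∀ i j : Fin (D + 1), |((j : ℕ) : ℤ) - ((i : ℕ) : ℤ)| ≤ D := fun i j => by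
    have := i.2
    have := j.2
    rw [abs_le]
    constructor <;> omega
  set B := fun j : Fin (D + 1) => Ls φ (I.map fun i : Fin (D + 1) => ((j : ℕ) : ℤ) - ((i : ℕ) : ℤ)) (A j)
  set E := Ls φ (I.map fun i : Fin (D + 1) => -((i : ℕ) : ℤ)) (∑ j, A j * Γ ((j : ℕ) : ℤ)) with hE
  have e : B j₀ = Γ (-((j₀ : ℕ) : ℤ)) * E +
      -∑ j ∈ univ.erase j₀, Γ (((j : ℕ) : ℤ) - ((j₀ : ℕ) : ℤ)) * B j := by
    rw [hE, Ls_sum, sum_congr rfl fun j _ => Ls_mul hΓ (fun i : Fin (D + 1) => ((i : ℕ) : ℤ)) _ I,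
      mul_sum, ← add_sum_erase _ _ (mem_univ j₀), mul_left_comm, hΓ₁, neg_add_cancel, hΓ₀, mul_one,
      add_assoc, ← sub_eq_add_neg, sub_eq_zero.2, add_zero]
    refine sum_congr rfl fun j _ => ?_
    rw [mul_left_comm, hΓ₁, neg_add_eq_sub, mul_comm]
  have h₁ : (a / 4) ^ I.length * ν ≤ nrm r 1 0 (T j₀ + x) (B j₀) := by
    have := h.lows (hA j₀) (x := x) (le_trans (le_mul_of_one_le_left (by positivity)
      (by nlinarith)) hx) (I.map fun i : Fin (D + 1) => ((j₀ : ℕ) : ℤ) - ((i : ℕ) : ℤ)) (fun c hc => by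
        obtain ⟨i, hi, rfl⟩ := List.mem_map.1 hc
        obtain ⟨i', hi', hi''⟩ := List.mem_flatMap.1 hi
        obtain rfl := List.eq_of_mem_replicate hi''
        refine ⟨fun h0 => (mem_erase.1 (mem_toList.1 hi')).1 (Fin.ext ?_), hab _ _⟩
        omega) (by rwa [List.length_map])
    rwa [List.length_map] at this
  have h₂ : nrm r 1 0 (T j₀ + x) E ≤
      (2 * D * a) ^ I.length * nrm r 1 0 N (∑ j, A j * Γ ((j : ℕ) : ℤ)) := by
    have := h.one.ups (T := 0) (f := ∑ j, A j * Γ ((j : ℕ) : ℤ))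
      (I.map fun i : Fin (D + 1) => -((i : ℕ) : ℤ)) (fun c hc => by
        obtain ⟨i, -, rfl⟩ := List.mem_map.1 hc
        simpa using hab i 0) (T j₀ + x) (by rw [List.length_map]; omega)
    rw [List.length_map] at this
    exact this.trans (mul_le_mul_of_nonneg_left (nrm_mono hr le_rfl (by omega)) (by positivity))
  have h₃ : ∀ j ∈ univ.erase j₀, nrm r 1 0 (T j₀ + x) (B j) ≤
      (2 * D * a) ^ I.length * (M ^ x)⁻¹ * ν := fun j hj => by
    obtain ⟨l, l', hl⟩ := List.append_of_mem (mem_toList.2 hj)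
    have hI' : (I.map fun i : Fin (D + 1) => ((j : ℕ) : ℤ) - ((i : ℕ) : ℤ)) =
        (l.flatMap fun i => List.replicate (x + T i) i).map
          (fun i : Fin (D + 1) => ((j : ℕ) : ℤ) - ((i : ℕ) : ℤ)) ++ List.replicate (x + T j) 0 ++
        (l'.flatMap fun i => List.replicate (x + T i) i).map
          fun i : Fin (D + 1) => ((j : ℕ) : ℤ) - ((i : ℕ) : ℤ) := by
      simp [hI, hl]
    have := h.kill (n := T j₀ + x) (hA j) (x := x)
      (l := (l.flatMap fun i => List.replicate (x + T i) i).map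
        fun i : Fin (D + 1) => ((j : ℕ) : ℤ) - ((i : ℕ) : ℤ))
      (l' := (l'.flatMap fun i => List.replicate (x + T i) i).map
        fun i : Fin (D + 1) => ((j : ℕ) : ℤ) - ((i : ℕ) : ℤ))
      (fun c hc => by obtain ⟨i, -, rfl⟩ := List.mem_map.1 hc; exact hab _ _)
      (fun c hc => by obtain ⟨i, -, rfl⟩ := List.mem_map.1 hc; exact hab _ _)
      (by rw [← hI', List.length_map]; omega)
    rw [← hI', List.length_map] at this
    exact this.trans (mul_le_mul_of_nonneg_left (hj₀ j (mem_univ _)) (by positivity))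
  have h₄ : nrm r 1 0 (T j₀ + x) (B j₀) ≤
      b * ((2 * D * a) ^ I.length * nrm r 1 0 N (∑ j, A j * Γ ((j : ℕ) : ℤ))) +
      D * (b * ((2 * D * a) ^ I.length * (M ^ x)⁻¹ * ν)) := by
    rw [e]
    refine (nrm_add hr le_rfl).trans (add_le_add ((nrm_mul hr le_rfl).trans
      (mul_le_mul (hb _ (by simpa using hab j₀ 0) _) h₂ (nrm_nonneg hr le_rfl) (by positivity))) ?_)
    rw [nrm_neg]
    refine (nrm_sum hr le_rfl _ _).trans ((sum_le_card_nsmul _ _ _ fun j hj =>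
      (nrm_mul hr le_rfl).trans (mul_le_mul (hb _ (hab _ _) _) (h₃ j hj) (nrm_nonneg hr le_rfl)
        (by positivity))).trans ?_)
    simp
  have h₅ : (8 * D : ℝ) ^ I.length ≤ (8 * D : ℝ) ^ N := pow_le_pow_right₀ (by linarith) (by omega)
  have e₂ : (2 * D * a) ^ I.length = (8 * D : ℝ) ^ I.length * (a / 4) ^ I.length := by
    rw [← mul_pow]; congr 1; ring
  have h₆ : D * (b * ((8 * D : ℝ) ^ I.length * (M ^ x)⁻¹)) ≤ 1 / 2 := by
    rw [← mul_assoc, ← mul_assoc, ← div_eq_mul_inv, div_le_iff₀ (by positivity)]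
    have : D * b * (8 * D : ℝ) ^ I.length ≤ D * b * (8 * D : ℝ) ^ N := by gcongr
    linarith
  have h₇ := nrm_nonneg (T := 0) (n := N) (f := ∑ j, A j * Γ ((j : ℕ) : ℤ)) hr le_rfl
  refine le_of_mul_le_mul_left ?_ (show 0 < (a / 4) ^ I.length by positivity)
  have h₈ := mul_le_mul_of_nonneg_right h₆ (show 0 ≤ (a / 4) ^ I.length * ν by positivity)
  have h₉ := mul_le_mul_of_nonneg_right h₅ (show 0 ≤ b * (a / 4) ^ I.length *
    nrm r 1 0 N (∑ j, A j * Γ ((j : ℕ) : ℤ)) by positivity)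
  rw [e₂] at h₄
  nlinarith

end Pool.Agent.PPow
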